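import Pool.Agent.Lib.MP_751612_pr.Moments

/-! Asymptotic bounds for the moments. -/

open Filter Topology
open scoped BigOperators

namespace MP751612

variable {m : ℕ} {δ : ℝ}

/-- `(k+2)^θ` -/
noncomputable def P (θ : ℝ) (k : ℕ) : ℝ := ((k : ℝ) + 2) ^ θ

theorem nk_pos (k : ℕ) : (0:ℝ) < (k:ℝ) + 2 := by positivity
theorem nk_one (k : ℕ) : (1:ℝ) ≤ (k:ℝ) + 2 := by linarith [(Nat.cast_nonneg k : (0:ℝ) ≤ k)]

theorem P_nonneg (θ : ℝ) (k : ℕ) : 0 ≤ P θ k := Real.rpow_nonneg (nk_pos k).le _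
theorem P_pos (θ : ℝ) (k : ℕ) : 0 < P θ k := Real.rpow_pos_of_pos (nk_pos k) _
theorem P_mono {θ θ' : ℝ} (h : θ ≤ θ') (k : ℕ) : P θ k ≤ P θ' k :=
  Real.rpow_le_rpow_of_exponent_le (nk_one k) h
theorem P_zero (k : ℕ) : P 0 k = 1 := Real.rpow_zero _
theorem P_one (k : ℕ) : P 1 k = (k:ℝ) + 2 := Real.rpow_one _
theorem P_add (a b : ℝ) (k : ℕ) : P (a + b) k = P a k * P b k := Real.rpow_add (nk_pos k) _ _
theorem P_sub (a b : ℝ) (k : ℕ) : P (a - b) k = P a k / P b k := Real.rpow_sub (nk_pos k) _ _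

theorem P_div (θ : ℝ) (k : ℕ) : P θ k / ((k:ℝ) + 2) = P (θ - 1) k := by
  rw [P_sub, P_one]

theorem Ls_eq (k : ℕ) : Ls m δ k = (2 * m + δ) * ((k:ℝ) + 2) - 2 * m := by
  unfold Ls Lt
  push_cast
  ring

theorem Ls_ge (k : ℕ) : δ * ((k:ℝ) + 2) ≤ Ls m δ k := by
  rw [Ls_eq]
  have h1 : (0:ℝ) ≤ m := Nat.cast_nonneg _
  have := nk_one k
  nlinarith

theorem Ls_le (hδ : 0 < δ) (k : ℕ) : Ls m δ k ≤ (2 * m + δ) * ((k:ℝ) + 2) := by
  rw [Ls_eq]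
  have h1 : (0:ℝ) ≤ m := Nat.cast_nonneg _
  linarith

theorem Ls_pos (hδ : 0 < δ) (k : ℕ) : 0 < Ls m δ k :=
  lt_of_lt_of_le (mul_pos hδ (nk_pos k)) (Ls_ge k)

theorem div_Ls_le (hδ : 0 < δ) (k : ℕ) {x : ℝ} (hx : 0 ≤ x) :
    x / Ls m δ k ≤ (x / δ) / ((k:ℝ) + 2) := by
  rw [div_div]
  exact div_le_div_of_nonneg_left hx (mul_pos hδ (nk_pos k)) (Ls_ge k)

theorem tendsto_nk : Tendsto (fun k : ℕ => (k:ℝ) + 2) atTop atTop :=
  tendsto_atTop_add_const_right _ _ tendsto_natCast_atTop_atTop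

theorem tendsto_y (hδ : 0 < δ) :
    Tendsto (fun k : ℕ => ((k:ℝ) + 2) / Ls m δ k) atTop (𝓝 (1 / (2 * m + δ))) := by
  have h1 : Tendsto (fun k : ℕ => (2 * (m:ℝ) + δ) - 2 * m / ((k:ℝ) + 2)) atTop
      (𝓝 ((2 * m + δ) - 0)) :=
    tendsto_const_nhds.sub (Tendsto.div_atTop tendsto_const_nhds tendsto_nk)
  rw [sub_zero] at h1
  have h2 : (2 * (m:ℝ) + δ) ≠ 0 := by positivity
  have h3 := h1.inv₀ h2
  rw [one_div]
  refine h3.congr fun k => ?_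
  rw [Ls_eq]
  have := (nk_pos k).ne'
  rw [← one_div]
  have e : (2 * (m:ℝ) + δ) - 2 * m / ((k:ℝ) + 2)
      = ((2 * m + δ) * ((k:ℝ) + 2) - 2 * m) / ((k:ℝ) + 2) := by field_simp
  rw [e, one_div_div]

theorem tendsto_invL (hδ : 0 < δ) : Tendsto (fun k : ℕ => 1 / Ls m δ k) atTop (𝓝 0) := by
  have h := (tendsto_y (m := m) hδ).mul (tendsto_nk.inv_tendsto_atTop)
  rw [mul_zero] at h
  refine h.congr fun k => ?_
  have := (nk_pos k).ne'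
  have := (Ls_pos (m := m) hδ k).ne'
  simp only [Pi.inv_apply]
  field_simp

theorem ev_of_tendsto {a : ℕ → ℝ} {ℓ ρ : ℝ}
    (h : Tendsto (fun k : ℕ => ((k:ℝ) + 2) * (a k - 1)) atTop (𝓝 ℓ)) (hρ : ℓ < ρ) :
    ∀ᶠ k : ℕ in atTop, a k ≤ 1 + ρ / ((k:ℝ) + 2) := by
  filter_upwards [h.eventually_lt_const hρ] with k hk
  have := nk_pos k
  have h2 : a k - 1 ≤ ρ / ((k:ℝ) + 2) := by
    rw [le_div_iff₀ this]
    linarith
  linarith

/-- `κ = δ/(2m+δ)` -/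
noncomputable def kap (m : ℕ) (δ : ℝ) : ℝ := δ / (2 * m + δ)

theorem kap_pos (hδ : 0 < δ) : 0 < kap m δ := by unfold kap; positivity

theorem kap_lt_one (hm : 1 ≤ m) (hδ : 0 < δ) : kap m δ < 1 := by
  unfold kap
  rw [div_lt_one (by positivity)]
  have : (0:ℝ) < m := by exact_mod_cast hm
  linarith

theorem lam_eq (hδ : 0 < δ) : 2 * m * (1 / (2 * m + δ)) = 1 - kap m δ := by
  unfold kap
  have : (2 * (m:ℝ) + δ) ≠ 0 := by positivity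
  field_simp
  ring

theorem al_lim (hδ : 0 < δ) :
    Tendsto (fun k : ℕ => ((k:ℝ) + 2) * (al m δ k - 1)) atTop (𝓝 (1 - kap m δ)) := by
  have h := ((tendsto_y (m := m) hδ).const_mul (2 * (m:ℝ))).add
    (((tendsto_y (m := m) hδ).mul (tendsto_invL (m := m) hδ)).const_mul ((m:ℝ) * (m - 1)))
  rw [mul_zero, mul_zero, add_zero, lam_eq hδ] at h
  refine h.congr fun k => ?_
  unfold al
  have := (Ls_pos (m := m) hδ k).ne'
  field_simp
  ring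

theorem al_tendsto (hδ : 0 < δ) : Tendsto (fun k : ℕ => al m δ k) atTop (𝓝 1) := by
  have h := (al_lim (m := m) hδ).mul (tendsto_nk.inv_tendsto_atTop)
  rw [mul_zero] at h
  have h2 := h.add_const 1
  rw [zero_add] at h2
  refine h2.congr fun k => ?_
  have := (nk_pos k).ne'
  simp only [Pi.inv_apply]
  field_simp
  ring

theorem al2_lim (hδ : 0 < δ) :
    Tendsto (fun k : ℕ => ((k:ℝ) + 2) * (al m δ k ^ 2 - 1)) atTop (𝓝 (2 * (1 - kap m δ))) := by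
  have h := (al_lim (m := m) hδ).mul ((al_tendsto (m := m) hδ).add_const 1)
  have e : (1 - kap m δ) * (1 + 1) = 2 * (1 - kap m δ) := by ring
  rw [e] at h
  exact h.congr fun k => by ring

theorem lin_lim (hδ : 0 < δ) (c : ℝ) :
    Tendsto (fun k : ℕ => ((k:ℝ) + 2) * ((1 + c * m / Ls m δ k) - 1)) atTop
      (𝓝 (c / 2 * (1 - kap m δ))) := by
  have h := (tendsto_y (m := m) hδ).const_mul (c * (m:ℝ))
  have e : c * (m:ℝ) * (1 / (2 * m + δ)) = c / 2 * (1 - kap m δ) := by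
    rw [← lam_eq hδ]; ring
  rw [e] at h
  exact h.congr fun k => by ring

/-- the `t` used in the recursion for the variance of `S` -/
noncomputable def tk (m : ℕ) (δ : ℝ) (k : ℕ) : ℝ := kap m δ / 4 / ((k:ℝ) + 2)

theorem tk_pos (hδ : 0 < δ) (k : ℕ) : 0 < tk m δ k :=
  div_pos (div_pos (kap_pos hδ) (by norm_num)) (nk_pos k)

theorem tal_lim (hδ : 0 < δ) :
    Tendsto (fun k : ℕ => ((k:ℝ) + 2) * ((1 + tk m δ k) * al m δ k ^ 2 - 1)) atTop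
      (𝓝 (2 * (1 - kap m δ) + kap m δ / 4)) := by
  have h := (al2_lim (m := m) hδ).add (((al_tendsto (m := m) hδ).pow 2).const_mul (kap m δ / 4))
  rw [one_pow, mul_one] at h
  refine h.congr fun k => ?_
  unfold tk
  have := (nk_pos k).ne'
  field_simp
  ring

/-! nonnegativity -/

theorem EG_nonneg (hδ : 0 < δ) (k : ℕ) {Φ : ℕ → MGraph → ℝ}
    (h : ∀ ω : Hist m k, 0 ≤ Φ (k + 2) (graph m k ω)) : 0 ≤ EG m hδ k Φ :=
  Ex_nonneg m hδ k h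

theorem q_nn (hδ : 0 < δ) (k : ℕ) : 0 ≤ EG m hδ k (Qf δ) :=
  EG_nonneg hδ k fun ω => Finset.sum_nonneg fun v _ => sq_nonneg _

theorem c_nn (hm : 1 ≤ m) (hδ : 0 < δ) (k : ℕ) : 0 ≤ EG m hδ k (Cf δ) :=
  EG_nonneg hδ k fun ω => Finset.sum_nonneg fun v _ =>
    pow_nonneg ((stp_graph hm hδ k ω).wt_nonneg v) 3

theorem s_nn (hm : 1 ≤ m) (hδ : 0 < δ) (k : ℕ) : 0 ≤ EG m hδ k (Sf δ) :=
  EG_nonneg hδ k fun ω => Finset.sum_nonneg fun a _ => Finset.sum_nonneg fun b _ =>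
    mul_nonneg (mul_nonneg (Nat.cast_nonneg _) ((stp_graph hm hδ k ω).wt_nonneg a))
      ((stp_graph hm hδ k ω).wt_nonneg b)

theorem r_nn (hm : 1 ≤ m) (hδ : 0 < δ) (k : ℕ) : 0 ≤ EG m hδ k (Rf δ) :=
  EG_nonneg hδ k fun ω => Finset.sum_nonneg fun v _ =>
    mul_nonneg ((stp_graph hm hδ k ω).wt_nonneg v) (sq_nonneg _)

theorem Uf_nn (hm : 1 ≤ m) (hδ : 0 < δ) (k : ℕ) (ω : Hist m k) :
    0 ≤ Uf δ (k + 2) (graph m k ω) := by
  unfold Uf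
  refine Finset.sum_nonneg fun a _ => Finset.sum_nonneg fun b _ => ?_
  refine mul_nonneg (mul_nonneg ?_ ((stp_graph hm hδ k ω).wt_nonneg a))
    ((stp_graph hm hδ k ω).wt_nonneg b)
  rcases Nat.eq_zero_or_pos (graph m k ω a b) with h0 | h0
  · rw [h0]; simp
  · have : (1:ℝ) ≤ graph m k ω a b := by exact_mod_cast h0
    exact mul_nonneg (by linarith) (by linarith)

theorem u_nn (hm : 1 ≤ m) (hδ : 0 < δ) (k : ℕ) : 0 ≤ EG m hδ k (Uf δ) :=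
  EG_nonneg hδ k fun ω => Uf_nn hm hδ k ω

/-! bounds -/

theorem q_bd (hm : 1 ≤ m) (hδ : 0 < δ) :
    ∃ K : ℝ, 0 ≤ K ∧ ∀ k, EG m hδ k (Qf δ) ≤ K * P 1 k := by
  have k1 := kap_pos (m := m) hδ
  have k2 := kap_lt_one hm hδ
  refine growth (x := fun k => EG m hδ k (Qf δ)) (a := al m δ) (b := fun _ => m + (m + δ) ^ 2)
    (ρ := 1 - kap m δ / 2) (θ := 1) (K := m + (m + δ) ^ 2) (by linarith) (by linarith)
    (q_nn hδ) (fun k => (q_rec hm hδ k).le) (ev_of_tendsto (al_lim hδ) (by linarith)) ?_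
  intro k
  change _ ≤ _ * P (1 - 1) k
  rw [sub_self, P_zero, mul_one]

theorem ga_le (hm : 1 ≤ m) (hδ : 0 < δ) (k : ℕ) :
    ga m δ k ≤ (2 * (m + δ) * (m / δ + m * (m - 1) / δ ^ 2)) / ((k:ℝ) + 2) := by
  unfold ga
  have hm1 : (1:ℝ) ≤ m := by exact_mod_cast hm
  have h1 : (m:ℝ) / Ls m δ k ≤ (m / δ) / ((k:ℝ) + 2) := div_Ls_le hδ k (by positivity)
  have h2 : (m:ℝ) * (m - 1) / Ls m δ k ^ 2 ≤ (m * (m - 1) / δ ^ 2) / ((k:ℝ) + 2) := by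
    have hmm : (0:ℝ) ≤ m * (m - 1) := mul_nonneg (by positivity) (by linarith)
    rw [div_div]
    apply div_le_div_of_nonneg_left hmm (by positivity)
    have := Ls_ge (m := m) (δ := δ) k
    have hn := nk_one k
    calc δ ^ 2 * ((k:ℝ) + 2) ≤ (δ * ((k:ℝ) + 2)) ^ 2 := by
          rw [mul_pow]
          apply mul_le_mul_of_nonneg_left _ (by positivity)
          nlinarith
      _ ≤ _ := by
          apply pow_le_pow_left₀ (by positivity) this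
  rw [mul_div_assoc (2 * ((m:ℝ) + δ))]
  apply mul_le_mul_of_nonneg_left _ (by positivity)
  rw [add_div]
  linarith

theorem ga_nn (hm : 1 ≤ m) (hδ : 0 < δ) (k : ℕ) : 0 ≤ ga m δ k := by
  unfold ga
  have hm1 : (1:ℝ) ≤ m := by exact_mod_cast hm
  have := Ls_pos (m := m) hδ k
  have h2 : (0:ℝ) ≤ m * (m - 1) / Ls m δ k ^ 2 :=
    div_nonneg (mul_nonneg (by positivity) (by linarith)) (by positivity)
  have h3 : (0:ℝ) ≤ m / Ls m δ k := by positivity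
  positivity

theorem s_bd (hm : 1 ≤ m) (hδ : 0 < δ) :
    ∃ K : ℝ, 0 ≤ K ∧ ∀ k, EG m hδ k (Sf δ) ≤ K * P 1 k := by
  have k1 := kap_pos (m := m) hδ
  have k2 := kap_lt_one hm hδ
  obtain ⟨Kq, hKq, hq⟩ := q_bd hm hδ
  set G : ℝ := 2 * (m + δ) * (m / δ + m * (m - 1) / δ ^ 2) with hG
  refine growth (x := fun k => EG m hδ k (Sf δ)) (a := al m δ)
    (b := fun k => ga m δ k * EG m hδ k (Qf δ) + 2 * (m + δ) * m)
    (ρ := 1 - kap m δ / 2) (θ := 1) (K := G * Kq + 2 * (m + δ) * m) (by linarith) (by linarith)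
    (s_nn hm hδ) (fun k => ?_) (ev_of_tendsto (al_lim hδ) (by linarith)) ?_
  · exact ((s_rec hm hδ k).trans (add_assoc _ _ _)).le
  · intro k
    change _ ≤ _ * P (1 - 1) k
    rw [sub_self, P_zero, mul_one]
    have h1 := ga_le hm hδ k
    have h2 := hq k
    have h3 := mul_le_mul h1 h2 (q_nn hδ k) ((ga_nn hm hδ k).trans h1)
    have e : G / ((k:ℝ) + 2) * (Kq * P 1 k) = G * Kq := by
      rw [P_one]
      have := (nk_pos k).ne'
      field_simp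
    rw [e] at h3
    linarith

theorem c_bd (hm : 1 ≤ m) (hδ : 0 < δ) :
    ∃ K : ℝ, 0 ≤ K ∧ ∀ k, EG m hδ k (Cf δ) ≤ K * P (3/2) k := by
  have k1 := kap_pos (m := m) hδ
  have k2 := kap_lt_one hm hδ
  obtain ⟨Kq, hKq, hq⟩ := q_bd hm hδ
  refine growth (x := fun k => EG m hδ k (Cf δ)) (a := fun k => 1 + 3 * m / Ls m δ k)
    (b := fun k => 3 * m ^ 2 * EG m hδ k (Qf δ) / Ls m δ k + (m ^ 3 + (m + δ) ^ 3))
    (ρ := 3 / 2 * (1 - kap m δ / 2)) (θ := 3 / 2)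
    (K := 3 * m ^ 2 * Kq / δ + (m ^ 3 + (m + δ) ^ 3)) (by nlinarith) (by nlinarith)
    (c_nn hm hδ) (c_rec hm hδ) (ev_of_tendsto (lin_lim hδ 3) (by nlinarith)) ?_
  intro k
  change _ ≤ _ * P (3 / 2 - 1) k
  have hP : 1 ≤ P (3 / 2 - 1) k := (P_zero k).symm.le.trans (P_mono (by norm_num) k)
  have h1 : 3 * (m:ℝ) ^ 2 * EG m hδ k (Qf δ) / Ls m δ k ≤ 3 * m ^ 2 * Kq / δ := by
    have h0 : 0 ≤ 3 * (m:ℝ) ^ 2 * EG m hδ k (Qf δ) := mul_nonneg (by positivity) (q_nn hδ k)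
    refine (div_Ls_le hδ k h0).trans ?_
    rw [div_div, div_le_div_iff₀ (mul_pos hδ (nk_pos k)) hδ]
    have := hq k
    rw [P_one] at this
    have h3 : 3 * (m:ℝ) ^ 2 * EG m hδ k (Qf δ) ≤ 3 * m ^ 2 * (Kq * ((k:ℝ) + 2)) :=
      mul_le_mul_of_nonneg_left this (by positivity)
    calc 3 * (m:ℝ) ^ 2 * EG m hδ k (Qf δ) * δ ≤ 3 * m ^ 2 * (Kq * ((k:ℝ) + 2)) * δ :=
          mul_le_mul_of_nonneg_right h3 hδ.le
      _ = _ := by ring
  have h2 : 0 ≤ 3 * (m:ℝ) ^ 2 * Kq / δ + (m ^ 3 + (m + δ) ^ 3) := by positivity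
  nlinarith

theorem KR_nonneg (hδ : 0 < δ) {ε : ℝ} (hε : 0 < ε) : 0 ≤ KR m δ ε := by
  unfold KR; positivity

theorem r_bd (hm : 1 ≤ m) (hδ : 0 < δ) :
    ∃ K : ℝ, 0 ≤ K ∧ ∀ k, EG m hδ k (Rf δ) ≤ K * P (3/2) k := by
  have k1 := kap_pos (m := m) hδ
  have k2 := kap_lt_one hm hδ
  obtain ⟨Kq, hKq, hq⟩ := q_bd hm hδ
  obtain ⟨Kc, hKc, hc⟩ := c_bd hm hδ
  obtain ⟨Ks, hKs, hs⟩ := s_bd hm hδ
  have hε : 0 < kap m δ / 2 := by linarith
  have hKR := KR_nonneg (m := m) hδ hε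
  refine growth (x := fun k => EG m hδ k (Rf δ))
    (a := fun k => 1 + (3 + 2 * (kap m δ / 2)) * m / Ls m δ k)
    (b := fun k => KR m δ (kap m δ / 2)
      * ((EG m hδ k (Cf δ) + EG m hδ k (Sf δ) + EG m hδ k (Qf δ)) / Ls m δ k))
    (ρ := 3 / 2 - kap m δ / 2) (θ := 3 / 2)
    (K := KR m δ (kap m δ / 2) * ((Kc + Ks + Kq) / δ)) (by nlinarith) (by nlinarith)
    (r_nn hm hδ) (r_rec hm hδ hε) (ev_of_tendsto (lin_lim hδ _) (by nlinarith)) ?_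
  intro k
  change _ ≤ _ * P (3 / 2 - 1) k
  rw [mul_assoc]
  apply mul_le_mul_of_nonneg_left _ hKR
  have h0 : 0 ≤ EG m hδ k (Cf δ) + EG m hδ k (Sf δ) + EG m hδ k (Qf δ) :=
    add_nonneg (add_nonneg (c_nn hm hδ k) (s_nn hm hδ k)) (q_nn hδ k)
  refine (div_Ls_le hδ k h0).trans ?_
  have hP : P 1 k ≤ P (3/2) k := P_mono (by norm_num) k
  have h1 : EG m hδ k (Cf δ) + EG m hδ k (Sf δ) + EG m hδ k (Qf δ)
      ≤ (Kc + Ks + Kq) * P (3/2) k := by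
    have := hc k
    have := hs k
    have := hq k
    have := mul_le_mul_of_nonneg_left hP hKs
    have := mul_le_mul_of_nonneg_left hP hKq
    nlinarith
  rw [← P_div (3/2) k]
  have h2 : (EG m hδ k (Cf δ) + EG m hδ k (Sf δ) + EG m hδ k (Qf δ)) / δ
      ≤ (Kc + Ks + Kq) * P (3/2) k / δ := div_le_div_of_nonneg_right h1 hδ.le
  refine (div_le_div_of_nonneg_right h2 (nk_pos k).le).trans (le_of_eq ?_)
  ring

theorem u_bd (hm : 1 ≤ m) (hδ : 0 < δ) :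
    ∃ K : ℝ, 0 ≤ K ∧ ∀ k, EG m hδ k (Uf δ) ≤ K * P (1 - kap m δ / 4) k := by
  have k1 := kap_pos (m := m) hδ
  have k2 := kap_lt_one hm hδ
  obtain ⟨Kc, hKc, hc⟩ := c_bd hm hδ
  have hm1 : (1:ℝ) ≤ m := by exact_mod_cast hm
  have hc0 : 0 ≤ 4 * ((m:ℝ) + δ) * m * (m - 1) :=
    mul_nonneg (by positivity) (by linarith)
  refine growth (x := fun k => EG m hδ k (Uf δ)) (a := al m δ)
    (b := fun k => 4 * (m + δ) * m * (m - 1) * EG m hδ k (Cf δ) / Ls m δ k ^ 2)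
    (ρ := 1 - kap m δ / 2) (θ := 1 - kap m δ / 4)
    (K := 4 * (m + δ) * m * (m - 1) * Kc / δ ^ 2) (by linarith) (by linarith)
    (u_nn hm hδ) (u_rec hm hδ) (ev_of_tendsto (al_lim hδ) (by linarith)) ?_
  intro k
  change _ ≤ _ * P (1 - kap m δ / 4 - 1) k
  have hP : P (-(1/2)) k ≤ P (1 - kap m δ / 4 - 1) k := P_mono (by linarith) k
  have hK : 0 ≤ 4 * ((m:ℝ) + δ) * m * (m - 1) * Kc / δ ^ 2 :=
    div_nonneg (mul_nonneg hc0 hKc) (by positivity)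
  refine le_trans ?_ (mul_le_mul_of_nonneg_left hP hK)
  have h1 : 4 * ((m:ℝ) + δ) * m * (m - 1) * EG m hδ k (Cf δ)
      ≤ 4 * (m + δ) * m * (m - 1) * (Kc * P (3/2) k) := mul_le_mul_of_nonneg_left (hc k) hc0
  have h2 : (δ * ((k:ℝ) + 2)) ^ 2 ≤ Ls m δ k ^ 2 :=
    pow_le_pow_left₀ (mul_pos hδ (nk_pos k)).le (Ls_ge k) 2
  have h3 : 0 ≤ 4 * ((m:ℝ) + δ) * m * (m - 1) * EG m hδ k (Cf δ) := mul_nonneg hc0 (c_nn hm hδ k)
  have np := nk_pos k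
  calc 4 * ((m:ℝ) + δ) * m * (m - 1) * EG m hδ k (Cf δ) / Ls m δ k ^ 2
      ≤ 4 * ((m:ℝ) + δ) * m * (m - 1) * EG m hδ k (Cf δ) / (δ * ((k:ℝ) + 2)) ^ 2 :=
        div_le_div_of_nonneg_left h3 (by positivity) h2
    _ ≤ 4 * (m + δ) * m * (m - 1) * (Kc * P (3/2) k) / (δ * ((k:ℝ) + 2)) ^ 2 :=
        div_le_div_of_nonneg_right h1 (by positivity)
    _ = 4 * ((m:ℝ) + δ) * m * (m - 1) * Kc / δ ^ 2 * P (-(1/2)) k := by
        have e : P (-(1/2)) k = P (3/2) k / (((k:ℝ) + 2) * ((k:ℝ) + 2)) := by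
          rw [← div_div, P_div, P_div]
          norm_num
        rw [e]
        have := np.ne'
        field_simp

theorem vQ_bd (hm : 1 ≤ m) (hδ : 0 < δ) :
    ∃ K : ℝ, 0 ≤ K ∧ ∀ k, VG m hδ k (Qf δ) ≤ K * P (2 - kap m δ / 2) k := by
  have k1 := kap_pos (m := m) hδ
  have k2 := kap_lt_one hm hδ
  obtain ⟨Kc, hKc, hc⟩ := c_bd hm hδ
  refine growth (x := fun k => VG m hδ k (Qf δ)) (a := fun k => al m δ k ^ 2)
    (b := fun k => 9 * m ^ 2 * (EG m hδ k (Cf δ) / Ls m δ k))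
    (ρ := 2 - kap m δ) (θ := 2 - kap m δ / 2)
    (K := 9 * m ^ 2 * (Kc / δ)) (by linarith) (by linarith)
    (fun k => VG_nonneg hδ k _) (vQ_rec hm hδ) (ev_of_tendsto (al2_lim hδ) (by linarith)) ?_
  intro k
  change _ ≤ _ * P (2 - kap m δ / 2 - 1) k
  rw [mul_assoc (9 * (m:ℝ) ^ 2)]
  apply mul_le_mul_of_nonneg_left _ (by positivity)
  refine (div_Ls_le hδ k (c_nn hm hδ k)).trans ?_
  have hP : P (1/2) k ≤ P (2 - kap m δ / 2 - 1) k := P_mono (by linarith) k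
  refine le_trans ?_ (mul_le_mul_of_nonneg_left hP (by positivity : 0 ≤ Kc / δ))
  have h2 : EG m hδ k (Cf δ) / δ ≤ Kc * P (3/2) k / δ := div_le_div_of_nonneg_right (hc k) hδ.le
  refine (div_le_div_of_nonneg_right h2 (nk_pos k).le).trans (le_of_eq ?_)
  have e : P (1/2) k = P (3/2) k / ((k:ℝ) + 2) := by rw [P_div]; norm_num
  rw [e]
  ring

theorem vS_bd (hm : 1 ≤ m) (hδ : 0 < δ) :
    ∃ K : ℝ, 0 ≤ K ∧ ∀ k, VG m hδ k (Sf δ) ≤ K * P (2 - kap m δ / 2) k := by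
  have k1 := kap_pos (m := m) hδ
  have k2 := kap_lt_one hm hδ
  have hm1 : (1:ℝ) ≤ m := by exact_mod_cast hm
  obtain ⟨Kr, hKr, hr⟩ := r_bd hm hδ
  obtain ⟨Kv, hKv, hv⟩ := vQ_bd hm hδ
  set G : ℝ := 2 * (m + δ) * (m / δ + m * (m - 1) / δ ^ 2) with hG
  have hG0 : 0 ≤ G := by
    have : 0 ≤ (m:ℝ) * (m - 1) / δ ^ 2 :=
      div_nonneg (mul_nonneg (by positivity) (by linarith)) (by positivity)
    rw [hG]; positivity
  set A : ℝ := (3 + 4 * (m + δ)) ^ 2 * m ^ 2 with hA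
  have hA0 : 0 ≤ A := by rw [hA]; positivity
  refine growth (x := fun k => VG m hδ k (Sf δ)) (a := fun k => (1 + tk m δ k) * al m δ k ^ 2)
    (b := fun k => (1 + 1 / tk m δ k) * ga m δ k ^ 2 * VG m hδ k (Qf δ)
        + A * (EG m hδ k (Rf δ) / Ls m δ k))
    (ρ := 2 - kap m δ) (θ := 2 - kap m δ / 2)
    (K := (1 + 4 / kap m δ) * G ^ 2 * Kv + A * (Kr / δ)) (by linarith) (by linarith)
    (fun k => VG_nonneg hδ k _) (fun k => vS_rec hm hδ k (tk_pos hδ k))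
    (ev_of_tendsto (tal_lim hδ) (by linarith)) ?_
  intro k
  change _ ≤ _ * P (2 - kap m δ / 2 - 1) k
  rw [add_mul ((1 + 4 / kap m δ) * G ^ 2 * Kv)]
  apply add_le_add
  · have n1 := nk_one k
    have np := nk_pos k
    have h1 : 1 + 1 / tk m δ k ≤ (1 + 4 / kap m δ) * ((k:ℝ) + 2) := by
      have e : 1 / tk m δ k = (4 / kap m δ) * ((k:ℝ) + 2) := by
        unfold tk
        field_simp
      rw [e, add_mul]
      linarith
    have h2 : ga m δ k ^ 2 ≤ (G / ((k:ℝ) + 2)) ^ 2 :=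
      pow_le_pow_left₀ (ga_nn hm hδ k) (ga_le hm hδ k) 2
    have h3 := hv k
    have t0 := tk_pos (m := m) hδ k
    have h4 : 0 ≤ 1 + 1 / tk m δ k := by positivity
    calc (1 + 1 / tk m δ k) * ga m δ k ^ 2 * VG m hδ k (Qf δ)
        ≤ (1 + 4 / kap m δ) * ((k:ℝ) + 2) * (G / ((k:ℝ) + 2)) ^ 2
            * (Kv * P (2 - kap m δ / 2) k) := by
          apply mul_le_mul _ h3 (VG_nonneg hδ k _) (by positivity)
          exact mul_le_mul h1 h2 (sq_nonneg _) (by positivity)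
      _ = (1 + 4 / kap m δ) * G ^ 2 * Kv * (P (2 - kap m δ / 2) k / ((k:ℝ) + 2)) := by
          have := np.ne'
          field_simp
      _ = _ := by rw [P_div]
  · rw [mul_assoc A]
    apply mul_le_mul_of_nonneg_left _ hA0
    refine (div_Ls_le hδ k (r_nn hm hδ k)).trans ?_
    have hP : P (1/2) k ≤ P (2 - kap m δ / 2 - 1) k := P_mono (by linarith) k
    refine le_trans ?_ (mul_le_mul_of_nonneg_left hP (by positivity : 0 ≤ Kr / δ))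
    have h2 : EG m hδ k (Rf δ) / δ ≤ Kr * P (3/2) k / δ := div_le_div_of_nonneg_right (hr k) hδ.le
    refine (div_le_div_of_nonneg_right h2 (nk_pos k).le).trans (le_of_eq ?_)
    have e : P (1/2) k = P (3/2) k / ((k:ℝ) + 2) := by rw [P_div]; norm_num
    rw [e]
    ring

end MP751612
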