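import Mathlib

/-!
# MP_751612_pr: instantaneous linear preferential attachment, triangle counts

Vertices are numbered `0, 1, 2, …` (the problem's vertex `i` is our vertex `i-1`).
`Hist m k` is the set of all possible sequences of endpoint choices when the vertices
`2, 3, …, k+1` are added to `G_2`; so an element of `Hist m k` determines the multigraph on
the `k+2` vertices `0, …, k+1`, i.e. the problem's `G_n` with `n = k+2`.
-/

open MeasureTheory ProbabilityTheory
open scoped ENNReal NNReal BigOperators

namespace MP751612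

/-- A multigraph on a set of natural numbers, given by its multiplicities: `M a b` is the number
of edges joining `a` and `b`. -/
abbrev MGraph := ℕ → ℕ → ℕ

/-- The degree of `v` in a multigraph with vertex set `{0, …, n-1}`. -/
def deg (n : ℕ) (M : MGraph) (v : ℕ) : ℕ := ∑ b ∈ Finset.range n, M v b

/-- The initial multigraph `G_2`: two vertices joined by `m` parallel edges. -/
def start (m : ℕ) : MGraph := fun a b => if (a = 0 ∧ b = 1) ∨ (a = 1 ∧ b = 0) then m else 0

/-- Add the new vertex `n` to a multigraph on `{0, …, n-1}` together with `m` edges, the `l`-th of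
which joins `n` to `f l < n`. -/
def attach {m : ℕ} (n : ℕ) (M : MGraph) (f : Fin m → Fin n) : MGraph := fun a b =>
  M a b + (Finset.univ.filter fun l : Fin m =>
    (a = n ∧ b = (f l : ℕ)) ∨ (b = n ∧ a = (f l : ℕ))).card

/-- All sequences of endpoint choices for the vertices `2, …, k+1`. -/
def Hist (m : ℕ) : ℕ → Type
  | 0 => Unit
  | k + 1 => Hist m k × (Fin m → Fin (k + 2))

/-- The multigraph on `{0, …, k+1}` produced by a sequence of choices. -/
def graph (m : ℕ) : (k : ℕ) → Hist m k → MGraph
  | 0, _ => start m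
  | k + 1, ω => attach (k + 2) (graph m k ω.1) ω.2

/-- The probability that a given edge of the new vertex `n` joins it to `v < n`, given the
multigraph `M` on `{0, …, n-1}` (for the problem's vertex `k` we have `n = k - 1`, so that the
denominator is `2m(k-2) + (k-1)δ`). -/
noncomputable def prob (m : ℕ) (δ : ℝ) (n : ℕ) (M : MGraph) (v : ℕ) : ℝ :=
  ((deg n M v : ℝ) + δ) / (2 * m * ((n : ℝ) - 1) + n * δ)

/-! ### elementary facts needed to see that `prob` is a probability vector -/

theorem graph_supp (m : ℕ) : ∀ (k : ℕ) (ω : Hist m k) (a b : ℕ), k + 2 ≤ a →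
    graph m k ω a b = 0 ∧ graph m k ω b a = 0 := by
  intro k
  induction k with
  | zero =>
    intro ω a b h
    constructor
    · simp only [graph, start]
      rw [if_neg]; omega
    · simp only [graph, start]
      rw [if_neg]; omega
  | succ k ih =>
    intro ω a b h
    have h1 := ih ω.1 a b (by omega)
    have hlt : ∀ l, ((ω.2 l : Fin (k+2)) : ℕ) < k + 2 := fun l => (ω.2 l).2
    constructor
    · simp only [graph, attach]
      rw [h1.1, zero_add, Finset.card_eq_zero, Finset.filter_eq_empty_iff]
      intro l _ hh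
      have := hlt l
      omega
    · simp only [graph, attach]
      rw [h1.2, zero_add, Finset.card_eq_zero, Finset.filter_eq_empty_iff]
      intro l _ hh
      have := hlt l
      omega

/-- number of edges of the new vertex attached to `v` -/
def cnt {m n : ℕ} (f : Fin m → Fin n) (v : ℕ) : ℕ :=
  (Finset.univ.filter fun l : Fin m => (f l : ℕ) = v).card

theorem attach_lt {m n : ℕ} (M : MGraph) (f : Fin m → Fin n) {a b : ℕ} (ha : a < n) (hb : b < n) :
    attach n M f a b = M a b := by
  unfold attach
  rw [Finset.filter_eq_empty_iff.mpr, Finset.card_empty, add_zero]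
  intro l _ hh
  omega

theorem attach_new {m n : ℕ} (M : MGraph) (f : Fin m → Fin n) {a : ℕ} (ha : a < n)
    (h0 : M a n = 0) : attach n M f a n = cnt f a := by
  unfold attach cnt
  rw [h0, zero_add]
  congr 1
  ext l
  simp only [Finset.mem_filter, Finset.mem_univ, true_and]
  constructor
  · rintro (h | h)
    · omega
    · exact h.symm
  · intro h
    exact Or.inr h.symm

theorem attach_new' {m n : ℕ} (M : MGraph) (f : Fin m → Fin n) {a : ℕ} (ha : a < n)
    (h0 : M n a = 0) : attach n M f n a = cnt f a := by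
  unfold attach cnt
  rw [h0, zero_add]
  congr 1
  ext l
  simp only [Finset.mem_filter, Finset.mem_univ, true_and]
  constructor
  · rintro (h | h)
    · exact h.symm
    · omega
  · intro h
    exact Or.inl h.symm

theorem attach_self {m n : ℕ} (M : MGraph) (f : Fin m → Fin n) (h0 : M n n = 0) :
    attach n M f n n = 0 := by
  unfold attach
  rw [h0, zero_add, Finset.card_eq_zero, Finset.filter_eq_empty_iff]
  intro l _ hh
  have := (f l).2
  omega

theorem sum_cnt {m n : ℕ} (f : Fin m → Fin n) : ∑ v ∈ Finset.range n, cnt f v = m := by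
  unfold cnt
  have := Finset.card_eq_sum_card_fiberwise (s := (Finset.univ : Finset (Fin m)))
    (t := Finset.range n) (f := fun l => (f l : ℕ)) (fun l _ => by simp)
  rw [Finset.card_univ, Fintype.card_fin] at this
  exact this.symm

theorem sum_deg (m : ℕ) : ∀ (k : ℕ) (ω : Hist m k),
    ∑ v ∈ Finset.range (k + 2), deg (k + 2) (graph m k ω) v = 2 * m * (k + 1) := by
  intro k
  induction k with
  | zero =>
    intro ω
    simp [deg, graph, start, Finset.sum_range_succ]
    ring
  | succ k ih =>
    intro ω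
    have hz := fun a b h => graph_supp m k ω.1 a b h
    have h1 : ∀ v ∈ Finset.range (k + 2), deg (k + 1 + 2) (graph m (k+1) ω) v =
        deg (k + 2) (graph m k ω.1) v + cnt ω.2 v := by
      intro v hv
      have hv' := Finset.mem_range.mp hv
      unfold deg
      rw [show k + 1 + 2 = (k + 2) + 1 from rfl, Finset.sum_range_succ]
      congr 1
      · apply Finset.sum_congr rfl
        intro b hb
        exact attach_lt _ _ hv' (Finset.mem_range.mp hb)
      · exact attach_new _ _ hv' (hz (k+2) v le_rfl).2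
    have h2 : deg (k + 1 + 2) (graph m (k+1) ω) (k + 2) = m := by
      unfold deg
      rw [show k + 1 + 2 = (k + 2) + 1 from rfl, Finset.sum_range_succ]
      have : graph m (k+1) ω (k+2) (k+2) = 0 := attach_self _ _ (hz (k+2) (k+2) le_rfl).1
      rw [this, add_zero]
      refine Eq.trans (Finset.sum_congr rfl ?_) (sum_cnt ω.2)
      intro b hb
      exact attach_new' _ _ (Finset.mem_range.mp hb) (hz (k+2) b le_rfl).1
    rw [show k + 1 + 2 = (k + 2) + 1 from rfl, Finset.sum_range_succ,
      Finset.sum_congr rfl h1, Finset.sum_add_distrib, ih ω.1, sum_cnt]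
    rw [show (k + 2) + 1 = k + 1 + 2 from rfl, h2]
    ring

theorem denom_pos (m : ℕ) {δ : ℝ} (hδ : 0 < δ) (k : ℕ) :
    0 < 2 * (m : ℝ) * (((k + 2 : ℕ) : ℝ) - 1) + ((k + 2 : ℕ) : ℝ) * δ := by
  have : (0:ℝ) ≤ 2 * (m : ℝ) * (((k + 2 : ℕ) : ℝ) - 1) := by
    apply mul_nonneg (by positivity)
    push_cast
    linarith [(Nat.cast_nonneg k : (0:ℝ) ≤ k)]
  have h2 : 0 < ((k + 2 : ℕ) : ℝ) * δ := by positivity
  linarith

theorem prob_nonneg (m : ℕ) {δ : ℝ} (hδ : 0 < δ) (k : ℕ) (M : MGraph) (v : ℕ) :
    0 ≤ prob m δ (k + 2) M v := by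
  unfold prob
  apply div_nonneg (by positivity) (denom_pos m hδ k).le

theorem sum_prob (m : ℕ) {δ : ℝ} (hδ : 0 < δ) (k : ℕ) (ω : Hist m k) :
    ∑ v : Fin (k + 2), prob m δ (k + 2) (graph m k ω) v = 1 := by
  rw [Fin.sum_univ_eq_sum_range (fun v => prob m δ (k + 2) (graph m k ω) v) (k + 2)]
  unfold prob
  rw [← Finset.sum_div, div_eq_one_iff_eq (denom_pos m hδ k).ne', Finset.sum_add_distrib]
  have := sum_deg m k ω
  have h2 : ∑ v ∈ Finset.range (k + 2), ((deg (k + 2) (graph m k ω) v : ℕ) : ℝ)
      = 2 * m * (k + 1) := by exact_mod_cast this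
  rw [h2]
  simp only [Finset.sum_const, Finset.card_range, nsmul_eq_mul]
  push_cast
  ring

/-- The law of the `m` endpoints of the next vertex, given the past: the endpoints are independent,
each of them equal to `v` with probability `prob m δ (k+2) (graph m k ω) v`. -/
noncomputable def stepLaw (m : ℕ) {δ : ℝ} (hδ : 0 < δ) (k : ℕ) (ω : Hist m k) :
    PMF (Fin m → Fin (k + 2)) :=
  PMF.ofFintype (fun f => ∏ l, ENNReal.ofReal (prob m δ (k + 2) (graph m k ω) (f l))) (by
    have h := Finset.prod_univ_sum (ι := Fin m) (κ := fun _ => Fin (k + 2))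
      (fun _ => Finset.univ)
      (fun _ v => ENNReal.ofReal (prob m δ (k + 2) (graph m k ω) v))
    rw [Fintype.piFinset_univ] at h
    rw [← h]
    apply Finset.prod_eq_one
    intro l _
    rw [← ENNReal.ofReal_sum_of_nonneg (fun v _ => prob_nonneg m hδ k _ _), sum_prob m hδ k ω,
      ENNReal.ofReal_one])

/-- The law of the history, i.e. of the process `G_2, G_3, …, G_{k+2}`. -/
noncomputable def histLaw (m : ℕ) {δ : ℝ} (hδ : 0 < δ) : (k : ℕ) → PMF (Hist m k)
  | 0 => PMF.pure ()
  | k + 1 => (histLaw m hδ k).bind fun ω => (stepLaw m hδ k ω).map fun f => (ω, f)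

/-- The number of triangles, counted with multiplicity, of a multigraph on `{0, …, n-1}`:
the sum over `a < b < c < n` of the products of the three multiplicities. -/
def triangles (n : ℕ) (M : MGraph) : ℕ :=
  ∑ c ∈ Finset.range n, ∑ b ∈ Finset.range c, ∑ a ∈ Finset.range b, M a b * M b c * M a c

/-- The law of the triangle count `T_n` of the random multigraph `G_n` on `n = k + 2` vertices. -/
noncomputable def triLaw (m : ℕ) {δ : ℝ} (hδ : 0 < δ) (k : ℕ) : PMF ℕ :=
  (histLaw m hδ k).map fun ω => triangles (k + 2) (graph m k ω)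

/-- `E T_n`. -/
noncomputable def meanT (m : ℕ) {δ : ℝ} (hδ : 0 < δ) (k : ℕ) : ℝ :=
  ∫ t : ℕ, (t : ℝ) ∂(triLaw m hδ k).toMeasure

/-- `Var(T_n)`. -/
noncomputable def varT (m : ℕ) {δ : ℝ} (hδ : 0 < δ) (k : ℕ) : ℝ :=
  Var[fun t : ℕ => (t : ℝ); (triLaw m hδ k).toMeasure]

/-- The law of `(T_n - E T_n)/√Var(T_n)`. -/
noncomputable def normLaw (m : ℕ) {δ : ℝ} (hδ : 0 < δ) (k : ℕ) : Measure ℝ :=
  ((triLaw m hδ k).toMeasure).map fun t : ℕ => ((t : ℝ) - meanT m hδ k) / √(varT m hδ k)

/-- The Wasserstein distance `sup |∫ h dμ - ∫ h dν|` over the 1-Lipschitz functions `h`. -/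
noncomputable def dW (μ ν : Measure ℝ) : ℝ≥0∞ :=
  ⨆ (h : ℝ → ℝ) (_ : LipschitzWith 1 h), ENNReal.ofReal |∫ x, h x ∂μ - ∫ x, h x ∂ν|

end MP751612
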