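import Mathlib

/-! Expectations under a product law on `Fin m → V` with `V` finite. -/

open scoped BigOperators

set_option linter.unusedSectionVars false

namespace MP751612

variable {m : ℕ} {V : Type*} [Fintype V] [DecidableEq V]

/-- expectation of `g (f)` when the `f l` are independent with law `p`. -/
def SE (p : V → ℝ) (g : (Fin m → V) → ℝ) : ℝ := ∑ f : Fin m → V, (∏ l, p (f l)) * g f

theorem SE_add (p : V → ℝ) (g h : (Fin m → V) → ℝ) :
    SE p (fun f => g f + h f) = SE p g + SE p h := by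
  unfold SE; rw [← Finset.sum_add_distrib]; simp only [mul_add]

theorem SE_sub (p : V → ℝ) (g h : (Fin m → V) → ℝ) :
    SE p (fun f => g f - h f) = SE p g - SE p h := by
  unfold SE; rw [← Finset.sum_sub_distrib]; simp only [mul_sub]

theorem SE_mul_left (p : V → ℝ) (c : ℝ) (g : (Fin m → V) → ℝ) :
    SE p (fun f => c * g f) = c * SE p g := by
  unfold SE; rw [Finset.mul_sum]
  exact Finset.sum_congr rfl fun f _ => by ring

theorem SE_sum {ι : Type*} (p : V → ℝ) (s : Finset ι) (g : ι → (Fin m → V) → ℝ) :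
    SE p (fun f => ∑ i ∈ s, g i f) = ∑ i ∈ s, SE p (g i) := by
  unfold SE; rw [Finset.sum_comm]
  exact Finset.sum_congr rfl fun f _ => by rw [Finset.mul_sum]

theorem SE_one {p : V → ℝ} (hp : ∑ v, p v = 1) :
    ∑ f : Fin m → V, (∏ l, p (f l)) = 1 := by
  have h := Finset.prod_univ_sum (ι := Fin m) (κ := fun _ => V)
    (fun _ => Finset.univ) (fun _ v => p v)
  rw [Fintype.piFinset_univ] at h
  rw [← h]
  exact Finset.prod_eq_one fun l _ => hp

theorem SE_const {p : V → ℝ} (hp : ∑ v, p v = 1) (c : ℝ) :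
    SE p (fun _ : Fin m → V => c) = c := by
  unfold SE; rw [← Finset.sum_mul, SE_one hp, one_mul]

theorem SE_mono {p : V → ℝ} (hp0 : ∀ v, 0 ≤ p v) {g h : (Fin m → V) → ℝ} (H : ∀ f, g f ≤ h f) :
    SE p g ≤ SE p h := by
  unfold SE
  exact Finset.sum_le_sum fun f _ =>
    mul_le_mul_of_nonneg_left (H f) (Finset.prod_nonneg fun l _ => hp0 _)

theorem SE_nonneg {p : V → ℝ} (hp0 : ∀ v, 0 ≤ p v) {g : (Fin m → V) → ℝ} (H : ∀ f, 0 ≤ g f) :
    0 ≤ SE p g := by
  unfold SE
  exact Finset.sum_nonneg fun f _ => mul_nonneg (Finset.prod_nonneg fun l _ => hp0 _) (H f)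

theorem SE_abs_le {p : V → ℝ} (hp0 : ∀ v, 0 ≤ p v) (g : (Fin m → V) → ℝ) :
    |SE p g| ≤ SE p (fun f => |g f|) := by
  unfold SE
  refine (Finset.abs_sum_le_sum_abs _ _).trans (le_of_eq ?_)
  refine Finset.sum_congr rfl fun f _ => ?_
  rw [abs_mul, abs_of_nonneg (Finset.prod_nonneg fun l _ => hp0 _)]

theorem SE_congr {p : V → ℝ} {g h : (Fin m → V) → ℝ} (H : ∀ f, g f = h f) : SE p g = SE p h := by
  unfold SE; exact Finset.sum_congr rfl fun f _ => by rw [H f]

/-- resampling the `i`-th coordinate does not change the expectation. -/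
theorem SE_resample {p : V → ℝ} (hp : ∑ v, p v = 1) (i : Fin m) (g : (Fin m → V) → ℝ) :
    SE p g = SE p (fun f => ∑ v, p v * g (Function.update f i v)) := by
  unfold SE
  have h1 : ∑ f : Fin m → V, (∏ l, p (f l)) * g f
      = ∑ x : (Fin m → V) × V, (∏ l, p (x.1 l)) * p x.2 * g x.1 := by
    rw [Fintype.sum_prod_type]
    refine Finset.sum_congr rfl fun f _ => ?_
    simp only
    rw [← Finset.sum_mul, ← Finset.mul_sum, hp, mul_one]
  have h2 : ∑ f : Fin m → V, (∏ l, p (f l)) * ∑ v, p v * g (Function.update f i v)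
      = ∑ x : (Fin m → V) × V, (∏ l, p (x.1 l)) * p x.2 * g (Function.update x.1 i x.2) := by
    rw [Fintype.sum_prod_type]
    refine Finset.sum_congr rfl fun f _ => ?_
    simp only
    rw [Finset.mul_sum]
    exact Finset.sum_congr rfl fun v _ => by ring
  rw [h1, h2]
  -- the involution
  let φ : (Fin m → V) × V → (Fin m → V) × V := fun x => (Function.update x.1 i x.2, x.1 i)
  have hφ : Function.Involutive φ := by
    intro x
    simp only [φ, Function.update_idem, Function.update_self, Function.update_eq_self]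
  have h3 := Equiv.sum_comp hφ.toPerm
    (fun x : (Fin m → V) × V => (∏ l, p (x.1 l)) * p x.2 * g x.1)
  rw [← h3]
  refine Finset.sum_congr rfl fun x _ => ?_
  simp only [Function.Involutive.coe_toPerm, φ]
  congr 1
  have h4 : ∏ l, p (Function.update x.1 i x.2 l) = p x.2 * ∏ l ∈ Finset.univ.erase i, p (x.1 l) := by
    rw [← Finset.mul_prod_erase Finset.univ _ (Finset.mem_univ i), Function.update_self]
    congr 1
    exact Finset.prod_congr rfl fun l hl => by
      rw [Function.update_of_ne (Finset.ne_of_mem_erase hl)]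
  rw [h4, ← Finset.mul_prod_erase Finset.univ _ (Finset.mem_univ i)]
  ring

theorem SE1 {p : V → ℝ} (hp : ∑ v, p v = 1) (i : Fin m) (g : V → ℝ) :
    SE p (fun f => g (f i)) = ∑ v, p v * g v := by
  rw [SE_resample hp i]
  simp only [Function.update_self]
  exact SE_const hp _

theorem SE2 {p : V → ℝ} (hp : ∑ v, p v = 1) {i j : Fin m} (hij : i ≠ j) (g : V → V → ℝ) :
    SE p (fun f => g (f i) (f j)) = ∑ a, ∑ b, p a * p b * g a b := by
  rw [SE_resample hp i]
  simp only [Function.update_self, Function.update_of_ne hij.symm]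
  rw [SE1 hp j (fun b => ∑ a, p a * g a b)]
  simp only [Finset.mul_sum]
  rw [Finset.sum_comm]
  exact Finset.sum_congr rfl fun a _ => Finset.sum_congr rfl fun b _ => by ring

theorem SE3 {p : V → ℝ} (hp : ∑ v, p v = 1) {i j k : Fin m} (hij : i ≠ j) (hik : i ≠ k)
    (hjk : j ≠ k) (g : V → V → V → ℝ) :
    SE p (fun f => g (f i) (f j) (f k)) = ∑ a, ∑ b, ∑ c, p a * p b * p c * g a b c := by
  rw [SE_resample hp i]
  simp only [Function.update_self, Function.update_of_ne hij.symm, Function.update_of_ne hik.symm]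
  rw [SE2 hp hjk (fun b c => ∑ a, p a * g a b c)]
  simp only [Finset.mul_sum]
  rw [Finset.sum_comm]
  have : ∀ b, ∑ c, ∑ a, p c * p b * (p a * g a c b) = ∑ a, ∑ c, p c * p b * (p a * g a c b) :=
    fun b => Finset.sum_comm
  simp only [this]
  rw [Finset.sum_comm]
  refine Finset.sum_congr rfl fun a _ => ?_
  rw [Finset.sum_comm]
  refine Finset.sum_congr rfl fun b _ => Finset.sum_congr rfl fun c _ => by ring

theorem SE4 {p : V → ℝ} (hp : ∑ v, p v = 1) {i j k l : Fin m} (hij : i ≠ j) (hik : i ≠ k)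
    (hil : i ≠ l) (hjk : j ≠ k) (hjl : j ≠ l) (hkl : k ≠ l) (g h : V → V → ℝ) :
    SE p (fun f => g (f i) (f j) * h (f k) (f l))
      = (∑ a, ∑ b, p a * p b * g a b) * (∑ a, ∑ b, p a * p b * h a b) := by
  rw [SE_resample hp i]
  simp only [Function.update_self, Function.update_of_ne hij.symm, Function.update_of_ne hik.symm,
    Function.update_of_ne hil.symm]
  rw [SE_resample hp j]
  simp only [Function.update_self, Function.update_of_ne hjk.symm, Function.update_of_ne hjl.symm]
  have h1 : ∀ f : Fin m → V, ∑ b, p b * ∑ a, p a * (g a b * h (f k) (f l))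
      = (∑ a, ∑ b, p a * p b * g a b) * h (f k) (f l) := by
    intro f
    rw [Finset.sum_comm, Finset.sum_mul]
    refine Finset.sum_congr rfl fun b _ => ?_
    rw [Finset.mul_sum, Finset.sum_mul]
    exact Finset.sum_congr rfl fun a _ => by ring
  rw [SE_congr h1, SE_mul_left, SE2 hp hkl]

end MP751612
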