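import Pool.Agent.Lib.MP_751612_pr.Defs
import Pool.Agent.Lib.MP_751612_pr.StepExp

/-! Expectations with respect to the law of the history. -/

open MeasureTheory ProbabilityTheory
open scoped ENNReal NNReal BigOperators

namespace MP751612

instance instFintypeHist (m : ℕ) : ∀ k, Fintype (Hist m k)
  | 0 => inferInstanceAs (Fintype Unit)
  | k + 1 => by
      haveI := instFintypeHist m k
      exact inferInstanceAs (Fintype (Hist m k × (Fin m → Fin (k + 2))))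

/-- the probability vector of the next endpoint -/
noncomputable def pp (m : ℕ) (δ : ℝ) (k : ℕ) (ω : Hist m k) : Fin (k + 2) → ℝ :=
  fun v => prob m δ (k + 2) (graph m k ω) v

theorem pp_nonneg (m : ℕ) {δ : ℝ} (hδ : 0 < δ) (k : ℕ) (ω : Hist m k) (v : Fin (k + 2)) :
    0 ≤ pp m δ k ω v := prob_nonneg m hδ k _ _

theorem pp_sum (m : ℕ) {δ : ℝ} (hδ : 0 < δ) (k : ℕ) (ω : Hist m k) :
    ∑ v, pp m δ k ω v = 1 := sum_prob m hδ k ω

/-- expectation of a function of the history. -/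
noncomputable def Ex (m : ℕ) {δ : ℝ} (hδ : 0 < δ) (k : ℕ) (F : Hist m k → ℝ) : ℝ :=
  ∑ ω, (histLaw m hδ k ω).toReal * F ω

theorem histLaw_succ_apply (m : ℕ) {δ : ℝ} (hδ : 0 < δ) (k : ℕ) (ω : Hist m k)
    (f : Fin m → Fin (k + 2)) :
    histLaw m hδ (k + 1) (ω, f) = histLaw m hδ k ω * stepLaw m hδ k ω f := by
  classical
  change ((histLaw m hδ k).bind fun ω => (stepLaw m hδ k ω).map fun f => (ω, f)) (ω, f) = _
  rw [PMF.bind_apply, tsum_fintype, Finset.sum_eq_single ω]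
  · congr 1
    rw [PMF.map_apply, tsum_fintype, Finset.sum_eq_single f]
    · simp
    · intro b _ hb
      rw [if_neg]
      intro h
      exact hb (Prod.ext_iff.mp h).2.symm
    · intro h; exact absurd (Finset.mem_univ _) h
  · intro b _ hb
    rw [PMF.map_apply, ENNReal.tsum_eq_zero.mpr, mul_zero]
    intro g
    rw [if_neg]
    intro h
    exact hb (Prod.ext_iff.mp h).1.symm
  · intro h; exact absurd (Finset.mem_univ _) h

theorem stepLaw_toReal (m : ℕ) {δ : ℝ} (hδ : 0 < δ) (k : ℕ) (ω : Hist m k)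
    (f : Fin m → Fin (k + 2)) :
    (stepLaw m hδ k ω f).toReal = ∏ l, pp m δ k ω (f l) := by
  unfold stepLaw
  rw [PMF.ofFintype_apply, ENNReal.toReal_prod]
  exact Finset.prod_congr rfl fun l _ => ENNReal.toReal_ofReal (prob_nonneg m hδ k _ _)

/-- the empty history -/
def emptyHist (m : ℕ) : Hist m 0 := ()

theorem Ex_zero (m : ℕ) {δ : ℝ} (hδ : 0 < δ) (F : Hist m 0 → ℝ) :
    Ex m hδ 0 F = F (emptyHist m) := by
  unfold Ex
  change ∑ ω : Unit, ((PMF.pure ()) ω).toReal * F ω = F (emptyHist m)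
  rw [Fintype.sum_unique]
  have : ((PMF.pure () : PMF Unit) default).toReal = 1 := by simp
  rw [this, one_mul]
  rfl

theorem Ex_succ (m : ℕ) {δ : ℝ} (hδ : 0 < δ) (k : ℕ) (F : Hist m (k + 1) → ℝ) :
    Ex m hδ (k + 1) F = Ex m hδ k (fun ω => SE (pp m δ k ω) (fun f => F (ω, f))) := by
  unfold Ex SE
  have : ∑ ω : Hist m (k+1), (histLaw m hδ (k+1) ω).toReal * F ω
      = ∑ x : Hist m k × (Fin m → Fin (k + 2)), (histLaw m hδ (k+1) (x.1, x.2)).toReal * F (x.1, x.2) := by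
    exact rfl
  rw [this, Fintype.sum_prod_type]
  refine Finset.sum_congr rfl fun ω _ => ?_
  rw [Finset.mul_sum]
  refine Finset.sum_congr rfl fun f _ => ?_
  simp only
  rw [histLaw_succ_apply, ENNReal.toReal_mul, stepLaw_toReal]
  ring

theorem Ex_add (m : ℕ) {δ : ℝ} (hδ : 0 < δ) (k : ℕ) (F G : Hist m k → ℝ) :
    Ex m hδ k (fun ω => F ω + G ω) = Ex m hδ k F + Ex m hδ k G := by
  unfold Ex; rw [← Finset.sum_add_distrib]; simp only [mul_add]

theorem Ex_sub (m : ℕ) {δ : ℝ} (hδ : 0 < δ) (k : ℕ) (F G : Hist m k → ℝ) :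
    Ex m hδ k (fun ω => F ω - G ω) = Ex m hδ k F - Ex m hδ k G := by
  unfold Ex; rw [← Finset.sum_sub_distrib]; simp only [mul_sub]

theorem Ex_mul_left (m : ℕ) {δ : ℝ} (hδ : 0 < δ) (k : ℕ) (c : ℝ) (F : Hist m k → ℝ) :
    Ex m hδ k (fun ω => c * F ω) = c * Ex m hδ k F := by
  unfold Ex; rw [Finset.mul_sum]
  exact Finset.sum_congr rfl fun _ _ => by ring

theorem Ex_const (m : ℕ) {δ : ℝ} (hδ : 0 < δ) (k : ℕ) (c : ℝ) :
    Ex m hδ k (fun _ => c) = c := by
  unfold Ex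
  rw [← Finset.sum_mul]
  have h : ∑ ω, (histLaw m hδ k ω).toReal = 1 := by
    rw [← ENNReal.toReal_sum (fun ω _ => (histLaw m hδ k).apply_ne_top ω)]
    have := (histLaw m hδ k).tsum_coe
    rw [tsum_fintype] at this
    rw [this]; rfl
  rw [h, one_mul]

theorem Ex_mono (m : ℕ) {δ : ℝ} (hδ : 0 < δ) (k : ℕ) {F G : Hist m k → ℝ} (H : ∀ ω, F ω ≤ G ω) :
    Ex m hδ k F ≤ Ex m hδ k G := by
  unfold Ex
  exact Finset.sum_le_sum fun ω _ => mul_le_mul_of_nonneg_left (H ω) ENNReal.toReal_nonneg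

theorem Ex_nonneg (m : ℕ) {δ : ℝ} (hδ : 0 < δ) (k : ℕ) {F : Hist m k → ℝ} (H : ∀ ω, 0 ≤ F ω) :
    0 ≤ Ex m hδ k F := by
  unfold Ex
  exact Finset.sum_nonneg fun ω _ => mul_nonneg ENNReal.toReal_nonneg (H ω)

theorem Ex_congr (m : ℕ) {δ : ℝ} (hδ : 0 < δ) (k : ℕ) {F G : Hist m k → ℝ} (H : ∀ ω, F ω = G ω) :
    Ex m hδ k F = Ex m hδ k G := by
  unfold Ex; exact Finset.sum_congr rfl fun ω _ => by rw [H ω]

theorem Ex_abs_le (m : ℕ) {δ : ℝ} (hδ : 0 < δ) (k : ℕ) (F : Hist m k → ℝ) :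
    |Ex m hδ k F| ≤ Ex m hδ k (fun ω => |F ω|) := by
  unfold Ex
  refine (Finset.abs_sum_le_sum_abs _ _).trans (le_of_eq ?_)
  refine Finset.sum_congr rfl fun f _ => ?_
  rw [abs_mul, abs_of_nonneg ENNReal.toReal_nonneg]

/-- Cauchy-Schwarz -/
theorem Ex_mul_sq_le (m : ℕ) {δ : ℝ} (hδ : 0 < δ) (k : ℕ) (F G : Hist m k → ℝ) :
    (Ex m hδ k (fun ω => F ω * G ω)) ^ 2
      ≤ Ex m hδ k (fun ω => F ω ^ 2) * Ex m hδ k (fun ω => G ω ^ 2) := by
  unfold Ex
  have := Finset.sum_mul_sq_le_sq_mul_sq Finset.univ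
    (fun ω => √(histLaw m hδ k ω).toReal * F ω) (fun ω => √(histLaw m hδ k ω).toReal * G ω)
  have h0 : ∀ ω, √(histLaw m hδ k ω).toReal * √(histLaw m hδ k ω).toReal
      = (histLaw m hδ k ω).toReal := fun ω => Real.mul_self_sqrt ENNReal.toReal_nonneg
  have e1 : ∑ ω, √(histLaw m hδ k ω).toReal * F ω * (√(histLaw m hδ k ω).toReal * G ω)
      = ∑ ω, (histLaw m hδ k ω).toReal * (F ω * G ω) :=
    Finset.sum_congr rfl fun ω _ => by
      rw [mul_mul_mul_comm, h0 ω]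
  have e2 : ∀ F : Hist m k → ℝ, ∑ ω, (√(histLaw m hδ k ω).toReal * F ω) ^ 2
      = ∑ ω, (histLaw m hδ k ω).toReal * F ω ^ 2 := fun F =>
    Finset.sum_congr rfl fun ω _ => by rw [mul_pow, sq (√_), h0 ω]
  rw [e1, e2, e2] at this
  exact this

/-- Jensen / Cauchy-Schwarz for the first absolute moment -/
theorem Ex_abs_le_sqrt (m : ℕ) {δ : ℝ} (hδ : 0 < δ) (k : ℕ) (F : Hist m k → ℝ) :
    Ex m hδ k (fun ω => |F ω|) ≤ √(Ex m hδ k (fun ω => F ω ^ 2)) := by
  apply Real.le_sqrt_of_sq_le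
  have := Ex_mul_sq_le m hδ k (fun ω => |F ω|) (fun _ => 1)
  simp only [mul_one, sq_abs, one_pow, Ex_const] at this
  exact this

instance (m k : ℕ) : MeasurableSpace (Hist m k) := ⊤
instance (m k : ℕ) : MeasurableSingletonClass (Hist m k) := ⟨fun _ => trivial⟩

theorem integral_triLaw (m : ℕ) {δ : ℝ} (hδ : 0 < δ) (k : ℕ) (g : ℕ → ℝ) :
    ∫ t, g t ∂(triLaw m hδ k).toMeasure
      = Ex m hδ k (fun ω => g (triangles (k + 2) (graph m k ω))) := by
  unfold triLaw Ex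
  rw [← PMF.toMeasure_map _ _ (measurable_from_top),
    integral_map (measurable_from_top).aemeasurable (measurable_from_top.aestronglyMeasurable),
    PMF.integral_eq_sum]
  rfl

theorem integrable_triLaw (m : ℕ) {δ : ℝ} (hδ : 0 < δ) (k : ℕ) (g : ℕ → ℝ) :
    Integrable g (triLaw m hδ k).toMeasure := by
  unfold triLaw
  rw [← PMF.toMeasure_map _ _ (measurable_from_top),
    integrable_map_measure (measurable_from_top.aestronglyMeasurable)
      (measurable_from_top).aemeasurable]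
  exact Integrable.of_finite

end MP751612
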