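import Pool.Agent.Lib.MP_751612_pr.Tele2

/-! Assembly. -/

open MeasureTheory ProbabilityTheory Filter Topology
open scoped ENNReal NNReal BigOperators

namespace MP751612

variable {m : ℕ} {δ : ℝ}

theorem meanT_eq (hδ : 0 < δ) (k : ℕ) : meanT m hδ k = mu m hδ k := by
  unfold meanT
  rw [integral_triLaw]
  rfl

theorem varT_eq (hδ : 0 < δ) (k : ℕ) : varT m hδ k = vT m hδ k := by
  unfold varT
  rw [variance_eq_integral (measurable_from_top).aemeasurable, integral_triLaw m hδ k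
    (fun t => ((t:ℝ) - ∫ t : ℕ, (t : ℝ) ∂(triLaw m hδ k).toMeasure) ^ 2)]
  have : ∫ t : ℕ, (t : ℝ) ∂(triLaw m hδ k).toMeasure = mu m hδ k := meanT_eq hδ k
  rw [this]
  rfl

theorem er_bd (hm : 1 ≤ m) (hδ : 0 < δ) :
    ∃ E : ℝ, 0 ≤ E ∧ ∀ K, ∑ k ∈ Finset.range K, er m hδ k ≤ E := by
  obtain ⟨Kr, hKr, hr⟩ := rr_bd hm hδ
  obtain ⟨Kp, hKp, hp⟩ := ph_bd hm hδ
  obtain ⟨Kc, hKc, hc⟩ := cc2_bd hm hδ
  have hb : ∀ k, er m hδ k ≤ (Kr + (2 * Kp + 2 * Kc)) * P (-1 - eta m δ) k := by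
    intro k
    unfold er
    have := hr k
    have := hp k
    have := hc k
    nlinarith
  have hK0 : 0 ≤ Kr + (2 * Kp + 2 * Kc) := by positivity
  refine ⟨(Kr + (2 * Kp + 2 * Kc)) * ∑' k, P (-1 - eta m δ) k, ?_, sum_le_of_bd hδ hK0 hb⟩
  exact mul_nonneg hK0 (tsum_nonneg fun k => P_nonneg _ _)

theorem sub_inv_sqrt {v u : ℝ} (hv : 0 < v) (hu : 0 < u) :
    |1 / √v - 1 / √u| * √u ≤ |v - u| / (√v * √u) := by
  have sv := Real.sqrt_pos.mpr hv
  have su := Real.sqrt_pos.mpr hu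
  have e1 : 1 / √v - 1 / √u = (√u - √v) / (√v * √u) := by field_simp
  rw [e1, abs_div, abs_of_pos (by positivity : 0 < √v * √u), div_mul_eq_mul_div]
  apply div_le_div_of_nonneg_right _ (by positivity)
  have e2 : v - u = (√v - √u) * (√v + √u) := by
    have a := Real.mul_self_sqrt hv.le
    have b := Real.mul_self_sqrt hu.le
    nlinarith
  rw [e2, abs_mul, abs_of_pos (by positivity : 0 < √v + √u), abs_sub_comm]
  exact mul_le_mul_of_nonneg_left (by linarith) (abs_nonneg _)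

theorem poisson_rescale {h : ℝ → ℝ} (hh : LipschitzWith 1 h) {u : ℝ≥0} (hu : 0 < u) {s t : ℝ} :
    |∫ j : ℕ, h (((j:ℝ) - u) * s) ∂(poissonMeasure u) - ∫ j : ℕ, h (((j:ℝ) - u) * t) ∂(poissonMeasure u)|
      ≤ |s - t| * √(u:ℝ) := by
  have hlip : ∀ x y : ℝ, |h x - h y| ≤ |x - y| := by
    intro x y
    have := hh.dist_le_mul x y
    simpa [Real.dist_eq] using this
  have hint : ∀ s : ℝ, Integrable (fun j : ℕ => h (((j:ℝ) - u) * s)) (poissonMeasure u) := by
    intro s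
    have hL : Lip |s| (fun j : ℕ => h (((j:ℝ) - u) * s)) := by
      intro i j
      refine (hlip _ _).trans (le_of_eq ?_)
      rw [← abs_mul]
      congr 1
      ring
    have := hL.integrable (abs_nonneg s) u 0
    simpa using this
  rw [← integral_sub (hint s) (hint t)]
  refine (abs_integral_le_integral_abs).trans ?_
  have i0 : Integrable (fun j : ℕ => |(j:ℝ) - u|) (poissonMeasure u) := by
    have : Integrable (fun j : ℕ => (j:ℝ) - u) (poissonMeasure u) :=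
      (integrable_po_id u).sub (integrable_const _)
    exact this.abs
  have key : ∀ j : ℕ, |h (((j:ℝ) - u) * s) - h (((j:ℝ) - u) * t)| ≤ |s - t| * |(j:ℝ) - u| := by
    intro j
    refine (hlip _ _).trans (le_of_eq ?_)
    rw [← abs_mul]
    congr 1
    ring
  refine (integral_mono ((hint s).sub (hint t)).abs (i0.const_mul _) key).trans ?_
  rw [integral_const_mul]
  exact mul_le_mul_of_nonneg_left (absdev_po hu) (abs_nonneg _)

theorem main_bound (hm : 2 ≤ m) (hδ : 0 < δ) :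
    ∃ (C : ℝ) (U : ℝ), 0 ≤ C ∧ 1 ≤ U ∧ ∀ k : ℕ, U ≤ mu m hδ k →
      ∀ h : ℝ → ℝ, LipschitzWith 1 h →
        |∫ x, h x ∂(normLaw m hδ k) - ∫ x, h x ∂(gaussianReal 0 1)| ≤ C / √(mu m hδ k) := by
  have hm1 : 1 ≤ m := by omega
  obtain ⟨E, hE, hEr⟩ := er_bd hm1 hδ
  obtain ⟨B, hB, hBv⟩ := vT_mu hm1 hδ
  obtain ⟨C1, hC1, hpn⟩ := poisson_normal
  refine ⟨(E + √2 * B) * √2 + C1, max 1 (8 * B ^ 2), by positivity, le_max_left _ _, ?_⟩
  intro k hk h hh
  set u := mu m hδ k with hu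
  set v := vT m hδ k with hv
  have hu1 : 1 ≤ u := (le_max_left _ _).trans hk
  have hu8 : 8 * B ^ 2 ≤ u := (le_max_right _ _).trans hk
  have hu0 : 0 < u := by linarith
  have hvu := hBv k
  rw [← hu, ← hv] at hvu
  have s1 : √(u + 1) ≤ √2 * √u := by
    rw [← Real.sqrt_mul (by norm_num)]
    exact Real.sqrt_le_sqrt (by linarith)
  have s2 : B * √(u + 1) ≤ u / 2 := by
    have h1 : B * √(u + 1) ≤ √(u ^ 2 / 4) := by
      apply Real.le_sqrt_of_sq_le
      rw [mul_pow, Real.sq_sqrt (by linarith)]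
      nlinarith
    have h2 : √(u ^ 2 / 4) = u / 2 := by
      rw [show u ^ 2 / 4 = (u / 2) ^ 2 by ring, Real.sqrt_sq (by linarith)]
    linarith
  have hv2 : u / 2 ≤ v := by
    have := (abs_le.mp hvu).1
    linarith
  have hv0 : 0 < v := by linarith
  have sv := Real.sqrt_pos.mpr hv0
  have su := Real.sqrt_pos.mpr hu0
  have hlip : ∀ x y : ℝ, |h x - h y| ≤ |x - y| := by
    intro x y
    have := hh.dist_le_mul x y
    simpa [Real.dist_eq] using this
  -- the three comparisons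
  set g : ℕ → ℝ := fun t => h (((t:ℝ) - u) / √v) with hg
  have hgL : Lip (1 / √v) g := by
    intro i j
    refine (hlip _ _).trans (le_of_eq ?_)
    have e : ((i:ℝ) - u) / √v - ((j:ℝ) - u) / √v = (1 / √v) * ((i:ℝ) - j) := by ring
    rw [e, abs_mul, abs_of_pos (by positivity : 0 < 1 / √v)]
  have c1 := tele hm1 hδ (by positivity : 0 ≤ 1 / √v) hgL k
  have i1 : ∫ x, h x ∂(normLaw m hδ k) = Ex m hδ k (fun ω => g (TT m k ω)) := by
    unfold normLaw
    rw [integral_map (measurable_from_top).aemeasurable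
      (hh.continuous.measurable.aestronglyMeasurable), meanT_eq, varT_eq,
      integral_triLaw m hδ k (fun t => h (((t:ℝ) - mu m hδ k) / √(vT m hδ k)))]
    rfl
  have hNu : ((muN hm1 hδ k : ℝ≥0) : ℝ) = u := muN_coe hm1 hδ k
  have hN1 : 1 ≤ muN hm1 hδ k := by
    rw [← NNReal.coe_le_coe, hNu]; exact_mod_cast hu1
  have hN0 : 0 < muN hm1 hδ k := lt_of_lt_of_le one_pos hN1
  have i2 : PoS (muN hm1 hδ k) g 0
      = ∫ j : ℕ, h (((j:ℝ) - (muN hm1 hδ k : ℝ≥0)) * (1 / √v)) ∂(poissonMeasure (muN hm1 hδ k)) := by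
    unfold PoS
    refine integral_congr_ae (Filter.Eventually.of_forall fun j => ?_)
    simp only [hg, zero_add, hNu]
    congr 1
    ring
  have c2 := poisson_rescale hh hN0 (s := 1 / √v) (t := 1 / √u)
  have c3 := hpn (muN hm1 hδ k) hN1 h hh
  have i3 : ∫ j : ℕ, h (((j:ℝ) - (muN hm1 hδ k : ℝ≥0)) * (1 / √u)) ∂(poissonMeasure (muN hm1 hδ k))
      = ∫ j : ℕ, h (((j : ℝ) - (muN hm1 hδ k : ℝ≥0)) / √((muN hm1 hδ k : ℝ≥0) : ℝ))
          ∂(poissonMeasure (muN hm1 hδ k)) := by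
    refine integral_congr_ae (Filter.Eventually.of_forall fun j => ?_)
    simp only [hNu]
    congr 1
    ring
  rw [← i3] at c3
  rw [← i1, i2] at c1
  rw [hNu] at c2 c3
  rw [hNu] at c1
  have d1 : (1 / √v) * ∑ j ∈ Finset.range k, er m hδ j ≤ E / √v := by
    rw [one_div, inv_mul_eq_div]
    exact div_le_div_of_nonneg_right (hEr k) sv.le
  have d2 : |1 / √v - 1 / √u| * √u ≤ √2 * B / √v := by
    refine (sub_inv_sqrt hv0 hu0).trans ?_
    rw [div_le_div_iff₀ (by positivity) sv]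
    have : |v - u| ≤ B * (√2 * √u) := hvu.trans (mul_le_mul_of_nonneg_left s1 hB)
    calc |v - u| * √v ≤ B * (√2 * √u) * √v := mul_le_mul_of_nonneg_right this sv.le
      _ = √2 * B * (√v * √u) := by ring
  have d3 : 1 / √v ≤ √2 / √u := by
    rw [div_le_div_iff₀ sv su, one_mul, ← Real.sqrt_mul (by norm_num)]
    exact Real.sqrt_le_sqrt (by linarith)
  have d4 : (E + √2 * B) / √v ≤ (E + √2 * B) * √2 / √u := by
    rw [div_eq_mul_one_div, mul_div_assoc]
    exact mul_le_mul_of_nonneg_left d3 (by positivity)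
  have t1 := abs_sub_le (∫ x, h x ∂(normLaw m hδ k))
    (∫ j : ℕ, h (((j:ℝ) - u) * (1 / √v)) ∂(poissonMeasure (muN hm1 hδ k)))
    (∫ x, h x ∂(gaussianReal 0 1))
  have t2 := abs_sub_le (∫ j : ℕ, h (((j:ℝ) - u) * (1 / √v)) ∂(poissonMeasure (muN hm1 hδ k)))
    (∫ j : ℕ, h (((j:ℝ) - u) * (1 / √u)) ∂(poissonMeasure (muN hm1 hδ k)))
    (∫ x, h x ∂(gaussianReal 0 1))
  have e1 : ((E + √2 * B) * √2 + C1) / √u = (E + √2 * B) * √2 / √u + C1 / √u := by
    rw [add_div]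
  have e2 : (E + √2 * B) / √v = E / √v + √2 * B / √v := by rw [add_div]
  rw [e1]
  linarith

theorem wasserstein_rate (hm : 2 ≤ m) (hδ : 0 < δ) :
    ∃ (C : ℝ) (n₀ : ℕ), 2 ≤ n₀ ∧ ∀ n : ℕ, n₀ ≤ n →
      dW (normLaw m hδ (n - 2)) (gaussianReal 0 1) ≤ ENNReal.ofReal (C / √(Real.log n)) := by
  have hm1 : 1 ≤ m := by omega
  obtain ⟨C, U, hC, hU, hmain⟩ := main_bound hm hδ
  have hmr : (2:ℝ) ≤ m := by exact_mod_cast hm
  set c0 : ℝ := m * (m - 1) / 2 / (2 * m + δ) with hc0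
  have c0p : 0 < c0 := by
    rw [hc0]
    exact div_pos (div_pos (mul_pos (by linarith) (by linarith)) (by norm_num)) (by positivity)
  have hlog : Tendsto (fun n : ℕ => Real.log n) atTop atTop :=
    Real.tendsto_log_atTop.comp tendsto_natCast_atTop_atTop
  obtain ⟨n1, hn1⟩ := eventually_atTop.mp
    (hlog.eventually_ge_atTop (max (2 * Real.log 2) (2 * U / c0)))
  refine ⟨C / √(c0 / 2), max 2 n1, le_max_left _ _, fun n hn => ?_⟩
  have hn2 : 2 ≤ n := (le_max_left _ _).trans hn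
  have hl := hn1 n ((le_max_right _ _).trans hn)
  have hl1 : 2 * Real.log 2 ≤ Real.log n := (le_max_left _ _).trans hl
  have hl2 : 2 * U / c0 ≤ Real.log n := (le_max_right _ _).trans hl
  have log2 : 0 < Real.log 2 := Real.log_pos (by norm_num)
  have hlp : 0 < Real.log n := by linarith
  have hcast : (((n - 2 : ℕ) : ℝ) + 2) = n := by
    have : ((n - 2 + 2 : ℕ) : ℝ) = n := by rw [Nat.sub_add_cancel hn2]
    push_cast at this
    linarith
  have hmu : c0 / 2 * Real.log n ≤ mu m hδ (n - 2) := by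
    have h1 := mu_ge hm1 hδ (n - 2)
    rw [hcast, ← hc0] at h1
    nlinarith
  have hUmu : U ≤ mu m hδ (n - 2) := by
    have : U ≤ c0 / 2 * Real.log n := by
      rw [div_le_iff₀ c0p] at hl2
      nlinarith
    linarith
  unfold dW
  refine iSup₂_le fun h hh => ?_
  apply ENNReal.ofReal_le_ofReal
  refine (hmain (n - 2) hUmu h hh).trans ?_
  have h2 : √(c0 / 2) * √(Real.log n) ≤ √(mu m hδ (n - 2)) := by
    rw [← Real.sqrt_mul (by positivity)]
    exact Real.sqrt_le_sqrt hmu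
  rw [div_div]
  exact div_le_div_of_nonneg_left hC
    (mul_pos (Real.sqrt_pos.mpr (by positivity)) (Real.sqrt_pos.mpr hlp)) h2

end MP751612
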