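import Pool.Agent.Lib.MP_751612_pr.Ex

/-! Deterministic structure of the multigraphs and pathwise effect of one step. -/

open scoped BigOperators

namespace MP751612

open Finset

structure GoodG (m n : ℕ) (M : MGraph) : Prop where
  symm : ∀ a b, M a b = M b a
  diag : ∀ a, M a a = 0
  supp : ∀ a b, n ≤ a → M a b = 0
  le_m : ∀ a b, M a b ≤ m
  deg_ge : ∀ v, v < n → m ≤ deg n M v

theorem cnt_le {m n : ℕ} (f : Fin m → Fin n) (v : ℕ) : cnt f v ≤ m := by
  unfold cnt
  exact (card_filter_le _ _).trans (by simp)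

theorem attach_comm {m n : ℕ} {M : MGraph} (h : ∀ a b, M a b = M b a) (f : Fin m → Fin n)
    (a b : ℕ) : attach n M f a b = attach n M f b a := by
  unfold attach
  rw [h a b]
  congr 2
  ext l
  simp only [mem_filter, mem_univ, true_and]
  tauto

theorem deg_attach_lt {m n : ℕ} {M : MGraph} (hM : GoodG m n M) (f : Fin m → Fin n) {v : ℕ}
    (hv : v < n) : deg (n + 1) (attach n M f) v = deg n M v + cnt f v := by
  unfold deg
  rw [sum_range_succ]
  congr 1
  · exact sum_congr rfl fun b hb => attach_lt _ _ hv (mem_range.mp hb)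
  · exact attach_new _ _ hv (by rw [hM.symm]; exact hM.supp n v le_rfl)

theorem deg_attach_new {m n : ℕ} {M : MGraph} (hM : GoodG m n M) (f : Fin m → Fin n) :
    deg (n + 1) (attach n M f) n = m := by
  unfold deg
  rw [sum_range_succ, attach_self _ _ (hM.diag n), add_zero]
  refine Eq.trans (Finset.sum_congr rfl ?_) (sum_cnt f)
  intro b hb
  exact attach_new' _ _ (Finset.mem_range.mp hb) (hM.supp n b le_rfl)

theorem GoodG.attach {m n : ℕ} {M : MGraph} (hM : GoodG m n M) (f : Fin m → Fin n) :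
    GoodG m (n + 1) (attach n M f) := by
  refine ⟨attach_comm hM.symm f, ?_, ?_, ?_, ?_⟩
  · intro a
    unfold MP751612.attach
    rw [hM.diag, zero_add, card_eq_zero, filter_eq_empty_iff]
    intro l _ h
    have := (f l).2
    omega
  · intro a b h
    unfold MP751612.attach
    rw [hM.supp a b (by omega), zero_add, card_eq_zero, filter_eq_empty_iff]
    intro l _ h'
    have := (f l).2
    omega
  · intro a b
    by_cases ha : n ≤ a
    · unfold MP751612.attach
      rw [hM.supp a b ha, zero_add]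
      exact (card_filter_le _ _).trans (by simp)
    · by_cases hb : n ≤ b
      · unfold MP751612.attach
        rw [hM.symm a b, hM.supp b a hb, zero_add]
        exact (card_filter_le _ _).trans (by simp)
      · rw [attach_lt _ _ (by omega) (by omega)]
        exact hM.le_m a b
  · intro v hv
    rcases Nat.lt_succ_iff_lt_or_eq.mp hv with h | h
    · rw [deg_attach_lt hM f h]
      exact (hM.deg_ge v h).trans (Nat.le_add_right _ _)
    · rw [h, deg_attach_new hM f]

theorem goodG_start (m : ℕ) : GoodG m 2 (start m) := by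
  refine ⟨?_, ?_, ?_, ?_, ?_⟩
  · intro a b
    unfold start
    congr 1
    apply propext
    tauto
  · intro a
    unfold start
    rw [if_neg]; omega
  · intro a b h
    unfold start
    rw [if_neg]; omega
  · intro a b
    unfold start
    split_ifs
    · exact le_rfl
    · exact Nat.zero_le _
  · intro v hv
    unfold deg start
    interval_cases v <;> simp [sum_range_succ]

theorem goodG_graph (m : ℕ) : ∀ (k : ℕ) (ω : Hist m k), GoodG m (k + 2) (graph m k ω) := by
  intro k
  induction k with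
  | zero => intro ω; exact goodG_start m
  | succ k ih => intro ω; exact (ih ω.1).attach ω.2

/-! ### real weights and the functionals -/

/-- `D_v + δ` -/
noncomputable def wt (δ : ℝ) (n : ℕ) (M : MGraph) (v : ℕ) : ℝ := (deg n M v : ℝ) + δ

/-- total weight -/
noncomputable def Lt (m : ℕ) (δ : ℝ) (n : ℕ) : ℝ := 2 * m * ((n : ℝ) - 1) + n * δ

noncomputable def Nb (δ : ℝ) (n : ℕ) (M : MGraph) (v : ℕ) : ℝ :=
  ∑ b ∈ range n, (M v b : ℝ) * wt δ n M b

noncomputable def Qf (δ : ℝ) (n : ℕ) (M : MGraph) : ℝ := ∑ v ∈ range n, wt δ n M v ^ 2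
noncomputable def Cf (δ : ℝ) (n : ℕ) (M : MGraph) : ℝ := ∑ v ∈ range n, wt δ n M v ^ 3
noncomputable def Sf (δ : ℝ) (n : ℕ) (M : MGraph) : ℝ :=
  ∑ a ∈ range n, ∑ b ∈ range n, (M a b : ℝ) * wt δ n M a * wt δ n M b
noncomputable def Rf (δ : ℝ) (n : ℕ) (M : MGraph) : ℝ :=
  ∑ v ∈ range n, wt δ n M v * Nb δ n M v ^ 2
noncomputable def Uf (δ : ℝ) (n : ℕ) (M : MGraph) : ℝ :=
  ∑ a ∈ range n, ∑ b ∈ range n, (M a b : ℝ) * ((M a b : ℝ) - 1) * wt δ n M a * wt δ n M b

section step
variable {m n : ℕ} {M : MGraph} {δ : ℝ}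

theorem wt_attach_lt (hM : GoodG m n M) (f : Fin m → Fin n) {v : ℕ} (hv : v < n) :
    wt δ (n + 1) (attach n M f) v = wt δ n M v + cnt f v := by
  unfold wt; rw [deg_attach_lt hM f hv]; push_cast; ring

theorem wt_attach_new (hM : GoodG m n M) (f : Fin m → Fin n) :
    wt δ (n + 1) (attach n M f) n = m + δ := by
  unfold wt; rw [deg_attach_new hM f]

theorem sum_cnt_mul (f : Fin m → Fin n) (g : ℕ → ℝ) :
    ∑ v ∈ range n, (cnt f v : ℝ) * g v = ∑ l, g (f l) := by
  have h1 : ∀ v, (cnt f v : ℝ) = ∑ l, if (f l : ℕ) = v then (1:ℝ) else 0 := by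
    intro v
    unfold cnt
    rw [card_filter]; push_cast; rfl
  simp only [h1, sum_mul]
  rw [sum_comm]
  refine sum_congr rfl fun l _ => ?_
  rw [sum_eq_single (f l : ℕ)]
  · simp
  · intro b _ hb
    rw [if_neg hb.symm, zero_mul]
  · intro h
    exact absurd (mem_range.mpr (f l).2) h

theorem sum_cnt_mul2 (f : Fin m → Fin n) (G : ℕ → ℕ → ℝ) :
    ∑ a ∈ range n, ∑ b ∈ range n, G a b * cnt f a * cnt f b = ∑ l, ∑ l', G (f l) (f l') := by
  have h1 : ∀ a, ∑ b ∈ range n, G a b * cnt f a * cnt f b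
      = (cnt f a : ℝ) * ∑ l', G a (f l') := by
    intro a
    rw [← sum_cnt_mul f (fun b => G a b), mul_sum]
    exact sum_congr rfl fun b _ => by ring
  simp only [h1]
  rw [sum_cnt_mul f (fun a => ∑ l', G a (f l'))]

theorem sum_cnt_sq (f : Fin m → Fin n) (g : ℕ → ℝ) :
    ∑ v ∈ range n, (cnt f v : ℝ) ^ 2 * g v
      = ∑ l, ∑ l', if (f l : ℕ) = (f l' : ℕ) then g (f l) else 0 := by
  have h1 := sum_cnt_mul2 f (fun a b => if a = b then g a else 0)
  rw [← h1]
  refine sum_congr rfl fun v hv => ?_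
  rw [sum_eq_single v]
  · simp; ring
  · intro b _ hb
    simp [hb.symm]
  · intro h; exact absurd hv h

theorem Qf_attach (hM : GoodG m n M) (f : Fin m → Fin n) :
    Qf δ (n + 1) (attach n M f) = Qf δ n M + 2 * ∑ v ∈ range n, (cnt f v : ℝ) * wt δ n M v
      + ∑ v ∈ range n, (cnt f v : ℝ) ^ 2 + (m + δ) ^ 2 := by
  unfold Qf
  rw [sum_range_succ, wt_attach_new hM f]
  congr 1
  rw [mul_sum, ← sum_add_distrib, ← sum_add_distrib]
  refine sum_congr rfl fun v hv => ?_
  rw [wt_attach_lt hM f (mem_range.mp hv)]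
  ring

theorem Cf_attach (hM : GoodG m n M) (f : Fin m → Fin n) :
    Cf δ (n + 1) (attach n M f) = ∑ v ∈ range n, (wt δ n M v + cnt f v) ^ 3 + (m + δ) ^ 3 := by
  unfold Cf
  rw [sum_range_succ, wt_attach_new hM f]
  congr 1
  refine sum_congr rfl fun v hv => ?_
  rw [wt_attach_lt hM f (mem_range.mp hv)]

/-- generic formula for the symmetric edge sums -/
theorem edge_attach (hM : GoodG m n M) (f : Fin m → Fin n) (φ : ℕ → ℝ) (h0 : φ 0 = 0) :
    ∑ a ∈ range (n + 1), ∑ b ∈ range (n + 1), φ (attach n M f a b)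
        * wt δ (n + 1) (attach n M f) a * wt δ (n + 1) (attach n M f) b
      = ∑ a ∈ range n, ∑ b ∈ range n, φ (M a b) * (wt δ n M a + cnt f a) * (wt δ n M b + cnt f b)
        + 2 * (m + δ) * ∑ v ∈ range n, φ (cnt f v) * (wt δ n M v + cnt f v) := by
  rw [sum_range_succ, sum_range_succ (n := n) (f := fun b => φ (attach n M f n b)
        * wt δ (n + 1) (attach n M f) n * wt δ (n + 1) (attach n M f) b)]
  rw [attach_self _ _ (hM.diag n), h0, wt_attach_new hM f]
  have h1 : ∀ a ∈ range n, ∑ b ∈ range (n + 1), φ (attach n M f a b)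
        * wt δ (n + 1) (attach n M f) a * wt δ (n + 1) (attach n M f) b
      = ∑ b ∈ range n, φ (M a b) * (wt δ n M a + cnt f a) * (wt δ n M b + cnt f b)
        + φ (cnt f a) * (wt δ n M a + cnt f a) * (m + δ) := by
    intro a ha
    have ha' := mem_range.mp ha
    rw [sum_range_succ, attach_new _ _ ha' (by rw [hM.symm]; exact hM.supp n a le_rfl),
      wt_attach_new hM f, wt_attach_lt hM f ha']
    congr 1
    refine sum_congr rfl fun b hb => ?_
    rw [attach_lt _ _ ha' (mem_range.mp hb), wt_attach_lt hM f (mem_range.mp hb)]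
  have h2 : ∀ b ∈ range n, φ (attach n M f n b) * ((m:ℝ) + δ) * wt δ (n + 1) (attach n M f) b
      = φ (cnt f b) * (wt δ n M b + cnt f b) * (m + δ) := by
    intro b hb
    have hb' := mem_range.mp hb
    rw [attach_new' _ _ hb' (hM.supp n b le_rfl), wt_attach_lt hM f hb']
    ring
  rw [sum_congr rfl h1, sum_congr rfl h2, sum_add_distrib, ← sum_mul]
  ring

theorem Nb_attach_lt (hM : GoodG m n M) (f : Fin m → Fin n) {v : ℕ} (hv : v < n) :
    Nb δ (n + 1) (attach n M f) v
      = Nb δ n M v + ∑ b ∈ range n, (M v b : ℝ) * cnt f b + (m + δ) * cnt f v := by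
  unfold Nb
  rw [sum_range_succ, attach_new _ _ hv (by rw [hM.symm]; exact hM.supp n v le_rfl),
    wt_attach_new hM f, ← sum_add_distrib]
  congr 1
  · refine sum_congr rfl fun b hb => ?_
    rw [attach_lt _ _ hv (mem_range.mp hb), wt_attach_lt hM f (mem_range.mp hb)]
    ring
  · ring

theorem Nb_attach_new (hM : GoodG m n M) (f : Fin m → Fin n) :
    Nb δ (n + 1) (attach n M f) n = ∑ v ∈ range n, (cnt f v : ℝ) * (wt δ n M v + cnt f v) := by
  unfold Nb
  rw [sum_range_succ, attach_self _ _ (hM.diag n), Nat.cast_zero, zero_mul, add_zero]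
  refine sum_congr rfl fun b hb => ?_
  rw [attach_new' _ _ (mem_range.mp hb) (hM.supp n b le_rfl), wt_attach_lt hM f (mem_range.mp hb)]

theorem Rf_attach (hM : GoodG m n M) (f : Fin m → Fin n) :
    Rf δ (n + 1) (attach n M f)
      = ∑ v ∈ range n, (wt δ n M v + cnt f v)
          * (Nb δ n M v + ∑ b ∈ range n, (M v b : ℝ) * cnt f b + (m + δ) * cnt f v) ^ 2
        + (m + δ) * (∑ v ∈ range n, (cnt f v : ℝ) * (wt δ n M v + cnt f v)) ^ 2 := by
  unfold Rf
  rw [sum_range_succ, wt_attach_new hM f, Nb_attach_new hM f]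
  congr 1
  refine sum_congr rfl fun v hv => ?_
  rw [wt_attach_lt hM f (mem_range.mp hv), Nb_attach_lt hM f (mem_range.mp hv)]

/-- new triangles -/
def newTri (n : ℕ) (M : MGraph) {m : ℕ} (f : Fin m → Fin n) : ℕ :=
  ∑ b ∈ range n, ∑ a ∈ range b, M a b * cnt f b * cnt f a

theorem triangles_attach (hM : GoodG m n M) (f : Fin m → Fin n) :
    triangles (n + 1) (attach n M f) = triangles n M + newTri n M f := by
  unfold triangles newTri
  rw [sum_range_succ]
  congr 1
  · refine sum_congr rfl fun c hc => sum_congr rfl fun b hb => sum_congr rfl fun a ha => ?_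
    have hc' := mem_range.mp hc
    have hb' := mem_range.mp hb
    have ha' := mem_range.mp ha
    rw [attach_lt _ _ (by omega) (by omega), attach_lt _ _ (by omega) (by omega),
      attach_lt _ _ (by omega) (by omega)]
  · refine sum_congr rfl fun b hb => sum_congr rfl fun a ha => ?_
    have hb' := mem_range.mp hb
    have ha' := mem_range.mp ha
    rw [attach_lt _ _ (by omega) (by omega), attach_new _ _ hb' (by rw [hM.symm]; exact hM.supp n b le_rfl),
      attach_new _ _ (by omega) (by rw [hM.symm]; exact hM.supp n a le_rfl)]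

theorem two_newTri (hM : GoodG m n M) (f : Fin m → Fin n) :
    2 * (newTri n M f : ℝ) = ∑ l, ∑ l', (M (f l) (f l') : ℝ) := by
  rw [← sum_cnt_mul2 f (fun a b => (M a b : ℝ))]
  unfold newTri
  push_cast
  have key : ∀ N : ℕ, 2 * ∑ b ∈ range N, ∑ a ∈ range b, (M a b : ℝ) * cnt f b * cnt f a
      = ∑ a ∈ range N, ∑ b ∈ range N, (M a b : ℝ) * cnt f a * cnt f b := by
    intro N
    induction N with
    | zero => simp
    | succ N ih =>
      rw [sum_range_succ, mul_add, ih, sum_range_succ (n := N) (f := fun a => ∑ b ∈ range (N+1), _),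
        sum_range_succ (n := N) (f := fun b => (M N b : ℝ) * cnt f N * cnt f b), hM.diag N]
      have : ∀ a ∈ range N, ∑ b ∈ range (N + 1), (M a b : ℝ) * cnt f a * cnt f b
          = ∑ b ∈ range N, (M a b : ℝ) * cnt f a * cnt f b + (M a N : ℝ) * cnt f a * cnt f N := by
        intro a _; rw [sum_range_succ]
      rw [sum_congr rfl this, sum_add_distrib]
      have h2 : ∑ b ∈ range N, (M N b : ℝ) * cnt f N * cnt f b
          = ∑ a ∈ range N, (M a N : ℝ) * cnt f N * cnt f a := by
        exact sum_congr rfl fun b _ => by rw [hM.symm N b]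
      have h3 : ∑ a ∈ range N, (M a N : ℝ) * cnt f a * cnt f N
          = ∑ a ∈ range N, (M a N : ℝ) * cnt f N * cnt f a :=
        sum_congr rfl fun b _ => by ring
      rw [h2, h3]
      simp
      ring
  exact key n

end step

end MP751612
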