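import Mathlib

/-! Growth of sequences satisfying linear recursions with coefficients `1 + ρ/n`. -/

open Filter Topology

namespace MP751612

theorem rpow_step {θ ρ : ℝ} (hθ : 0 ≤ θ) (hρ : ρ < θ) :
    ∃ n0 : ℕ, ∀ n : ℕ, n0 ≤ n → 1 ≤ n →
      (1 + ρ / n) * (n : ℝ) ^ θ ≤ ((n : ℝ) + 1) ^ θ := by
  obtain ⟨N, hN⟩ := exists_nat_ge (|ρ| / (θ - ρ))
  refine ⟨N, fun n hn h1 => ?_⟩
  have hn1 : (1:ℝ) ≤ n := by exact_mod_cast h1
  have hn0 : (0:ℝ) < n := by linarith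
  have hNn : |ρ| / (θ - ρ) ≤ n := hN.trans (by exact_mod_cast hn)
  have hd : 0 < θ - ρ := by linarith
  have h2 : |ρ| ≤ n * (θ - ρ) := by rwa [div_le_iff₀ hd] at hNn
  have h3 : ρ * (n + 1) ≤ θ * n := by
    have := le_abs_self ρ
    nlinarith
  have h4 : ρ / n ≤ θ / (n + 1) := by
    rw [div_le_div_iff₀ hn0 (by linarith)]
    exact h3
  have h5 : 1 + θ / ((n:ℝ) + 1) ≤ (1 + 1 / (n:ℝ)) ^ θ := by
    have hx : (0:ℝ) < 1 + 1 / (n:ℝ) := by positivity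
    rw [Real.rpow_def_of_pos hx]
    have h6 : 1 / ((n:ℝ) + 1) ≤ Real.log (1 + 1 / (n:ℝ)) := by
      have := Real.one_sub_inv_le_log_of_pos hx
      have e : 1 - (1 + 1 / (n:ℝ))⁻¹ = 1 / ((n:ℝ) + 1) := by
        field_simp
        ring
      rw [e] at this
      exact this
    have h7 := Real.add_one_le_exp (Real.log (1 + 1 / (n:ℝ)) * θ)
    have h8 : θ / ((n:ℝ) + 1) ≤ Real.log (1 + 1 / (n:ℝ)) * θ := by
      calc θ / ((n:ℝ) + 1) = 1 / ((n:ℝ) + 1) * θ := by ring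
        _ ≤ _ := mul_le_mul_of_nonneg_right h6 hθ
    linarith
  have h9 : ((n : ℝ) + 1) ^ θ = (1 + 1 / (n:ℝ)) ^ θ * (n:ℝ) ^ θ := by
    rw [← Real.mul_rpow (by positivity) hn0.le]
    congr 1
    field_simp
  rw [h9]
  exact mul_le_mul_of_nonneg_right (by linarith) (Real.rpow_nonneg hn0.le _)

/-- If `x (k+1) ≤ (1 + ρ/(k+2)) x k + K (k+2)^(θ-1)` eventually and `0 ≤ ρ < θ`, then
`x k = O((k+2)^θ)`. -/
theorem growth {x a b : ℕ → ℝ} {ρ θ K : ℝ} (hρ0 : 0 ≤ ρ) (hρ : ρ < θ)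
    (hx : ∀ k, 0 ≤ x k)
    (hrec : ∀ k, x (k + 1) ≤ a k * x k + b k)
    (ha : ∀ᶠ k : ℕ in atTop, a k ≤ 1 + ρ / ((k : ℝ) + 2))
    (hb : ∀ k : ℕ, b k ≤ K * ((k : ℝ) + 2) ^ (θ - 1)) :
    ∃ K' : ℝ, 0 ≤ K' ∧ ∀ k : ℕ, x k ≤ K' * ((k : ℝ) + 2) ^ θ := by
  have hθ : 0 < θ := lt_of_le_of_lt hρ0 hρ
  set ρ' := (ρ + θ) / 2 with hρ'
  have h1 : ρ < ρ' := by rw [hρ']; linarith
  have h2 : ρ' < θ := by rw [hρ']; linarith
  obtain ⟨n0, hn0⟩ := rpow_step hθ.le h2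
  obtain ⟨k1, hk1⟩ := eventually_atTop.mp ha
  set k0 := max n0 k1 with hk0
  set K' := ∑ k ∈ Finset.range (k0 + 1), x k + |K| / (ρ' - ρ) with hK'
  have hd : 0 < ρ' - ρ := by linarith
  have hS0 : 0 ≤ ∑ k ∈ Finset.range (k0 + 1), x k := Finset.sum_nonneg fun k _ => hx k
  have hK0 : 0 ≤ K' := add_nonneg hS0 (div_nonneg (abs_nonneg _) hd.le)
  refine ⟨K', hK0, ?_⟩
  have base : ∀ k, k ≤ k0 → x k ≤ K' * ((k : ℝ) + 2) ^ θ := by
    intro k hk
    have e1 : x k ≤ ∑ k ∈ Finset.range (k0 + 1), x k :=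
      Finset.single_le_sum (f := x) (fun i _ => hx i) (Finset.mem_range.mpr (by omega))
    have e2 : x k ≤ K' := e1.trans (by rw [hK']; linarith [div_nonneg (abs_nonneg K) hd.le])
    have e3 : (1:ℝ) ≤ ((k : ℝ) + 2) ^ θ :=
      Real.one_le_rpow (by linarith [(Nat.cast_nonneg k : (0:ℝ) ≤ k)]) hθ.le
    nlinarith
  intro k
  by_cases hk : k ≤ k0
  · exact base k hk
  · push Not at hk
    induction k, hk.le using Nat.le_induction with
    | base => exact base k0 le_rfl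
    | succ k hkk ih =>
      have ih' : x k ≤ K' * ((k : ℝ) + 2) ^ θ := by
        rcases Nat.lt_or_ge k0 k with h | h
        · exact ih h
        · exact base k h
      have hkn : n0 ≤ k := le_trans (le_max_left _ _) hkk
      have hkk1 : k1 ≤ k := le_trans (le_max_right _ _) hkk
      have s1 := hn0 (k + 2) (by omega) (by omega)
      push_cast at s1
      have kp : (0:ℝ) < (k:ℝ) + 2 := by positivity
      have s2 := hk1 k hkk1
      have s3 := hb k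
      have s4 : x (k + 1) ≤ (1 + ρ / ((k : ℝ) + 2)) * x k + K * ((k : ℝ) + 2) ^ (θ - 1) :=
        (hrec k).trans (add_le_add (mul_le_mul_of_nonneg_right s2 (hx k)) s3)
      have s5 : 0 ≤ 1 + ρ / ((k : ℝ) + 2) := by positivity
      have s6 : (1 + ρ / ((k : ℝ) + 2)) * x k
          ≤ (1 + ρ / ((k : ℝ) + 2)) * (K' * ((k : ℝ) + 2) ^ θ) :=
        mul_le_mul_of_nonneg_left ih' s5
      have s7 : ((k : ℝ) + 2) ^ (θ - 1) = ((k : ℝ) + 2) ^ θ / ((k : ℝ) + 2) := by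
        rw [Real.rpow_sub kp, Real.rpow_one]
      have s8 : K ≤ K' * (ρ' - ρ) := by
        have t1 : |K| / (ρ' - ρ) * (ρ' - ρ) = |K| := div_mul_cancel₀ _ hd.ne'
        have t2 : K' * (ρ' - ρ) = (∑ k ∈ Finset.range (k0 + 1), x k) * (ρ' - ρ) + |K| := by
          rw [hK', add_mul, t1]
        rw [t2]
        have := le_abs_self K
        have := mul_nonneg hS0 hd.le
        linarith
      have P0 : 0 ≤ ((k : ℝ) + 2) ^ θ := Real.rpow_nonneg kp.le _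
      have s9 : K * ((k : ℝ) + 2) ^ (θ - 1)
          ≤ K' * (ρ' - ρ) * (((k : ℝ) + 2) ^ θ / ((k : ℝ) + 2)) := by
        rw [s7]
        exact mul_le_mul_of_nonneg_right s8 (by positivity)
      have s10 : (1 + ρ / ((k : ℝ) + 2)) * (K' * ((k : ℝ) + 2) ^ θ)
          + K' * (ρ' - ρ) * (((k : ℝ) + 2) ^ θ / ((k : ℝ) + 2))
          = K' * ((1 + ρ' / ((k : ℝ) + 2)) * ((k : ℝ) + 2) ^ θ) := by
        field_simp
        ring
      have s11 : ((k : ℝ) + 2) + 1 = ((k + 1 : ℕ) : ℝ) + 2 := by push_cast; ring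
      rw [s11] at s1
      have s12 := mul_le_mul_of_nonneg_left s1 hK0
      linarith

end MP751612
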