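import Pool.Agent.Lib.MP_751612_pr.Step2

/-! Moments of the number of new triangles in one step. -/

open scoped BigOperators

namespace MP751612

open Finset

section
variable {m : ℕ} {δ : ℝ} {n : ℕ} {M : MGraph}

theorem av2_M : av2 m δ n M (fun a b => (M a b : ℝ)) = Sf δ n M / Lt m δ n ^ 2 := by
  unfold av2 Sf
  congr 1
  exact sum_congr rfl fun a _ => sum_congr rfl fun b _ => by ring

theorem newTri_mean (h : Stp m δ n M) :
    SE (pv m δ n M) (fun f : Fin m → Fin n => (newTri n M f : ℝ))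
      = m * (m - 1) / 2 * Sf δ n M / Lt m δ n ^ 2 := by
  have h1 : ∀ f : Fin m → Fin n, (newTri n M f : ℝ) = (1/2) * ∑ l, ∑ l', (M (f l) (f l') : ℝ) := by
    intro f
    rw [← two_newTri h.good f]; ring
  rw [SE_congr h1, SE_mul_left, SE_quad h (fun a b => (M a b : ℝ)), av2_M]
  have h4 : av m δ n M (fun a => (M a a : ℝ)) = 0 := by
    have : ∀ a, (M a a : ℝ) = 0 := fun a => by rw [h.good.diag]; simp
    simp only [this]
    unfold av; simp
  rw [h4]
  ring

/-- expectation of the product of the multiplicities of two different pairs -/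
theorem pair_prod_le (h : Stp m δ n M) {i j i' j' : Fin m}
    (hne : ¬ (i' = i ∧ j' = j)) (hne' : ¬ (i' = j ∧ j' = i)) :
    SE (pv m δ n M) (fun f : Fin m → Fin n => (M (f i) (f j) : ℝ) * (M (f i') (f j') : ℝ))
      ≤ Rf δ n M / Lt m δ n ^ 3 + (Sf δ n M / Lt m δ n ^ 2) ^ 2 := by
  have L0 := h.L_pos
  have R0 : 0 ≤ Rf δ n M / Lt m δ n ^ 3 :=
    div_nonneg (sum_nonneg fun v _ => mul_nonneg (h.wt_nonneg v) (sq_nonneg _)) (by positivity)
  have S0 : 0 ≤ (Sf δ n M / Lt m δ n ^ 2) ^ 2 := sq_nonneg _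
  -- diagonal pairs
  have zero_of : ∀ (F : (Fin m → Fin n) → ℝ), (∀ f, F f = 0) →
      SE (pv m δ n M) F ≤ Rf δ n M / Lt m δ n ^ 3 + (Sf δ n M / Lt m δ n ^ 2) ^ 2 := by
    intro F hF
    rw [SE_congr hF, SE_const h.pv_sum]
    linarith
  by_cases hij : i = j
  · apply zero_of
    intro f
    rw [hij, h.good.diag]; simp
  by_cases hij' : i' = j'
  · apply zero_of
    intro f
    rw [hij', h.good.diag]; simp
  -- shared vertex
  have shared : ∀ x y z : Fin m, x ≠ y → x ≠ z → y ≠ z →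
      SE (pv m δ n M) (fun f : Fin m → Fin n => (M (f x) (f y) : ℝ) * (M (f x) (f z) : ℝ))
        = Rf δ n M / Lt m δ n ^ 3 := by
    intro x y z hxy hxz hyz
    rw [SE3 h.pv_sum hxy hxz hyz (fun a b c => (M a b : ℝ) * (M a c : ℝ))]
    have e1 : ∀ a : Fin n, ∑ b : Fin n, pv m δ n M b * (M a b : ℝ) = Nb δ n M a / Lt m δ n := by
      intro a
      rw [sum_pv_mul (fun b => (M a b : ℝ))]
      unfold av Nb
      congr 1
      exact sum_congr rfl fun b _ => by ring
    have e2 : ∀ a : Fin n, ∑ b : Fin n, ∑ c : Fin n,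
        pv m δ n M a * pv m δ n M b * pv m δ n M c * ((M a b : ℝ) * (M a c : ℝ))
        = pv m δ n M a * (Nb δ n M a ^ 2 / Lt m δ n ^ 2) := by
      intro a
      have : pv m δ n M a * (Nb δ n M a ^ 2 / Lt m δ n ^ 2)
        = pv m δ n M a * ((∑ b : Fin n, pv m δ n M b * (M a b : ℝ))
            * (∑ c : Fin n, pv m δ n M c * (M a c : ℝ))) := by
        rw [e1 a]; ring
      rw [this, sum_mul_sum, mul_sum]
      refine sum_congr rfl fun b _ => ?_
      rw [mul_sum]
      exact sum_congr rfl fun c _ => by ring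
    rw [sum_congr rfl fun a _ => e2 a, sum_pv_mul (fun a => Nb δ n M a ^ 2 / Lt m δ n ^ 2)]
    unfold av Rf
    rw [div_eq_div_iff L0.ne' (by positivity), sum_mul, sum_mul]
    refine sum_congr rfl fun v _ => ?_
    field_simp
  by_cases c1 : i = i'
  · have hjj : j ≠ j' := fun e => hne ⟨c1.symm, e.symm⟩
    rw [← c1]
    rw [shared i j j' hij (c1 ▸ hij') hjj]
    linarith
  by_cases c2 : i = j'
  · have hji : j ≠ i' := fun e => hne' ⟨e.symm, c2.symm⟩
    have e : ∀ f : Fin m → Fin n, (M (f i) (f j) : ℝ) * (M (f i') (f j') : ℝ)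
        = (M (f i) (f j) : ℝ) * (M (f i) (f i') : ℝ) := by
      intro f; rw [← c2, h.good.symm (f i' : ℕ) (f i : ℕ)]
    rw [SE_congr e, shared i j i' hij c1 hji]
    linarith
  by_cases c3 : j = i'
  · have e : ∀ f : Fin m → Fin n, (M (f i) (f j) : ℝ) * (M (f i') (f j') : ℝ)
        = (M (f j) (f i) : ℝ) * (M (f j) (f j') : ℝ) := by
      intro f; rw [← c3, h.good.symm (f i : ℕ) (f j : ℕ)]
    rw [SE_congr e, shared j i j' (Ne.symm hij) (c3 ▸ hij') c2]
    linarith
  by_cases c4 : j = j'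
  · have e : ∀ f : Fin m → Fin n, (M (f i) (f j) : ℝ) * (M (f i') (f j') : ℝ)
        = (M (f j) (f i) : ℝ) * (M (f j) (f i') : ℝ) := by
      intro f; rw [← c4, h.good.symm (f i : ℕ) (f j : ℕ), h.good.symm (f i' : ℕ) (f j : ℕ)]
    rw [SE_congr e, shared j i i' (Ne.symm hij) c3 c1]
    linarith
  · rw [SE4 h.pv_sum hij c1 c2 c3 c4 hij' (fun a b => (M a b : ℝ)) (fun a b => (M a b : ℝ)),
      sum_pv_mul2 (fun a b => (M a b : ℝ)), av2_M]
    have : Sf δ n M / Lt m δ n ^ 2 * (Sf δ n M / Lt m δ n ^ 2)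
        = (Sf δ n M / Lt m δ n ^ 2) ^ 2 := by ring
    rw [this]; linarith

theorem newTri_fact (h : Stp m δ n M) :
    SE (pv m δ n M) (fun f : Fin m → Fin n => (newTri n M f : ℝ) * ((newTri n M f : ℝ) - 1))
      ≤ m ^ 2 * (Uf δ n M / Lt m δ n ^ 2)
        + m ^ 4 * (Rf δ n M / Lt m δ n ^ 3 + (Sf δ n M / Lt m δ n ^ 2) ^ 2) := by
  classical
  set W : (Fin m → Fin n) → Fin m × Fin m → ℝ := fun f x => (M (f x.1) (f x.2) : ℝ) with hW
  have L0 := h.L_pos
  have R0 : 0 ≤ Rf δ n M / Lt m δ n ^ 3 :=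
    div_nonneg (sum_nonneg fun v _ => mul_nonneg (h.wt_nonneg v) (sq_nonneg _)) (by positivity)
  have S0 : 0 ≤ (Sf δ n M / Lt m δ n ^ 2) ^ 2 := sq_nonneg _
  have U0 : 0 ≤ Uf δ n M / Lt m δ n ^ 2 := by
    apply div_nonneg _ (by positivity)
    unfold Uf
    refine sum_nonneg fun a _ => sum_nonneg fun b _ => ?_
    refine mul_nonneg (mul_nonneg ?_ (h.wt_nonneg a)) (h.wt_nonneg b)
    rcases Nat.eq_zero_or_pos (M a b) with h0 | h0
    · rw [h0]; simp
    · have : (1:ℝ) ≤ M a b := by exact_mod_cast h0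
      exact mul_nonneg (by linarith) (by linarith)
  have hJ : ∀ f : Fin m → Fin n, 2 * (newTri n M f : ℝ) = ∑ x, W f x := by
    intro f
    rw [two_newTri h.good f, Fintype.sum_prod_type]
  -- pathwise: J² - 2J split
  have h1 : ∀ f : Fin m → Fin n, 4 * ((newTri n M f : ℝ) * ((newTri n M f : ℝ) - 1))
      ≤ 2 * (∑ x, (W f x ^ 2 - W f x))
        + ∑ x : Fin m × Fin m, ∑ y : Fin m × Fin m,
          (if y = x ∨ y = (x.2, x.1) then 0 else W f x * W f y) := by
    intro f
    have e : 4 * ((newTri n M f : ℝ) * ((newTri n M f : ℝ) - 1))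
        = (∑ x, W f x) * (∑ y, W f y) - 2 * ∑ x, W f x := by
      rw [← hJ f]; ring
    rw [e, sum_mul_sum, mul_sum, mul_sum, ← sum_add_distrib, ← sum_sub_distrib]
    refine sum_le_sum fun x _ => ?_
    have hxx : W f (x.2, x.1) = W f x := by
      simp only [hW]; rw [h.good.symm]
    have hnn : ∀ y, 0 ≤ W f y := fun y => Nat.cast_nonneg _
    -- the inner sum
    have e2 : ∑ y, W f x * W f y
        ≤ 2 * W f x ^ 2 + ∑ y : Fin m × Fin m,
          (if y = x ∨ y = (x.2, x.1) then 0 else W f x * W f y) := by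
      have e3 : ∑ y, W f x * W f y = ∑ y : Fin m × Fin m,
          (if y = x ∨ y = (x.2, x.1) then W f x * W f y else 0)
          + ∑ y : Fin m × Fin m, (if y = x ∨ y = (x.2, x.1) then 0 else W f x * W f y) := by
        rw [← sum_add_distrib]
        refine sum_congr rfl fun y _ => ?_
        split_ifs <;> ring
      rw [e3]
      apply add_le_add_left
      have e4 : ∑ y : Fin m × Fin m, (if y = x ∨ y = (x.2, x.1) then W f x * W f y else 0)
          ≤ ∑ y : Fin m × Fin m, ((if y = x then W f x ^ 2 else 0)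
            + (if y = (x.2, x.1) then W f x ^ 2 else 0)) := by
        refine sum_le_sum fun y _ => ?_
        have hs := sq_nonneg (W f x)
        by_cases c1 : y = x
        · rw [if_pos (Or.inl c1), if_pos c1, c1]
          split_ifs <;> nlinarith
        · by_cases c2 : y = (x.2, x.1)
          · rw [if_pos (Or.inr c2), if_neg c1, if_pos c2, c2, hxx]
            nlinarith
          · rw [if_neg (by tauto), if_neg c1, if_neg c2]; simp
      refine e4.trans (le_of_eq ?_)
      rw [sum_add_distrib, sum_ite_eq', sum_ite_eq']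
      simp
      ring
    linarith
  have h2 := SE_mono h.pv_nonneg h1
  rw [SE_mul_left, SE_add, SE_mul_left, SE_sum, SE_sum] at h2
  have h3 : ∑ x : Fin m × Fin m, SE (pv m δ n M) (fun f => W f x ^ 2 - W f x)
      ≤ m ^ 2 * (Uf δ n M / Lt m δ n ^ 2) := by
    have : ∀ x : Fin m × Fin m, SE (pv m δ n M) (fun f => W f x ^ 2 - W f x)
        ≤ Uf δ n M / Lt m δ n ^ 2 := by
      intro x
      by_cases hx : x.1 = x.2
      · have : ∀ f, W f x ^ 2 - W f x = 0 := by
          intro f
          simp only [hW]; rw [hx, h.good.diag]; simp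
        rw [SE_congr this, SE_const h.pv_sum]
        exact U0
      · have e : ∀ f, W f x ^ 2 - W f x
            = (M (f x.1) (f x.2) : ℝ) * ((M (f x.1) (f x.2) : ℝ) - 1) := by
          intro f; simp only [hW]; ring
        rw [SE_congr e, SE2 h.pv_sum hx (fun a b => (M a b : ℝ) * ((M a b : ℝ) - 1)),
          sum_pv_mul2 (fun a b => (M a b : ℝ) * ((M a b : ℝ) - 1))]
        apply le_of_eq
        unfold av2 Uf
        congr 1
        exact sum_congr rfl fun a _ => sum_congr rfl fun b _ => by ring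
    refine (sum_le_sum fun x _ => this x).trans (le_of_eq ?_)
    simp [Fintype.card_prod, sq]
  have h4 : ∑ x : Fin m × Fin m, SE (pv m δ n M) (fun f => ∑ y : Fin m × Fin m,
          (if y = x ∨ y = (x.2, x.1) then 0 else W f x * W f y))
      ≤ m ^ 4 * (Rf δ n M / Lt m δ n ^ 3 + (Sf δ n M / Lt m δ n ^ 2) ^ 2) := by
    have : ∀ x y : Fin m × Fin m, SE (pv m δ n M) (fun f =>
          (if y = x ∨ y = (x.2, x.1) then 0 else W f x * W f y))
        ≤ Rf δ n M / Lt m δ n ^ 3 + (Sf δ n M / Lt m δ n ^ 2) ^ 2 := by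
      intro x y
      by_cases c : y = x ∨ y = (x.2, x.1)
      · simp only [if_pos c]
        rw [SE_const h.pv_sum]
        linarith
      · simp only [if_neg c]
        push Not at c
        apply pair_prod_le h
        · rintro ⟨e1, e2⟩
          exact c.1 (Prod.ext e1 e2)
        · rintro ⟨e1, e2⟩
          exact c.2 (Prod.ext e1 e2)
    have h5 : ∀ x : Fin m × Fin m, SE (pv m δ n M) (fun f => ∑ y : Fin m × Fin m,
          (if y = x ∨ y = (x.2, x.1) then 0 else W f x * W f y))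
        ≤ ∑ y : Fin m × Fin m, (Rf δ n M / Lt m δ n ^ 3 + (Sf δ n M / Lt m δ n ^ 2) ^ 2) := by
      intro x
      rw [SE_sum]
      exact sum_le_sum fun y _ => this x y
    refine (sum_le_sum fun x _ => h5 x).trans (le_of_eq ?_)
    simp [Fintype.card_prod]
    ring
  have m0 : (0:ℝ) ≤ m ^ 2 := by positivity
  have m4 : (0:ℝ) ≤ m ^ 4 := by positivity
  have t1 := mul_nonneg m0 U0
  have t2 := mul_nonneg m4 (add_nonneg R0 S0)
  linarith

theorem newTri_fact_nonneg (f : Fin m → Fin n) :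
    0 ≤ (newTri n M f : ℝ) * ((newTri n M f : ℝ) - 1) := by
  rcases Nat.eq_zero_or_pos (newTri n M f) with h0 | h0
  · rw [h0]; simp
  · have : (1:ℝ) ≤ newTri n M f := by exact_mod_cast h0
    exact mul_nonneg (by linarith) (by linarith)

end
end MP751612
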