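import Pool.Agent.Lib.MP_751612_pr.HMoment
import Pool.Agent.Lib.MP_751612_pr.Growth

/-! Recursions and bounds for the moments of the functionals. -/

open Filter Topology
open scoped BigOperators

namespace MP751612

variable {m : ℕ} {δ : ℝ}

theorem stp_graph (hm : 1 ≤ m) (hδ : 0 < δ) (k : ℕ) (ω : Hist m k) :
    Stp m δ (k + 2) (graph m k ω) := by
  refine ⟨goodG_graph m k ω, hδ, hm, by omega, ?_⟩
  unfold wt Lt
  rw [Finset.sum_add_distrib]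
  have := sum_deg m k ω
  have h2 : ∑ v ∈ Finset.range (k + 2), ((deg (k + 2) (graph m k ω) v : ℕ) : ℝ)
      = 2 * m * (k + 1) := by exact_mod_cast this
  rw [h2]
  simp only [Finset.sum_const, Finset.card_range, nsmul_eq_mul]
  push_cast
  ring

/-- expectation of a functional of the graph -/
noncomputable def EG (m : ℕ) {δ : ℝ} (hδ : 0 < δ) (k : ℕ) (Φ : ℕ → MGraph → ℝ) : ℝ :=
  Ex m hδ k (fun ω => Φ (k + 2) (graph m k ω))

noncomputable def VG (m : ℕ) {δ : ℝ} (hδ : 0 < δ) (k : ℕ) (Φ : ℕ → MGraph → ℝ) : ℝ :=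
  Ex m hδ k (fun ω => (Φ (k + 2) (graph m k ω) - EG m hδ k Φ) ^ 2)

theorem VG_nonneg (hδ : 0 < δ) (k : ℕ) (Φ : ℕ → MGraph → ℝ) : 0 ≤ VG m hδ k Φ :=
  Ex_nonneg m hδ k fun _ => sq_nonneg _

theorem EG_succ (hδ : 0 < δ) (k : ℕ) (Φ : ℕ → MGraph → ℝ) :
    EG m hδ (k + 1) Φ = Ex m hδ k (fun ω => SE (pv m δ (k + 2) (graph m k ω))
      (fun f : Fin m → Fin (k + 2) => Φ (k + 2 + 1) (attach (k + 2) (graph m k ω) f))) := by
  unfold EG
  rw [Ex_succ]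
  rfl

noncomputable def Ls (m : ℕ) (δ : ℝ) (k : ℕ) : ℝ := Lt m δ (k + 2)

noncomputable def al (m : ℕ) (δ : ℝ) (k : ℕ) : ℝ :=
  1 + 2 * m / Ls m δ k + m * (m - 1) / Ls m δ k ^ 2

noncomputable def ga (m : ℕ) (δ : ℝ) (k : ℕ) : ℝ :=
  2 * (m + δ) * (m / Ls m δ k + m * (m - 1) / Ls m δ k ^ 2)

theorem q_rec (hm : 1 ≤ m) (hδ : 0 < δ) (k : ℕ) :
    EG m hδ (k + 1) (Qf δ) = al m δ k * EG m hδ k (Qf δ) + (m + (m + δ) ^ 2) := by
  rw [EG_succ, Ex_congr m hδ k fun ω => step_Q (stp_graph hm hδ k ω), Ex_add, Ex_const]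
  rw [show (fun ω : Hist m k => (1 + 2 * (m:ℝ) / Lt m δ (k + 2) + m * (m - 1) / Lt m δ (k + 2) ^ 2)
    * Qf δ (k + 2) (graph m k ω)) = fun ω => al m δ k * Qf δ (k + 2) (graph m k ω) from rfl,
    Ex_mul_left]
  rfl

theorem s_rec (hm : 1 ≤ m) (hδ : 0 < δ) (k : ℕ) :
    EG m hδ (k + 1) (Sf δ) = al m δ k * EG m hδ k (Sf δ) + ga m δ k * EG m hδ k (Qf δ)
      + 2 * (m + δ) * m := by
  rw [EG_succ, Ex_congr m hδ k fun ω => step_S (stp_graph hm hδ k ω), Ex_add, Ex_const, Ex_add,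
    Ex_mul_left, Ex_mul_left]
  rfl

theorem c_rec (hm : 1 ≤ m) (hδ : 0 < δ) (k : ℕ) :
    EG m hδ (k + 1) (Cf δ) ≤ (1 + 3 * m / Ls m δ k) * EG m hδ k (Cf δ)
      + (3 * m ^ 2 * EG m hδ k (Qf δ) / Ls m δ k + (m ^ 3 + (m + δ) ^ 3)) := by
  rw [EG_succ]
  refine (Ex_mono m hδ k fun ω => step_C_le (stp_graph hm hδ k ω)).trans (le_of_eq ?_)
  rw [Ex_add, Ex_const, Ex_add, Ex_mul_left]
  have : ∀ ω : Hist m k, 3 * (m:ℝ) ^ 2 * Qf δ (k + 2) (graph m k ω) / Lt m δ (k + 2)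
      = (3 * m ^ 2 / Lt m δ (k + 2)) * Qf δ (k + 2) (graph m k ω) := fun ω => by ring
  rw [Ex_congr m hδ k this, Ex_mul_left]
  unfold EG Ls
  ring

theorem u_rec (hm : 1 ≤ m) (hδ : 0 < δ) (k : ℕ) :
    EG m hδ (k + 1) (Uf δ) ≤ al m δ k * EG m hδ k (Uf δ)
      + 4 * (m + δ) * m * (m - 1) * EG m hδ k (Cf δ) / Ls m δ k ^ 2 := by
  rw [EG_succ]
  refine (Ex_mono m hδ k fun ω => step_U_le (stp_graph hm hδ k ω)).trans (le_of_eq ?_)
  rw [Ex_add, Ex_mul_left]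
  have : ∀ ω : Hist m k, 4 * ((m:ℝ) + δ) * m * (m - 1) * Cf δ (k + 2) (graph m k ω)
        / Lt m δ (k + 2) ^ 2
      = (4 * ((m:ℝ) + δ) * m * (m - 1) / Lt m δ (k + 2) ^ 2) * Cf δ (k + 2) (graph m k ω) :=
    fun ω => by ring
  rw [Ex_congr m hδ k this, Ex_mul_left]
  unfold EG Ls al
  unfold Ls
  ring

theorem r_rec (hm : 1 ≤ m) (hδ : 0 < δ) {ε : ℝ} (hε : 0 < ε) (k : ℕ) :
    EG m hδ (k + 1) (Rf δ) ≤ (1 + (3 + 2 * ε) * m / Ls m δ k) * EG m hδ k (Rf δ)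
      + KR m δ ε * ((EG m hδ k (Cf δ) + EG m hδ k (Sf δ) + EG m hδ k (Qf δ)) / Ls m δ k) := by
  rw [EG_succ]
  refine (Ex_mono m hδ k fun ω => step_R_le (stp_graph hm hδ k ω) hε).trans (le_of_eq ?_)
  rw [Ex_add, Ex_mul_left, Ex_mul_left]
  have : ∀ ω : Hist m k, (Cf δ (k + 2) (graph m k ω) + Sf δ (k + 2) (graph m k ω)
      + Qf δ (k + 2) (graph m k ω)) / Lt m δ (k + 2)
      = (1 / Lt m δ (k + 2)) * (Cf δ (k + 2) (graph m k ω) + Sf δ (k + 2) (graph m k ω)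
      + Qf δ (k + 2) (graph m k ω)) := fun ω => by ring
  rw [Ex_congr m hδ k this, Ex_mul_left, Ex_add, Ex_add]
  unfold EG Ls
  ring

theorem SE_bias_var {n : ℕ} {M : MGraph} (h : Stp m δ n M) (F : (Fin m → Fin n) → ℝ) (c : ℝ) :
    SE (pv m δ n M) (fun f => (F f - c) ^ 2)
      = SE (pv m δ n M) (fun f => (F f - SE (pv m δ n M) F) ^ 2)
        + (SE (pv m δ n M) F - c) ^ 2 := by
  have e : ∀ d : ℝ, SE (pv m δ n M) (fun f => (F f - d) ^ 2)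
      = SE (pv m δ n M) (fun f => F f ^ 2) - 2 * d * SE (pv m δ n M) F + d ^ 2 := by
    intro d
    have : ∀ f : Fin m → Fin n, (F f - d) ^ 2 = F f ^ 2 - (2 * d) * F f + d ^ 2 := fun f => by ring
    rw [SE_congr this, SE_add, SE_sub, SE_mul_left, SE_const h.pv_sum]
  rw [e, e]
  ring

theorem VG_succ (hm : 1 ≤ m) (hδ : 0 < δ) (k : ℕ) (Φ : ℕ → MGraph → ℝ) :
    VG m hδ (k + 1) Φ = Ex m hδ k (fun ω =>
        SE (pv m δ (k + 2) (graph m k ω)) (fun f : Fin m → Fin (k + 2) =>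
          (Φ (k + 2 + 1) (attach (k + 2) (graph m k ω) f)
            - SE (pv m δ (k + 2) (graph m k ω)) (fun f : Fin m → Fin (k + 2) =>
                Φ (k + 2 + 1) (attach (k + 2) (graph m k ω) f))) ^ 2))
      + Ex m hδ k (fun ω => (SE (pv m δ (k + 2) (graph m k ω)) (fun f : Fin m → Fin (k + 2) =>
                Φ (k + 2 + 1) (attach (k + 2) (graph m k ω) f)) - EG m hδ (k + 1) Φ) ^ 2) := by
  rw [← Ex_add]
  have : VG m hδ (k + 1) Φ = Ex m hδ k (fun ω => SE (pv m δ (k + 2) (graph m k ω))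
      (fun f : Fin m → Fin (k + 2) =>
        (Φ (k + 2 + 1) (attach (k + 2) (graph m k ω) f) - EG m hδ (k + 1) Φ) ^ 2)) := by
    unfold VG
    rw [Ex_succ]
    rfl
  rw [this]
  exact Ex_congr m hδ k fun ω => SE_bias_var (stp_graph hm hδ k ω) _ _

theorem vQ_rec (hm : 1 ≤ m) (hδ : 0 < δ) (k : ℕ) :
    VG m hδ (k + 1) (Qf δ) ≤ al m δ k ^ 2 * VG m hδ k (Qf δ)
      + 9 * m ^ 2 * (EG m hδ k (Cf δ) / Ls m δ k) := by
  rw [VG_succ hm hδ k, add_comm]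
  apply add_le_add
  · have e : ∀ ω : Hist m k, (SE (pv m δ (k + 2) (graph m k ω)) (fun f : Fin m → Fin (k + 2) =>
                Qf δ (k + 2 + 1) (attach (k + 2) (graph m k ω) f)) - EG m hδ (k + 1) (Qf δ)) ^ 2
        = al m δ k ^ 2 * (Qf δ (k + 2) (graph m k ω) - EG m hδ k (Qf δ)) ^ 2 := by
      intro ω
      rw [step_Q (stp_graph hm hδ k ω), q_rec hm hδ k]
      unfold al Ls
      ring
    rw [Ex_congr m hδ k e, Ex_mul_left]
    rfl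
  · refine (Ex_mono m hδ k fun ω => var_Q_le (stp_graph hm hδ k ω)).trans (le_of_eq ?_)
    have : ∀ ω : Hist m k, 9 * (m:ℝ) ^ 2 * (Cf δ (k + 2) (graph m k ω) / Lt m δ (k + 2))
      = (9 * m ^ 2 / Lt m δ (k + 2)) * Cf δ (k + 2) (graph m k ω) := fun ω => by ring
    rw [Ex_congr m hδ k this, Ex_mul_left]
    unfold EG Ls
    ring

theorem vS_rec (hm : 1 ≤ m) (hδ : 0 < δ) (k : ℕ) {t : ℝ} (ht : 0 < t) :
    VG m hδ (k + 1) (Sf δ) ≤ ((1 + t) * al m δ k ^ 2) * VG m hδ k (Sf δ)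
      + ((1 + 1 / t) * ga m δ k ^ 2 * VG m hδ k (Qf δ)
        + (3 + 4 * (m + δ)) ^ 2 * m ^ 2 * (EG m hδ k (Rf δ) / Ls m δ k)) := by
  rw [VG_succ hm hδ k, add_comm, ← add_assoc]
  apply add_le_add
  · have e : ∀ ω : Hist m k, (SE (pv m δ (k + 2) (graph m k ω)) (fun f : Fin m → Fin (k + 2) =>
                Sf δ (k + 2 + 1) (attach (k + 2) (graph m k ω) f)) - EG m hδ (k + 1) (Sf δ)) ^ 2
        ≤ ((1 + t) * al m δ k ^ 2) * (Sf δ (k + 2) (graph m k ω) - EG m hδ k (Sf δ)) ^ 2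
          + ((1 + 1 / t) * ga m δ k ^ 2) * (Qf δ (k + 2) (graph m k ω) - EG m hδ k (Qf δ)) ^ 2 := by
      intro ω
      rw [step_S (stp_graph hm hδ k ω), s_rec hm hδ k]
      set x := al m δ k * (Sf δ (k + 2) (graph m k ω) - EG m hδ k (Sf δ)) with hx
      set y := ga m δ k * (Qf δ (k + 2) (graph m k ω) - EG m hδ k (Qf δ)) with hy
      have e1 : (1 + 2 * (m:ℝ) / Lt m δ (k + 2) + m * (m - 1) / Lt m δ (k + 2) ^ 2)
            * Sf δ (k + 2) (graph m k ω)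
          + 2 * (m + δ) * (m / Lt m δ (k + 2) + m * (m - 1) / Lt m δ (k + 2) ^ 2)
            * Qf δ (k + 2) (graph m k ω)
          + 2 * (m + δ) * m
          - (al m δ k * EG m hδ k (Sf δ) + ga m δ k * EG m hδ k (Qf δ) + 2 * (m + δ) * m)
          = x + y := by
        rw [hx, hy]
        unfold al ga Ls
        ring
      rw [e1]
      have e2 : ((1 + t) * al m δ k ^ 2) * (Sf δ (k + 2) (graph m k ω) - EG m hδ k (Sf δ)) ^ 2
          = (1 + t) * x ^ 2 := by rw [hx]; ring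
      have e3 : ((1 + 1 / t) * ga m δ k ^ 2) * (Qf δ (k + 2) (graph m k ω) - EG m hδ k (Qf δ)) ^ 2
          = (1 + 1 / t) * y ^ 2 := by rw [hy]; ring
      rw [e2, e3]
      have h1 : 0 ≤ (1 / t) * (t * x - y) ^ 2 := by positivity
      have h2 : (1 / t) * (t * x - y) ^ 2 = t * x ^ 2 - 2 * x * y + (1 / t) * y ^ 2 := by
        field_simp
        ring
      nlinarith
    refine (Ex_mono m hδ k e).trans (le_of_eq ?_)
    rw [Ex_add, Ex_mul_left, Ex_mul_left]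
    rfl
  · refine (Ex_mono m hδ k fun ω => var_S_le (stp_graph hm hδ k ω)).trans (le_of_eq ?_)
    have : ∀ ω : Hist m k, (3 + 4 * ((m:ℝ) + δ)) ^ 2 * m ^ 2
          * (Rf δ (k + 2) (graph m k ω) / Lt m δ (k + 2))
        = ((3 + 4 * ((m:ℝ) + δ)) ^ 2 * m ^ 2 / Lt m δ (k + 2)) * Rf δ (k + 2) (graph m k ω) :=
      fun ω => by ring
    rw [Ex_congr m hδ k this, Ex_mul_left]
    unfold EG Ls
    ring

end MP751612
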