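import Pool.Agent.Lib.MP_751612_pr.SteinNormal

/-! Poisson semigroup acting on Lipschitz functions on `ℕ`. -/

open MeasureTheory ProbabilityTheory
open scoped ENNReal NNReal

namespace MP751612

/-- `h` is `a`-Lipschitz on `ℕ`. -/
def Lip (a : ℝ) (h : ℕ → ℝ) : Prop := ∀ i j : ℕ, |h i - h j| ≤ a * |(i:ℝ) - j|

/-- the Poisson semigroup -/
noncomputable def PoS (s : ℝ≥0) (h : ℕ → ℝ) (x : ℕ) : ℝ := ∫ j, h (x + j) ∂(poissonMeasure s)

theorem Lip.bound {a : ℝ} (ha : 0 ≤ a) {h : ℕ → ℝ} (hh : Lip a h) (x j : ℕ) :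
    |h (x + j)| ≤ (|h x| + a) * Real.exp j := by
  have h1 := hh (x + j) x
  have e : |((x + j : ℕ) : ℝ) - x| = j := by
    push_cast; rw [add_sub_cancel_left]; exact abs_of_nonneg (Nat.cast_nonneg _)
  rw [e] at h1
  have h2 : |h (x + j)| ≤ |h x| + a * j := by
    have := abs_sub_abs_le_abs_sub (h (x + j)) (h x)
    linarith
  have h3 : (j:ℝ) + 1 ≤ Real.exp j := Real.add_one_le_exp _
  have h4 := abs_nonneg (h x)
  have h5 : (0:ℝ) ≤ j := Nat.cast_nonneg _
  nlinarith [mul_nonneg h4 h5, mul_nonneg ha h5]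

theorem Lip.integrable {a : ℝ} (ha : 0 ≤ a) {h : ℕ → ℝ} (hh : Lip a h) (s : ℝ≥0) (x : ℕ) :
    Integrable (fun j => h (x + j)) (poissonMeasure s) :=
  SN.integrable_po s (hh.bound ha x)

theorem PoS_lip {a : ℝ} (ha : 0 ≤ a) {h : ℕ → ℝ} (hh : Lip a h) (s : ℝ≥0) : Lip a (PoS s h) := by
  intro x y
  unfold PoS
  rw [← integral_sub (hh.integrable ha s x) (hh.integrable ha s y)]
  refine (abs_integral_le_integral_abs).trans ?_
  have : ∀ j : ℕ, |h (x + j) - h (y + j)| ≤ a * |(x:ℝ) - y| := by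
    intro j
    refine (hh _ _).trans (le_of_eq ?_)
    push_cast
    congr 2
    ring
  calc ∫ j, |h (x + j) - h (y + j)| ∂(poissonMeasure s)
      ≤ ∫ _j, a * |(x:ℝ) - y| ∂(poissonMeasure s) :=
        integral_mono ((hh.integrable ha s x).sub (hh.integrable ha s y)).abs
          (integrable_const _) this
    _ = _ := by simp

theorem PoS_comp {a : ℝ} (ha : 0 ≤ a) {h : ℕ → ℝ} (hh : Lip a h) (c s : ℝ≥0) (x : ℕ) :
    PoS c (PoS s h) x = PoS (c + s) h x := by
  unfold PoS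
  rw [← poissonMeasure_conv_poissonMeasure, Measure.conv]
  have hm : AEMeasurable (fun p : ℕ × ℕ => p.1 + p.2) ((poissonMeasure c).prod (poissonMeasure s)) :=
    (measurable_fst.add measurable_snd).aemeasurable
  have hI : Integrable (fun j => h (x + j)) (((poissonMeasure c).prod (poissonMeasure s)).map
      fun p : ℕ × ℕ => p.1 + p.2) := by
    have := hh.integrable ha (c + s) x
    rw [← poissonMeasure_conv_poissonMeasure, Measure.conv] at this
    exact this
  have hsm : AEStronglyMeasurable (fun j => h (x + j))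
      (((poissonMeasure c).prod (poissonMeasure s)).map fun p : ℕ × ℕ => p.1 + p.2) :=
    hI.aestronglyMeasurable
  rw [integral_map hm hsm, integral_prod]
  · refine integral_congr_ae (Filter.Eventually.of_forall fun i => ?_)
    refine integral_congr_ae (Filter.Eventually.of_forall fun j => ?_)
    simp only [add_assoc]
  · exact (integrable_map_measure hsm hm).mp hI

theorem PoS_zero (h : ℕ → ℝ) (x : ℕ) : PoS 0 h x = h x := by
  unfold PoS
  rw [integral_poissonMeasure, tsum_eq_single 0]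
  · simp
  · intro n hn
    simp [hn]

theorem hasSum_pw (c : ℝ≥0) : HasSum (fun j => SN.pw c j) 1 := hasSum_one_poissonMeasure c

theorem integral_po_eq (c : ℝ≥0) (F : ℕ → ℝ) :
    ∫ j, F j ∂(poissonMeasure c) = ∑' j, SN.pw c j * F j := by
  rw [integral_poissonMeasure]; rfl

theorem summable_pw_id (c : ℝ≥0) : Summable fun j : ℕ => SN.pw c j * (j:ℝ) := by
  apply SN.summable_pw c (A := 1)
  intro j
  rw [abs_of_nonneg (Nat.cast_nonneg _), one_mul]
  linarith [Real.add_one_le_exp (j:ℝ)]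

theorem sq_le_exp (j : ℕ) : (j:ℝ) ^ 2 ≤ 2 * Real.exp j := by
  have := Real.pow_div_factorial_le_exp (j:ℝ) (Nat.cast_nonneg _) 2
  rw [div_le_iff₀ (by positivity)] at this
  simpa [mul_comm] using this

theorem summable_pw_fact (c : ℝ≥0) : Summable fun j : ℕ => SN.pw c j * ((j:ℝ) * ((j:ℝ) - 1)) := by
  apply SN.summable_pw c (A := 3)
  intro j
  have h1 := sq_le_exp j
  have h2 : (0:ℝ) ≤ j := Nat.cast_nonneg _
  have h3 := Real.add_one_le_exp (j:ℝ)
  have h4 : |(j:ℝ) * ((j:ℝ) - 1)| ≤ j ^ 2 + j := by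
    rw [abs_le]; constructor <;> nlinarith
  linarith

theorem mean_po (c : ℝ≥0) : ∫ j : ℕ, (j:ℝ) ∂(poissonMeasure c) = c := by
  rw [integral_po_eq, (summable_pw_id c).tsum_eq_zero_add]
  simp only [Nat.cast_zero, mul_zero, zero_add]
  have : ∀ j : ℕ, SN.pw c (j + 1) * ((j + 1 : ℕ) : ℝ) = c * SN.pw c j := SN.pw_succ c
  simp only [this]
  rw [tsum_mul_left, (hasSum_pw c).tsum_eq, mul_one]

theorem fact_po (c : ℝ≥0) : ∫ j : ℕ, (j:ℝ) * ((j:ℝ) - 1) ∂(poissonMeasure c) = (c:ℝ) ^ 2 := by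
  rw [integral_po_eq, (summable_pw_fact c).tsum_eq_zero_add]
  simp only [Nat.cast_zero, zero_mul, mul_zero, zero_add]
  have : ∀ j : ℕ, SN.pw c (j + 1) * (((j + 1 : ℕ) : ℝ) * (((j + 1 : ℕ) : ℝ) - 1))
      = c * (SN.pw c j * (j:ℝ)) := by
    intro j
    rw [← mul_assoc, SN.pw_succ c]
    push_cast
    ring
  simp only [this]
  rw [tsum_mul_left, ← integral_po_eq c (fun j => (j:ℝ)), mean_po]
  ring

theorem integrable_po_id (c : ℝ≥0) : Integrable (fun j : ℕ => (j:ℝ)) (poissonMeasure c) :=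
  SN.integrable_po c (A := 1) fun j => by
    rw [abs_of_nonneg (Nat.cast_nonneg _), one_mul]
    linarith [Real.add_one_le_exp (j:ℝ)]

theorem integrable_po_fact (c : ℝ≥0) :
    Integrable (fun j : ℕ => (j:ℝ) * ((j:ℝ) - 1)) (poissonMeasure c) :=
  SN.integrable_po c (A := 3) fun j => by
    have h1 := sq_le_exp j
    have h2 : (0:ℝ) ≤ j := Nat.cast_nonneg _
    have h3 := Real.add_one_le_exp (j:ℝ)
    have h4 : |(j:ℝ) * ((j:ℝ) - 1)| ≤ j ^ 2 + j := by
      rw [abs_le]; constructor <;> nlinarith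
    linarith

theorem var_po (c : ℝ≥0) : ∫ j : ℕ, ((j:ℝ) - c) ^ 2 ∂(poissonMeasure c) = c := by
  have e : ∀ j : ℕ, ((j:ℝ) - c) ^ 2 = ((j:ℝ) * ((j:ℝ) - 1) + (1 - 2 * c) * (j:ℝ)) + (c:ℝ) ^ 2 :=
    fun j => by ring
  simp only [e]
  have i1 := integrable_po_fact c
  have i2 := (integrable_po_id c).const_mul (1 - 2 * (c:ℝ))
  have i3 : Integrable (fun j : ℕ => (j:ℝ) * ((j:ℝ) - 1) + (1 - 2 * c) * (j:ℝ))
    (poissonMeasure c) := i1.add i2
  rw [integral_add i3 (integrable_const _), integral_add i1 i2, integral_const_mul,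
    mean_po, fact_po]
  simp
  ring

theorem integrable_po_sq (c : ℝ≥0) :
    Integrable (fun j : ℕ => ((j:ℝ) - c) ^ 2) (poissonMeasure c) := by
  have e : (fun j : ℕ => ((j:ℝ) - c) ^ 2)
      = fun j : ℕ => ((j:ℝ) * ((j:ℝ) - 1) + (1 - 2 * c) * (j:ℝ)) + (c:ℝ) ^ 2 := by
    funext j; ring
  rw [e]
  have i1 := integrable_po_fact c
  have i2 := (integrable_po_id c).const_mul (1 - 2 * (c:ℝ))
  have i3 : Integrable (fun j : ℕ => (j:ℝ) * ((j:ℝ) - 1) + (1 - 2 * c) * (j:ℝ))
    (poissonMeasure c) := i1.add i2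
  exact i3.add (integrable_const _)

theorem amgm_aux {s x : ℝ} (hs : 0 < s) : |x| ≤ (1 / (2 * s)) * x ^ 2 + s / 2 := by
  have h1 := sq_nonneg (|x| - s)
  rw [sub_sq, sq_abs] at h1
  have h2 : (1 / (2 * s)) * x ^ 2 + s / 2 = (x ^ 2 + s ^ 2) / (2 * s) := by
    field_simp
  rw [h2, le_div_iff₀ (by positivity)]
  nlinarith

theorem absdev_po {c : ℝ≥0} (hc : 0 < c) :
    ∫ j : ℕ, |(j:ℝ) - c| ∂(poissonMeasure c) ≤ √(c:ℝ) := by
  have hs : 0 < √(c:ℝ) := Real.sqrt_pos.mpr (by exact_mod_cast hc)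
  have hss : √(c:ℝ) * √(c:ℝ) = c := Real.mul_self_sqrt c.coe_nonneg
  have i0 : Integrable (fun j : ℕ => |(j:ℝ) - c|) (poissonMeasure c) := by
    have : Integrable (fun j : ℕ => (j:ℝ) - c) (poissonMeasure c) :=
      (integrable_po_id c).sub (integrable_const _)
    exact this.abs
  have i2 := (integrable_po_sq c).const_mul (1 / (2 * √(c:ℝ)))
  have i3 : Integrable (fun j : ℕ => (1 / (2 * √(c:ℝ))) * ((j:ℝ) - c) ^ 2 + √(c:ℝ) / 2)
    (poissonMeasure c) := i2.add (integrable_const _)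
  have key : ∀ j : ℕ, |(j:ℝ) - c| ≤ (1 / (2 * √(c:ℝ))) * ((j:ℝ) - c) ^ 2 + √(c:ℝ) / 2 :=
    fun j => amgm_aux hs
  refine (integral_mono i0 i3 key).trans (le_of_eq ?_)
  rw [integral_add i2 (integrable_const _), integral_const_mul, var_po]
  simp only [integral_const, probReal_univ, smul_eq_mul, one_mul]
  generalize √(c:ℝ) = s at hs hss
  rw [← hss]
  field_simp
  ring

/-- first-order expansion of the Poisson semigroup -/
theorem PoS_expand {a : ℝ} (ha : 0 ≤ a) {g : ℕ → ℝ} (hg : Lip a g) (c : ℝ≥0) (x : ℕ) :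
    |PoS c g x - g x - (g (x + 1) - g x) * c| ≤ 2 * a * (c:ℝ) ^ 2 := by
  have e : PoS c g x - g x - (g (x + 1) - g x) * c
      = ∫ j : ℕ, (g (x + j) - g x - (g (x + 1) - g x) * (j:ℝ)) ∂(poissonMeasure c) := by
    have i1 := hg.integrable ha c x
    have i2 : Integrable (fun j : ℕ => g (x + j) - g x) (poissonMeasure c) :=
      i1.sub (integrable_const _)
    have i3 := (integrable_po_id c).const_mul (g (x + 1) - g x)
    rw [integral_sub i2 i3, integral_sub i1 (integrable_const _), integral_const_mul, mean_po]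
    simp [PoS]
  rw [e]
  have key : ∀ j : ℕ, |g (x + j) - g x - (g (x + 1) - g x) * (j:ℝ)|
      ≤ 2 * a * ((j:ℝ) * ((j:ℝ) - 1)) := by
    intro j
    rcases Nat.lt_or_ge j 2 with h | h
    · interval_cases j <;> simp
    · have h1 := hg (x + j) x
      have h2 := hg (x + 1) x
      have e1 : |((x + j : ℕ) : ℝ) - x| = j := by
        push_cast; rw [add_sub_cancel_left]; exact abs_of_nonneg (Nat.cast_nonneg _)
      have e2 : |((x + 1 : ℕ) : ℝ) - x| = 1 := by
        push_cast; rw [add_sub_cancel_left]; exact abs_one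
      rw [e1] at h1
      rw [e2, mul_one] at h2
      have hj : (2:ℝ) ≤ j := by exact_mod_cast h
      have h3 : |g (x + j) - g x - (g (x + 1) - g x) * (j:ℝ)|
          ≤ |g (x + j) - g x| + |(g (x + 1) - g x) * (j:ℝ)| := abs_sub _ _
      rw [abs_mul, abs_of_nonneg (Nat.cast_nonneg j : (0:ℝ) ≤ j)] at h3
      have h4 : |g (x + 1) - g x| * (j:ℝ) ≤ a * j :=
        mul_le_mul_of_nonneg_right h2 (Nat.cast_nonneg j)
      have h5 : (j:ℝ) ≤ j * (j - 1) := by nlinarith
      nlinarith [mul_le_mul_of_nonneg_left h5 ha]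
  refine (abs_integral_le_integral_abs).trans ?_
  have i1 : Integrable (fun j : ℕ => g (x + j) - g x - (g (x + 1) - g x) * (j:ℝ))
      (poissonMeasure c) :=
    ((hg.integrable ha c x).sub (integrable_const _)).sub ((integrable_po_id c).const_mul _)
  calc ∫ j : ℕ, |g (x + j) - g x - (g (x + 1) - g x) * (j:ℝ)| ∂(poissonMeasure c)
      ≤ ∫ j : ℕ, 2 * a * ((j:ℝ) * ((j:ℝ) - 1)) ∂(poissonMeasure c) :=
        integral_mono i1.abs ((integrable_po_fact c).const_mul _) key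
    _ = _ := by rw [integral_const_mul, fact_po]

end MP751612
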