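import Mathlib

/-!
The distance `W₁` between a normalised Poisson law and `N(0,1)`, by Stein's method.
-/

open MeasureTheory ProbabilityTheory Set Filter
open scoped ENNReal NNReal Topology

namespace MP751612

namespace SN

/-- the Gaussian weight -/
noncomputable def ph (t : ℝ) : ℝ := Real.exp (-(1 / 2) * t ^ 2)

theorem ph_pos (t : ℝ) : 0 < ph t := Real.exp_pos _

theorem ph_neg (t : ℝ) : ph (-t) = ph t := by unfold ph; rw [neg_sq]

theorem continuous_ph : Continuous ph := by unfold ph; fun_prop

theorem hasDerivAt_ph (t : ℝ) : HasDerivAt ph (-(t * ph t)) t := by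
  unfold ph
  refine HasDerivAt.congr_deriv (((hasDerivAt_id t).pow 2).const_mul (-(1 / 2) : ℝ)).exp ?_
  simp
  ring

theorem integrable_ph : Integrable ph := integrable_exp_neg_mul_sq (by norm_num)

theorem integrable_tph : Integrable (fun t => t * ph t) :=
  integrable_mul_exp_neg_mul_sq (by norm_num)

theorem integrable_abs_tph : Integrable (fun t => |t| * ph t) := by
  refine integrable_tph.abs.congr (Eventually.of_forall fun t => ?_)
  simp only [abs_mul, abs_of_pos (ph_pos t)]

theorem tendsto_ph : Tendsto ph atTop (𝓝 0) := by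
  have h1 : Tendsto (fun t : ℝ => -(1 / 2) * t ^ 2) atTop atBot := by
    apply Tendsto.const_mul_atTop_of_neg (by norm_num)
    exact tendsto_pow_atTop (by norm_num)
  exact Real.tendsto_exp_atBot.comp h1

theorem tail_one (x : ℝ) : ∫ t in Ioi x, t * ph t = ph x := by
  have h := integral_Ioi_of_hasDerivAt_of_tendsto' (a := x) (f := fun t => -ph t)
    (f' := fun t => t * ph t) (m := 0) ?_ integrable_tph.integrableOn ?_
  · rw [h]; ring
  · intro t _
    exact ((hasDerivAt_ph t).neg).congr_deriv (by ring)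
  · simpa using tendsto_ph.neg

theorem tail_upper (x : ℝ) : x * ∫ t in Ioi x, ph t ≤ ph x := by
  rw [← tail_one x, ← integral_const_mul]
  refine setIntegral_mono_on (integrable_ph.const_mul x).integrableOn
    integrable_tph.integrableOn measurableSet_Ioi fun t ht => ?_
  exact mul_le_mul_of_nonneg_right ht.out.le (ph_pos t).le

theorem tail_lower (x : ℝ) : x / (1 + x ^ 2) * ph x ≤ ∫ t in Ioi x, ph t := by
  have hi : IntegrableOn (fun t => ph t * (1 - 2 / (1 + t ^ 2) ^ 2)) (Ioi x) := by
    refine Integrable.integrableOn (integrable_ph.mul_bdd (c := 1) ?_ (Eventually.of_forall ?_))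
    · apply Continuous.aestronglyMeasurable
      apply Continuous.sub continuous_const
      apply Continuous.div continuous_const (by fun_prop)
      intro t
      positivity
    · intro t
      have h1 : 1 ≤ (1 + t ^ 2) ^ 2 := one_le_pow₀ (by nlinarith [sq_nonneg t])
      have h2 : 2 / (1 + t ^ 2) ^ 2 ≤ 2 := by
        rw [div_le_iff₀ (by positivity)]; linarith
      have h3 : 0 ≤ 2 / (1 + t ^ 2) ^ 2 := by positivity
      rw [Real.norm_eq_abs, abs_le]
      constructor <;> linarith
  have h := integral_Ioi_of_hasDerivAt_of_tendsto' (a := x) (f := fun t => -(t / (1 + t ^ 2) * ph t))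
    (f' := fun t => ph t * (1 - 2 / (1 + t ^ 2) ^ 2)) (m := 0) ?_ hi ?_
  · calc x / (1 + x ^ 2) * ph x = ∫ t in Ioi x, ph t * (1 - 2 / (1 + t ^ 2) ^ 2) := by
          rw [h]; ring
      _ ≤ ∫ t in Ioi x, ph t := by
          refine setIntegral_mono_on hi integrable_ph.integrableOn measurableSet_Ioi fun t _ => ?_
          have h3 : 0 ≤ 2 / (1 + t ^ 2) ^ 2 := by positivity
          have h4 := ph_pos t
          nlinarith
  · intro t _
    have hq : (1 + t ^ 2) ≠ 0 := by positivity
    have h1 : HasDerivAt (fun t : ℝ => 1 + t ^ 2) (2 * t) t := by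
      simpa using ((hasDerivAt_id t).pow 2).const_add 1
    refine ((((hasDerivAt_id t).div h1 hq).mul (hasDerivAt_ph t)).neg).congr_deriv ?_
    simp only [id_eq, Pi.div_apply]
    field_simp
    ring
  · have h1 : Tendsto (fun t => ph t) atTop (𝓝 0) := tendsto_ph
    have h2 : Tendsto (fun t : ℝ => t / (1 + t ^ 2) * ph t) atTop (𝓝 0) := by
      refine squeeze_zero' (f := fun t : ℝ => t / (1 + t ^ 2) * ph t) (g := ph) ?_ ?_ h1
      · filter_upwards [eventually_ge_atTop 0] with t ht
        have := ph_pos t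
        positivity
      · filter_upwards [eventually_ge_atTop 0] with t ht
        have := ph_pos t
        apply mul_le_of_le_one_left this.le
        rw [div_le_one (by positivity)]
        nlinarith [sq_nonneg (t - 1)]
    simpa using h2.neg

section Main

variable {k : ℝ → ℝ} {K : ℝ}

theorem abs_k_le (hk : ∀ s t, |k s - k t| ≤ |s - t|) (h0 : |k 0| ≤ K) (t : ℝ) :
    |k t| ≤ |t| + K := by
  have h1 := hk t 0
  rw [sub_zero] at h1
  calc |k t| = |(k t - k 0) + k 0| := by ring_nf
    _ ≤ |k t - k 0| + |k 0| := abs_add_le _ _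
    _ ≤ _ := by gcongr

theorem continuous_k (hk : ∀ s t, |k s - k t| ≤ |s - t|) : Continuous k := by
  have : LipschitzWith 1 k := LipschitzWith.of_dist_le_mul fun x y => by
    simpa [Real.dist_eq] using hk x y
  exact this.continuous

theorem integrable_kph (hk : ∀ s t, |k s - k t| ≤ |s - t|) (h0 : |k 0| ≤ K) :
    Integrable (fun t => k t * ph t) := by
  refine Integrable.mono' (integrable_abs_tph.add (integrable_ph.const_mul K))
    ((continuous_k hk).mul continuous_ph).aestronglyMeasurable (Eventually.of_forall fun t => ?_)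
  rw [Real.norm_eq_abs, abs_mul, abs_of_pos (ph_pos t)]
  have h1 := abs_k_le hk h0 t
  have h2 := ph_pos t
  simp only [Pi.add_apply]
  calc |k t| * ph t ≤ (|t| + K) * ph t := by gcongr
    _ = _ := by ring

/-- the total mass used in crude estimates -/
noncomputable def K0 (K : ℝ) : ℝ := ∫ t, (|t| * ph t + K * ph t)

theorem abs_integral_kph_le (hk : ∀ s t, |k s - k t| ≤ |s - t|) (h0 : |k 0| ≤ K) (s : Set ℝ) :
    |∫ t in s, k t * ph t| ≤ K0 K := by
  have h1 : |∫ t in s, k t * ph t| ≤ ∫ t in s, |k t * ph t| := abs_integral_le_integral_abs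
  have h2 : ∫ t in s, |k t * ph t| ≤ ∫ t, |k t * ph t| :=
    setIntegral_le_integral (integrable_kph hk h0).abs (Eventually.of_forall fun t => abs_nonneg _)
  have h3 : ∫ t, |k t * ph t| ≤ K0 K := by
    refine integral_mono (integrable_kph hk h0).abs
      (integrable_abs_tph.add (integrable_ph.const_mul K)) fun t => ?_
    rw [abs_mul, abs_of_pos (ph_pos t)]
    have h1 := abs_k_le hk h0 t
    have h2 := ph_pos t
    calc |k t| * ph t ≤ (|t| + K) * ph t := by gcongr
      _ = _ := by ring
  linarith

theorem main_bound (hk : ∀ s t, |k s - k t| ≤ |s - t|) (h0 : |k 0| ≤ K) {x : ℝ} (hx : 0 ≤ x) :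
    |-((1 + x ^ 2) * ((ph x)⁻¹ * ∫ t in Ioi x, k t * ph t)) + x * k x| ≤
      2 + K + 4 * K0 K := by
  have hK : 0 ≤ K := (abs_nonneg _).trans h0
  have hK0 : 0 ≤ K0 K := (abs_nonneg _).trans (abs_integral_kph_le hk h0 univ)
  have hp := ph_pos x
  rcases le_total x 1 with h1 | h1
  · -- small x
    have h2 := abs_integral_kph_le hk h0 (Ioi x)
    have h3 : (ph x)⁻¹ ≤ 2 := by
      rw [inv_le_comm₀ hp (by norm_num)]
      have h4 : Real.exp (-(1 / 2)) ≤ ph x := by
        unfold ph
        apply Real.exp_le_exp.2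
        nlinarith
      have h5 : (1 / 2 : ℝ) ≤ Real.exp (-(1 / 2)) := by
        have := Real.add_one_le_exp (-(1 / 2) : ℝ)
        linarith
      have h6 : (2 : ℝ)⁻¹ = 1 / 2 := by norm_num
      linarith
    have h4 : |k x| ≤ x + K := by
      have := abs_k_le hk h0 x
      rwa [abs_of_nonneg hx] at this
    have h5 : |(1 + x ^ 2) * ((ph x)⁻¹ * ∫ t in Ioi x, k t * ph t)| ≤ 2 * (2 * K0 K) := by
      rw [abs_mul, abs_mul, abs_of_nonneg (by positivity : 0 ≤ 1 + x ^ 2),
        abs_of_pos (inv_pos.2 hp)]
      have h6 : 1 + x ^ 2 ≤ 2 := by nlinarith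
      gcongr
    have h6 : |x * k x| ≤ 1 * (1 + K) := by
      rw [abs_mul, abs_of_nonneg hx]
      gcongr
      linarith
    calc _ ≤ |-((1 + x ^ 2) * ((ph x)⁻¹ * ∫ t in Ioi x, k t * ph t))| + |x * k x| := abs_add_le _ _
      _ ≤ 2 * (2 * K0 K) + 1 * (1 + K) := by rw [abs_neg]; gcongr
      _ ≤ _ := by linarith
  · -- large x
    have hx0 : 0 < x := by linarith
    set Q := ∫ t in Ioi x, ph t with hQ
    set S := ∫ t in Ioi x, (k t - k x) * ph t with hS
    have hQint : IntegrableOn ph (Ioi x) := integrable_ph.integrableOn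
    have hkint : IntegrableOn (fun t => k t * ph t) (Ioi x) := (integrable_kph hk h0).integrableOn
    have h2 : ∫ t in Ioi x, k t * ph t = k x * Q + S := by
      rw [hQ, hS, ← integral_const_mul, ← integral_add (hQint.const_mul _)]
      · congr 1; funext t; ring
      · have : (fun t => (k t - k x) * ph t) = fun t => k t * ph t - k x * ph t := by
          funext t; ring
        rw [this]
        exact hkint.sub (hQint.const_mul _)
    have h3 : |S| ≤ ph x - x * Q := by
      have h4 : |S| ≤ ∫ t in Ioi x, |(k t - k x) * ph t| := abs_integral_le_integral_abs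
      have h5 : ∫ t in Ioi x, |(k t - k x) * ph t| ≤ ∫ t in Ioi x, (t * ph t - x * ph t) := by
        refine setIntegral_mono_on ?_ ?_ measurableSet_Ioi fun t ht => ?_
        · have : (fun t => |(k t - k x) * ph t|) = fun t => |k t * ph t - k x * ph t| := by
            funext t; ring_nf
          rw [this]
          exact (hkint.sub (hQint.const_mul _)).abs
        · exact integrable_tph.integrableOn.sub (hQint.const_mul _)
        · rw [abs_mul, abs_of_pos (ph_pos t), ← sub_mul]
          have h6 := hk t x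
          rw [abs_of_pos (sub_pos.2 ht.out)] at h6
          have := ph_pos t
          gcongr
      have h6 : ∫ t in Ioi x, (t * ph t - x * ph t) = ph x - x * Q := by
        rw [integral_sub integrable_tph.integrableOn (hQint.const_mul _), tail_one,
          integral_const_mul]
      linarith
    have h4 : x / (1 + x ^ 2) * ph x ≤ Q := tail_lower x
    have h5 : x * Q ≤ ph x := tail_upper x
    have h6 : |k x| ≤ x + K := by
      have := abs_k_le hk h0 x
      rwa [abs_of_nonneg hx] at this
    have hq : 0 < 1 + x ^ 2 := by positivity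
    have h7 : x * ph x ≤ (1 + x ^ 2) * Q := by
      have := mul_le_mul_of_nonneg_left h4 hq.le
      calc x * ph x = (1 + x ^ 2) * (x / (1 + x ^ 2) * ph x) := by field_simp
        _ ≤ _ := this
    -- the two parts
    have h8 : -((1 + x ^ 2) * ((ph x)⁻¹ * (k x * Q + S))) + x * k x =
        (-(k x * ((1 + x ^ 2) * Q - x * ph x)) - (1 + x ^ 2) * S) / ph x := by
      field_simp
      ring
    rw [h2, h8, abs_div, abs_of_pos hp, div_le_iff₀ hp]
    have h9 : |k x * ((1 + x ^ 2) * Q - x * ph x)| ≤ (1 + K) * ph x := by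
      rw [abs_mul, abs_of_nonneg (by linarith : 0 ≤ (1 + x ^ 2) * Q - x * ph x)]
      have h10 : (1 + x ^ 2) * Q - x * ph x ≤ ph x / x := by
        rw [le_div_iff₀ hx0]
        nlinarith
      calc |k x| * ((1 + x ^ 2) * Q - x * ph x) ≤ (x + K) * (ph x / x) := by
            gcongr
        _ ≤ (x + x * K) * (ph x / x) := by
            gcongr
            nlinarith
        _ = _ := by field_simp
    have h10 : |(1 + x ^ 2) * S| ≤ 1 * ph x := by
      rw [abs_mul, abs_of_pos hq]
      calc (1 + x ^ 2) * |S| ≤ (1 + x ^ 2) * (ph x - x * Q) := by gcongr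
        _ ≤ 1 * ph x := by nlinarith
    calc |-(k x * ((1 + x ^ 2) * Q - x * ph x)) - (1 + x ^ 2) * S|
        ≤ |-(k x * ((1 + x ^ 2) * Q - x * ph x))| + |(1 + x ^ 2) * S| := abs_sub _ _
      _ ≤ (1 + K) * ph x + 1 * ph x := by rw [abs_neg]; gcongr
      _ ≤ (2 + K + 4 * K0 K) * ph x := by nlinarith

/-- the solution of the Stein equation -/
noncomputable def sol (k : ℝ → ℝ) (x : ℝ) : ℝ := (ph x)⁻¹ * ∫ t in Iic x, k t * ph t

theorem hasDerivAt_sol (hk : ∀ s t, |k s - k t| ≤ |s - t|) (h0 : |k 0| ≤ K) (x : ℝ) :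
    HasDerivAt (sol k) (x * sol k x + k x) x := by
  have hint := integrable_kph hk h0
  have hcont : Continuous fun t => k t * ph t := (continuous_k hk).mul continuous_ph
  have h1 : (fun x => ∫ t in Iic x, k t * ph t) =
      fun x => (∫ t in Iic (0 : ℝ), k t * ph t) + ∫ t in (0 : ℝ)..x, k t * ph t := by
    funext y
    rw [← intervalIntegral.integral_Iic_sub_Iic hint.integrableOn hint.integrableOn]
    ring
  have h2 : HasDerivAt (fun x => ∫ t in Iic x, k t * ph t) (k x * ph x) x := by
    rw [h1]
    exact (intervalIntegral.integral_hasDerivAt_right (hcont.intervalIntegrable _ _)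
      (hcont.stronglyMeasurableAtFilter _ _) hcont.continuousAt).const_add _
  have h3 : HasDerivAt (fun x => (ph x)⁻¹) (x * (ph x)⁻¹) x := by
    refine ((hasDerivAt_ph x).inv (ph_pos x).ne').congr_deriv ?_
    have := ph_pos x
    field_simp
  refine (h3.mul h2).congr_deriv ?_
  unfold sol
  have := ph_pos x
  field_simp

theorem sol_bound (hk : ∀ s t, |k s - k t| ≤ |s - t|) (h0 : |k 0| ≤ K)
    (hz : ∫ t, k t * ph t = 0) (x : ℝ) :
    |(1 + x ^ 2) * sol k x + x * k x| ≤ 2 + K + 4 * K0 K := by
  have hint := integrable_kph hk h0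
  rcases le_total 0 x with hx | hx
  · have h1 := main_bound hk h0 hx
    have h2 : (∫ t in Iic x, k t * ph t) = - ∫ t in Ioi x, k t * ph t := by
      have := intervalIntegral.integral_Iic_add_Ioi (b := x) hint.integrableOn hint.integrableOn
      rw [hz] at this
      linarith
    unfold sol
    rw [h2]
    refine le_trans (le_of_eq ?_) h1
    congr 1
    ring
  · have hk' : ∀ s t, |k (-s) - k (-t)| ≤ |s - t| := fun s t => by
      refine (hk _ _).trans (le_of_eq ?_)
      rw [← abs_neg]
      congr 1
      ring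
    have h1 := main_bound (k := fun t => k (-t)) hk' (by simpa using h0) (neg_nonneg.2 hx)
    have h2 : (∫ t in Ioi (-x), k (-t) * ph t) = ∫ t in Iic x, k t * ph t := by
      have := integral_comp_neg_Ioi (-x) (fun t => k t * ph t)
      simp only [ph_neg, neg_neg] at this
      exact this
    simp only [neg_neg, ph_neg] at h1
    rw [h2, neg_sq] at h1
    unfold sol
    refine le_trans (le_of_eq ?_) h1
    rw [← abs_neg]
    congr 1
    ring

end Main

theorem stein_solution : ∃ C : ℝ, 0 < C ∧ ∀ h : ℝ → ℝ, LipschitzWith 1 h →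
    ∃ f f' : ℝ → ℝ, (∀ x, HasDerivAt f (f' x) x) ∧
      (∀ x, f' x - x * f x = h x - ∫ z, h z ∂(gaussianReal 0 1)) ∧
      (∀ x y, |f' x - f' y| ≤ C * |x - y|) := by
  set K : ℝ := ∫ z, |z| ∂(gaussianReal 0 1) with hK
  have hK0 : 0 ≤ K := integral_nonneg fun z => abs_nonneg z
  have hK00 : 0 ≤ K0 K := by
    unfold K0
    refine integral_nonneg fun t => ?_
    have := ph_pos t
    positivity
  refine ⟨2 + K + 4 * K0 K + 1, by positivity, fun h hh => ?_⟩
  have hlip : ∀ s t, |h s - h t| ≤ |s - t| := fun s t => by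
    simpa [Real.dist_eq] using hh.dist_le_mul s t
  have hint0 : Integrable (fun z : ℝ => z) (gaussianReal 0 1) := by
    have := memLp_id_gaussianReal (μ := 0) (v := 1) 1
    exact (memLp_one_iff_integrable.1 this)
  have hinth : Integrable h (gaussianReal 0 1) := by
    refine Integrable.mono' (hint0.abs.add (integrable_const |h 0|))
      hh.continuous.aestronglyMeasurable (Eventually.of_forall fun z => ?_)
    rw [Real.norm_eq_abs]
    simp only [Pi.add_apply]
    calc |h z| = |(h z - h 0) + h 0| := by ring_nf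
      _ ≤ |h z - h 0| + |h 0| := abs_add_le _ _
      _ ≤ |z| + |h 0| := by
          have := hlip z 0
          rw [sub_zero] at this
          gcongr
  set c : ℝ := ∫ z, h z ∂(gaussianReal 0 1) with hc
  set k : ℝ → ℝ := fun x => h x - c with hkdef
  have hk : ∀ s t, |k s - k t| ≤ |s - t| := fun s t => by
    simp only [hkdef, sub_sub_sub_cancel_right]
    exact hlip s t
  have hk0 : |k 0| ≤ K := by
    have h1 : k 0 = ∫ z, (h 0 - h z) ∂(gaussianReal 0 1) := by
      rw [integral_sub (integrable_const _) hinth]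
      simp [hkdef, hc]
    rw [h1, hK]
    refine abs_integral_le_integral_abs.trans ?_
    refine integral_mono_of_nonneg (Eventually.of_forall fun z => abs_nonneg _) hint0.abs
      (Eventually.of_forall fun z => ?_)
    have := hlip 0 z
    simpa using this
  have hz : ∫ t, k t * ph t = 0 := by
    have h1 : ∫ z, k z ∂(gaussianReal 0 1) = 0 := by
      simp only [hkdef]
      rw [integral_sub hinth (integrable_const _)]
      simp [hc]
    rw [integral_gaussianReal_eq_integral_smul one_ne_zero] at h1
    have h2 : ∀ t, gaussianPDFReal 0 1 t • k t = (√(2 * Real.pi))⁻¹ * (k t * ph t) := by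
      intro t
      simp only [gaussianPDFReal, ph, smul_eq_mul, NNReal.coe_one, mul_one, sub_zero]
      have : -t ^ 2 / 2 = -(1 / 2) * t ^ 2 := by ring
      rw [this]
      ring
    simp only [h2] at h1
    rw [integral_const_mul] at h1
    rcases mul_eq_zero.1 h1 with h3 | h3
    · exact absurd h3 (by positivity)
    · exact h3
  refine ⟨sol k, fun x => x * sol k x + k x, hasDerivAt_sol hk hk0, fun x => ?_, fun x y => ?_⟩
  · simp only [hkdef]; ring
  · have hg : ∀ x, HasDerivAt (fun x => x * sol k x) ((1 + x ^ 2) * sol k x + x * k x) x := by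
      intro x
      refine ((hasDerivAt_id x).mul (hasDerivAt_sol hk hk0 x)).congr_deriv ?_
      simp only [id_eq]
      ring
    have h1 : |x * sol k x - y * sol k y| ≤ (2 + K + 4 * K0 K) * |x - y| := by
      have := Convex.norm_image_sub_le_of_norm_hasDerivWithin_le
        (f := fun x => x * sol k x) (f' := fun x => (1 + x ^ 2) * sol k x + x * k x)
        (C := 2 + K + 4 * K0 K) (s := univ) (x := y) (y := x)
        (fun z _ => (hg z).hasDerivWithinAt)
        (fun z _ => by rw [Real.norm_eq_abs]; exact sol_bound hk hk0 hz z) convex_univ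
        (mem_univ _) (mem_univ _)
      simpa [Real.norm_eq_abs] using this
    have h2 := hk x y
    calc |x * sol k x + k x - (y * sol k y + k y)|
        = |(x * sol k x - y * sol k y) + (k x - k y)| := by ring_nf
      _ ≤ |x * sol k x - y * sol k y| + |k x - k y| := abs_add_le _ _
      _ ≤ (2 + K + 4 * K0 K) * |x - y| + |x - y| := by gcongr
      _ = _ := by ring

/-! ### the Poisson law -/

/-- the Poisson weights -/
noncomputable def pw (μ : ℝ≥0) (j : ℕ) : ℝ := Real.exp (-μ) * μ ^ j / (j.factorial : ℝ)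

theorem pw_nonneg (μ : ℝ≥0) (j : ℕ) : 0 ≤ pw μ j := by unfold pw; positivity

theorem pw_succ (μ : ℝ≥0) (j : ℕ) : pw μ (j + 1) * ((j + 1 : ℕ) : ℝ) = μ * pw μ j := by
  unfold pw
  rw [Nat.factorial_succ]
  push_cast
  field_simp
  ring

theorem summable_pw (μ : ℝ≥0) {F : ℕ → ℝ} {A : ℝ} (hF : ∀ j, |F j| ≤ A * Real.exp j) :
    Summable fun j => pw μ j * F j := by
  have h1 : Summable fun j : ℕ => (Real.exp 1 * μ) ^ j / (j.factorial : ℝ) :=
    Real.summable_pow_div_factorial _
  refine Summable.of_norm_bounded ((h1.mul_left (A * Real.exp (-μ)))) fun j => ?_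
  rw [Real.norm_eq_abs, abs_mul, abs_of_nonneg (pw_nonneg μ j)]
  have h2 := hF j
  have h3 := pw_nonneg μ j
  calc pw μ j * |F j| ≤ pw μ j * (A * Real.exp j) := by gcongr
    _ = _ := by
        unfold pw
        rw [mul_pow, ← Real.exp_nat_mul, mul_one]
        ring

theorem integrable_po (μ : ℝ≥0) {F : ℕ → ℝ} {A : ℝ} (hF : ∀ j, |F j| ≤ A * Real.exp j) :
    Integrable F (poissonMeasure μ) := by
  rw [integrable_poissonMeasure_iff]
  have := summable_pw μ (F := fun j => ‖F j‖) (A := A) (fun j => by simpa using hF j)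
  exact this

theorem quad_le_exp {a b : ℝ} (ha : 0 ≤ a) (hb : 0 ≤ b) (n : ℕ) : (a + b) ^ n ≤
    (n.factorial * Real.exp b) * Real.exp a := by
  have h := Real.pow_div_factorial_le_exp (a + b) (add_nonneg ha hb) n
  rw [div_le_iff₀ (by positivity)] at h
  rw [Real.exp_add] at h
  linarith

end SN

open SN in
/-- `W₁` between a normalised Poisson variable and the standard normal law is `O(μ^{-1/2})`. -/
theorem poisson_normal : ∃ C : ℝ, 0 < C ∧ ∀ μ : ℝ≥0, 1 ≤ μ → ∀ h : ℝ → ℝ, LipschitzWith 1 h →
    |∫ j : ℕ, h (((j : ℝ) - μ) / Real.sqrt μ) ∂(poissonMeasure μ)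
        - ∫ z, h z ∂(gaussianReal 0 1)| ≤ C / Real.sqrt μ := by
  obtain ⟨C, hC, hsol⟩ := stein_solution
  refine ⟨C, hC, fun μ hμ h hh => ?_⟩
  obtain ⟨f, f', hf, heq, hlip⟩ := hsol h hh
  have hμr : (1 : ℝ) ≤ μ := by exact_mod_cast hμ
  have hs1 : 1 ≤ √(μ : ℝ) := Real.one_le_sqrt.2 hμr
  have hs : 0 < √(μ : ℝ) := by linarith
  have hss : √(μ : ℝ) * √(μ : ℝ) = μ := Real.mul_self_sqrt μ.coe_nonneg
  set s := √(μ : ℝ) with hsdef
  set w : ℕ → ℝ := fun j => ((j : ℝ) - μ) / s with hw
  have hwsucc : ∀ j, w (j + 1) = w j + 1 / s := by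
    intro j
    simp only [hw]
    push_cast
    ring
  -- growth
  have hf'b : ∀ x, |f' x| ≤ |f' 0| + C * |x| := fun x => by
    have := hlip x 0
    rw [sub_zero] at this
    calc |f' x| = |(f' x - f' 0) + f' 0| := by ring_nf
      _ ≤ |f' x - f' 0| + |f' 0| := abs_add_le _ _
      _ ≤ _ := by linarith
  have hfb : ∀ x, |f x| ≤ (|f 0| + |f' 0| + C) * (|x| + 1) ^ 2 := fun x => by
    have h1 := Convex.norm_image_sub_le_of_norm_hasDerivWithin_le
        (f := f) (f' := f') (C := |f' 0| + C * |x|) (s := Set.Icc (-|x|) |x|) (x := 0) (y := x)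
        (fun z _ => (hf z).hasDerivWithinAt)
        (fun z hz => by
          rw [Real.norm_eq_abs]
          refine (hf'b z).trans ?_
          have : |z| ≤ |x| := abs_le.2 hz
          gcongr) (convex_Icc _ _)
        (by simp) (by constructor; exact neg_abs_le x; exact le_abs_self x)
    rw [Real.norm_eq_abs, Real.norm_eq_abs, sub_zero] at h1
    have h2 : |f x| ≤ |f x - f 0| + |f 0| := by
      calc |f x| = |(f x - f 0) + f 0| := by ring_nf
        _ ≤ _ := abs_add_le _ _
    have h3 := abs_nonneg x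
    have h4 := abs_nonneg (f 0)
    have h5 := abs_nonneg (f' 0)
    nlinarith [mul_nonneg h4 h3, mul_nonneg h5 h3, mul_nonneg hC.le h3, mul_nonneg h4 (sq_nonneg |x|),
      mul_nonneg h5 (sq_nonneg |x|), mul_nonneg hC.le (sq_nonneg |x|)]
  have hwb : ∀ j : ℕ, |w j| + 1 ≤ (j : ℝ) + (μ + 1) := fun j => by
    have h1 : |w j| ≤ (j : ℝ) + μ := by
      simp only [hw]
      rw [abs_div, abs_of_pos hs, div_le_iff₀ hs]
      have h2 : |(j : ℝ) - μ| ≤ j + μ := by
        refine (abs_sub _ _).trans ?_
        rw [abs_of_nonneg (Nat.cast_nonneg j), abs_of_nonneg μ.coe_nonneg]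
      have h3 : (0 : ℝ) ≤ j + μ := by positivity
      nlinarith
    linarith
  set a : ℝ := |f 0| + |f' 0| + C with ha
  have ha0 : 0 ≤ a := by positivity
  have hμ1 : (0 : ℝ) ≤ μ + 1 := by positivity
  have hpow : ∀ (n : ℕ) (j : ℕ), (|w j| + 1) ^ n ≤
      (n.factorial * Real.exp (μ + 1)) * Real.exp j := fun n j => by
    refine le_trans (pow_le_pow_left₀ (by positivity) (hwb j) n) ?_
    exact quad_le_exp (Nat.cast_nonneg j) hμ1 n
  have hF1 : ∀ j : ℕ, |f (w j)| ≤ (a * ((2 : ℕ).factorial * Real.exp (μ + 1))) * Real.exp j := fun j => by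
    refine (hfb _).trans ?_
    rw [mul_assoc]
    exact mul_le_mul_of_nonneg_left (hpow 2 j) ha0
  have hF2 : ∀ j : ℕ, |w j * f (w j)| ≤ (a * ((3 : ℕ).factorial * Real.exp (μ + 1))) * Real.exp j := fun j => by
    rw [abs_mul, mul_assoc]
    calc |w j| * |f (w j)| ≤ (|w j| + 1) * (a * (|w j| + 1) ^ 2) := by
          gcongr
          · linarith
          · exact hfb _
      _ = a * (|w j| + 1) ^ 3 := by ring
      _ ≤ _ := mul_le_mul_of_nonneg_left (hpow 3 j) ha0
  have hF3 : ∀ j : ℕ, |f' (w j)| ≤ ((|f' 0| + C) * ((1 : ℕ).factorial * Real.exp (μ + 1))) * Real.exp j := fun j => by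
    refine (hf'b _).trans ?_
    rw [mul_assoc]
    calc |f' 0| + C * |w j| ≤ (|f' 0| + C) * (|w j| + 1) ^ 1 := by
          have := abs_nonneg (f' 0)
          have := abs_nonneg (w j)
          nlinarith [mul_nonneg (abs_nonneg (f' 0)) (abs_nonneg (w j))]
      _ ≤ _ := mul_le_mul_of_nonneg_left (hpow 1 j) (by positivity)
  have hF4 : ∀ j : ℕ, |f (w (j + 1))| ≤
      (a * ((2 : ℕ).factorial * Real.exp (μ + 1)) * Real.exp 1) * Real.exp j := fun j => by
    refine (hF1 (j + 1)).trans (le_of_eq ?_)
    have h0 : Real.exp (((j + 1 : ℕ) : ℝ)) = Real.exp j * Real.exp 1 := by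
      push_cast
      exact Real.exp_add _ _
    rw [h0]
    ring
  have hS1 := summable_pw μ hF1
  have hS4 := summable_pw μ hF4
  have hI2 := integrable_po μ hF2
  have hI3 := integrable_po μ hF3
  have hI1 := integrable_po μ hF1
  have hI4 := integrable_po μ hF4
  -- shift identity
  have hshift : ∫ j, w j * f (w j) ∂(poissonMeasure μ) =
      ∫ j, s * (f (w (j + 1)) - f (w j)) ∂(poissonMeasure μ) := by
    rw [integral_poissonMeasure, integral_poissonMeasure]
    have h1 : Summable fun j : ℕ => pw μ j * (j * f (w j)) := by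
      have h2 : ∀ j : ℕ, (j : ℝ) * f (w j) = s * (w j * f (w j)) + μ * f (w j) := by
        intro j
        simp only [hw]
        field_simp
        ring
      have h3 := ((summable_pw μ hF2).mul_left s).add (hS1.mul_left (μ : ℝ))
      refine h3.congr fun j => ?_
      rw [h2]
      ring
    have h4 : ∑' j : ℕ, pw μ j * (j * f (w j)) = ∑' j : ℕ, μ * (pw μ j * f (w (j + 1))) := by
      rw [h1.tsum_eq_zero_add]
      simp only [Nat.cast_zero, zero_mul, mul_zero, zero_add]
      congr 1
      funext j
      have := pw_succ μ j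
      calc pw μ (j + 1) * (((j + 1 : ℕ) : ℝ) * f (w (j + 1)))
          = (pw μ (j + 1) * ((j + 1 : ℕ) : ℝ)) * f (w (j + 1)) := by ring
        _ = _ := by rw [this]; ring
    have h5 : ∀ j : ℕ, (Real.exp (-μ) * μ ^ j / (j.factorial : ℝ)) • (w j * f (w j)) =
        s⁻¹ * (pw μ j * (j * f (w j))) - s⁻¹ * (μ * (pw μ j * f (w j))) := by
      intro j
      simp only [hw, pw, smul_eq_mul]
      field_simp
    have h6 : ∀ j : ℕ, (Real.exp (-μ) * μ ^ j / (j.factorial : ℝ)) •
        (s * (f (w (j + 1)) - f (w j))) =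
        s⁻¹ * (μ * (pw μ j * f (w (j + 1)))) - s⁻¹ * (μ * (pw μ j * f (w j))) := by
      intro j
      have h7 : s = s⁻¹ * μ := by rw [← hss]; field_simp
      simp only [smul_eq_mul, pw]
      linear_combination (Real.exp (-μ) * μ ^ j / (j.factorial : ℝ)) *
        (f (w (j + 1)) - f (w j)) * h7
    simp only [h5, h6]
    rw [Summable.tsum_sub (h1.mul_left _) ((hS1.mul_left _).mul_left _),
      Summable.tsum_sub ((hS4.mul_left _).mul_left _) ((hS1.mul_left _).mul_left _)]
    congr 1
    rw [tsum_mul_left, h4, tsum_mul_left, tsum_mul_left, tsum_mul_left]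
  -- conclusion
  have hD : Integrable (fun j : ℕ => s * (f (w (j + 1)) - f (w j))) (poissonMeasure μ) :=
    (hI4.sub hI1).const_mul s
  have hmain : ∫ j : ℕ, h (w j) ∂(poissonMeasure μ) - ∫ z, h z ∂(gaussianReal 0 1) =
      ∫ j, (f' (w j) - s * (f (w (j + 1)) - f (w j))) ∂(poissonMeasure μ) := by
    rw [integral_sub hI3 hD, ← hshift, ← integral_sub hI3 hI2]
    have h1 : ∀ j, h (w j) = (f' (w j) - w j * f (w j)) + ∫ z, h z ∂(gaussianReal 0 1) := by
      intro j
      rw [heq]
      ring
    simp only [h1]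
    have hI : Integrable (fun j : ℕ => f' (w j) - w j * f (w j)) (poissonMeasure μ) :=
      hI3.sub hI2
    rw [integral_add hI (integrable_const _)]
    simp
  rw [hmain]
  have hpt : ∀ j, |f' (w j) - s * (f (w (j + 1)) - f (w j))| ≤ C / s := by
    intro j
    have h1 := Convex.norm_image_sub_le_of_norm_hasDerivWithin_le
        (f := fun x => f x - f' (w j) * x) (f' := fun x => f' x - f' (w j)) (C := C * (1 / s))
        (s := Set.Icc (w j) (w (j + 1))) (x := w j) (y := w (j + 1))
        (fun z _ => ((hf z).sub ((hasDerivAt_id z).const_mul (f' (w j)) |>.congr_deriv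
          (by ring))).hasDerivWithinAt)
        (fun z hz => by
          rw [Real.norm_eq_abs]
          refine (hlip z (w j)).trans ?_
          have h2 : |z - w j| ≤ 1 / s := by
            rw [hwsucc] at hz
            rw [abs_of_nonneg (by linarith [hz.1])]
            linarith [hz.2]
          gcongr) (convex_Icc _ _)
        (by
          rw [hwsucc]
          constructor
          · exact le_rfl
          · have : 0 < 1 / s := by positivity
            linarith)
        (by
          rw [hwsucc]
          constructor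
          · have : 0 < 1 / s := by positivity
            linarith
          · exact le_rfl)
    rw [Real.norm_eq_abs, Real.norm_eq_abs] at h1
    have h2 : w (j + 1) - w j = 1 / s := by rw [hwsucc]; ring
    rw [h2, abs_of_pos (by positivity : 0 < 1 / s)] at h1
    have h3 : f (w (j + 1)) - f' (w j) * w (j + 1) - (f (w j) - f' (w j) * w j) =
        -(1 / s) * (f' (w j) - s * (f (w (j + 1)) - f (w j))) := by
      have : w (j + 1) = w j + 1 / s := hwsucc j
      have h4 : f (w (j + 1)) - f' (w j) * w (j + 1) - (f (w j) - f' (w j) * w j) =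
          (f (w (j + 1)) - f (w j)) - f' (w j) * (w (j + 1) - w j) := by ring
      rw [h4, h2]
      field_simp
      ring
    rw [h3, abs_mul, abs_neg, abs_of_pos (by positivity : 0 < 1 / s)] at h1
    have h5 : (1 / s) * |f' (w j) - s * (f (w (j + 1)) - f (w j))| ≤ (1 / s) * (C / s) := by
      refine h1.trans (le_of_eq ?_)
      ring
    exact le_of_mul_le_mul_left h5 (by positivity)
  calc |∫ j, (f' (w j) - s * (f (w (j + 1)) - f (w j))) ∂(poissonMeasure μ)|
      ≤ ∫ j, |f' (w j) - s * (f (w (j + 1)) - f (w j))| ∂(poissonMeasure μ) :=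
        abs_integral_le_integral_abs
    _ ≤ ∫ _j, C / s ∂(poissonMeasure μ) :=
        integral_mono (hI3.sub hD).abs (integrable_const _) hpt
    _ = C / s := by simp

end MP751612
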