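import Pool.Agent.Lib.MP_751612_pr.Graph

/-! One-step conditional expectations. -/

open scoped BigOperators

namespace MP751612

open Finset

/-- The endpoint probabilities. -/
noncomputable def pv (m : ℕ) (δ : ℝ) (n : ℕ) (M : MGraph) : Fin n → ℝ :=
  fun v => wt δ n M v / Lt m δ n

theorem pp_eq (m : ℕ) (δ : ℝ) (k : ℕ) (ω : Hist m k) :
    pp m δ k ω = pv m δ (k + 2) (graph m k ω) := rfl

/-- mean of `g` under the endpoint law -/
noncomputable def av (m : ℕ) (δ : ℝ) (n : ℕ) (M : MGraph) (g : ℕ → ℝ) : ℝ :=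
  (∑ v ∈ range n, wt δ n M v * g v) / Lt m δ n

noncomputable def av2 (m : ℕ) (δ : ℝ) (n : ℕ) (M : MGraph) (G : ℕ → ℕ → ℝ) : ℝ :=
  (∑ a ∈ range n, ∑ b ∈ range n, wt δ n M a * wt δ n M b * G a b) / Lt m δ n ^ 2

/-- standing hypotheses on one step -/
structure Stp (m : ℕ) (δ : ℝ) (n : ℕ) (M : MGraph) : Prop where
  good : GoodG m n M
  hδ : 0 < δ
  hm : 1 ≤ m
  hn : 2 ≤ n
  tot : ∑ v ∈ range n, wt δ n M v = Lt m δ n

section
variable {m : ℕ} {δ : ℝ} {n : ℕ} {M : MGraph}

theorem Stp.wt_ge (h : Stp m δ n M) {v : ℕ} (hv : v < n) : (m : ℝ) + δ ≤ wt δ n M v := by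
  unfold wt
  have := h.good.deg_ge v hv
  have h2 : (m : ℝ) ≤ deg n M v := by exact_mod_cast this
  linarith

theorem Stp.wt_pos (h : Stp m δ n M) (v : ℕ) : 0 < wt δ n M v := by
  unfold wt
  have := h.hδ
  positivity

theorem Stp.wt_nonneg (h : Stp m δ n M) (v : ℕ) : 0 ≤ wt δ n M v := (h.wt_pos v).le

theorem Stp.m_real (h : Stp m δ n M) : (1:ℝ) ≤ m := by exact_mod_cast h.hm

theorem Stp.wt_one (h : Stp m δ n M) {v : ℕ} (hv : v < n) : 1 ≤ wt δ n M v := by
  have := h.wt_ge hv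
  have := h.m_real
  have := h.hδ
  linarith

theorem Stp.L_pos (h : Stp m δ n M) : 0 < Lt m δ n := by
  unfold Lt
  have h2 : (2:ℝ) ≤ n := by exact_mod_cast h.hn
  have := h.hδ
  have := h.m_real
  have h1 : 0 ≤ 2 * (m:ℝ) * ((n:ℝ) - 1) := by
    apply mul_nonneg (by positivity); linarith
  have h3 : 0 < (n:ℝ) * δ := by positivity
  linarith

theorem Stp.pv_nonneg (h : Stp m δ n M) (v : Fin n) : 0 ≤ pv m δ n M v :=
  div_nonneg (h.wt_nonneg _) h.L_pos.le

theorem Stp.pv_sum (h : Stp m δ n M) : ∑ v, pv m δ n M v = 1 := by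
  unfold pv
  rw [← Finset.sum_div, Fin.sum_univ_eq_sum_range (fun v => wt δ n M v) n, h.tot,
    div_self h.L_pos.ne']

theorem sum_pv_mul (g : ℕ → ℝ) : ∑ v : Fin n, pv m δ n M v * g v = av m δ n M g := by
  unfold pv av
  rw [Finset.sum_div, ← Fin.sum_univ_eq_sum_range (fun v => wt δ n M v * g v / Lt m δ n) n]
  exact Finset.sum_congr rfl fun v _ => by ring

theorem sum_pv_mul2 (G : ℕ → ℕ → ℝ) :
    ∑ a : Fin n, ∑ b : Fin n, pv m δ n M a * pv m δ n M b * G a b = av2 m δ n M G := by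
  unfold pv av2
  rw [Finset.sum_div, ← Fin.sum_univ_eq_sum_range
    (fun a => (∑ b ∈ range n, wt δ n M a * wt δ n M b * G a b) / Lt m δ n ^ 2) n]
  refine Finset.sum_congr rfl fun a _ => ?_
  rw [Finset.sum_div, ← Fin.sum_univ_eq_sum_range
    (fun b => (wt δ n M a * wt δ n M b * G a b) / Lt m δ n ^ 2) n]
  exact Finset.sum_congr rfl fun b _ => by ring

theorem av_mono (h : Stp m δ n M) {g g' : ℕ → ℝ} (H : ∀ v, v < n → g v ≤ g' v) :
    av m δ n M g ≤ av m δ n M g' := by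
  unfold av
  apply div_le_div_of_nonneg_right _ h.L_pos.le
  exact sum_le_sum fun v hv => mul_le_mul_of_nonneg_left (H v (mem_range.mp hv)) (h.wt_nonneg v)

theorem av_nonneg (h : Stp m δ n M) {g : ℕ → ℝ} (H : ∀ v, v < n → 0 ≤ g v) :
    0 ≤ av m δ n M g := by
  unfold av
  exact div_nonneg (sum_nonneg fun v hv => mul_nonneg (h.wt_nonneg v) (H v (mem_range.mp hv)))
    h.L_pos.le

theorem av_const (h : Stp m δ n M) (c : ℝ) : av m δ n M (fun _ => c) = c := by
  unfold av
  rw [← sum_mul, h.tot]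
  field_simp [h.L_pos.ne']

theorem av_mul_left (c : ℝ) (g : ℕ → ℝ) : av m δ n M (fun v => c * g v) = c * av m δ n M g := by
  unfold av
  rw [← mul_div_assoc, mul_sum]
  congr 1
  exact sum_congr rfl fun v _ => by ring

theorem av_wt : av m δ n M (wt δ n M) = Qf δ n M / Lt m δ n := by
  unfold av Qf
  congr 1
  exact sum_congr rfl fun v _ => by ring

theorem av_wt2 : av m δ n M (fun v => wt δ n M v ^ 2) = Cf δ n M / Lt m δ n := by
  unfold av Cf
  congr 1
  exact sum_congr rfl fun v _ => by ring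

theorem sum_wt_Nb : ∑ v ∈ range n, wt δ n M v * Nb δ n M v = Sf δ n M := by
  unfold Nb Sf
  refine sum_congr rfl fun v _ => ?_
  rw [mul_sum]
  exact sum_congr rfl fun b _ => by ring

theorem av_Nb : av m δ n M (Nb δ n M) = Sf δ n M / Lt m δ n := by
  unfold av; rw [sum_wt_Nb]

theorem av_Nb2 : av m δ n M (fun v => Nb δ n M v ^ 2) = Rf δ n M / Lt m δ n := rfl

theorem SE_lin (h : Stp m δ n M) (g : ℕ → ℝ) :
    SE (pv m δ n M) (fun f : Fin m → Fin n => ∑ l, g (f l)) = m * av m δ n M g := by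
  rw [SE_sum]
  have : ∀ l : Fin m, SE (pv m δ n M) (fun f : Fin m → Fin n => g (f l)) = av m δ n M g := by
    intro l
    rw [SE1 h.pv_sum l (fun v => g v), sum_pv_mul]
  rw [sum_congr rfl fun l _ => this l]
  simp

theorem SE_quad (h : Stp m δ n M) (G : ℕ → ℕ → ℝ) :
    SE (pv m δ n M) (fun f : Fin m → Fin n => ∑ l, ∑ l', G (f l) (f l'))
      = m * av m δ n M (fun a => G a a) + m * (m - 1) * av2 m δ n M G := by
  rw [SE_sum]
  have h1 : ∀ l : Fin m, SE (pv m δ n M) (fun f : Fin m → Fin n => ∑ l', G (f l) (f l'))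
      = av m δ n M (fun a => G a a) + (m - 1) * av2 m δ n M G := by
    intro l
    rw [SE_sum, ← Finset.add_sum_erase _ _ (mem_univ l)]
    congr 1
    · rw [SE1 h.pv_sum l (fun v => G v v), sum_pv_mul (fun v => G v v)]
    · have : ∀ l' ∈ univ.erase l, SE (pv m δ n M) (fun f : Fin m → Fin n => G (f l) (f l'))
          = av2 m δ n M G := by
        intro l' hl'
        rw [SE2 h.pv_sum (Finset.ne_of_mem_erase hl').symm (fun a b => G a b), sum_pv_mul2]
      rw [sum_congr rfl this, sum_const, card_erase_of_mem (mem_univ l), card_univ,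
        Fintype.card_fin, nsmul_eq_mul]
      congr 1
      have := h.hm
      push_cast [this]
      ring
  rw [sum_congr rfl fun l _ => h1 l]
  simp
  ring

/-- variance is at most the second moment about any point -/
theorem SE_var_le (h : Stp m δ n M) (F : (Fin m → Fin n) → ℝ) (c : ℝ) :
    SE (pv m δ n M) (fun f => (F f - SE (pv m δ n M) F) ^ 2)
      ≤ SE (pv m δ n M) (fun f => (F f - c) ^ 2) := by
  have e : ∀ d : ℝ, SE (pv m δ n M) (fun f => (F f - d) ^ 2)
      = SE (pv m δ n M) (fun f => F f ^ 2) - 2 * d * SE (pv m δ n M) F + d ^ 2 := by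
    intro d
    have : ∀ f : Fin m → Fin n, (F f - d) ^ 2 = F f ^ 2 - (2 * d) * F f + d ^ 2 := fun f => by ring
    rw [SE_congr this, SE_add, SE_sub, SE_mul_left, SE_const h.pv_sum]
  rw [e, e]
  nlinarith [sq_nonneg (SE (pv m δ n M) F - c)]

theorem SE_sq_lin_le (h : Stp m δ n M) (g : ℕ → ℝ) :
    SE (pv m δ n M) (fun f : Fin m → Fin n => (∑ l, g (f l)) ^ 2)
      ≤ m ^ 2 * av m δ n M (fun v => g v ^ 2) := by
  have h1 : ∀ f : Fin m → Fin n, (∑ l, g (f l)) ^ 2 ≤ m * ∑ l, g (f l) ^ 2 := by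
    intro f
    have := sq_sum_le_card_mul_sum_sq (s := (univ : Finset (Fin m))) (f := fun l => g (f l))
    simpa using this
  refine (SE_mono h.pv_nonneg h1).trans (le_of_eq ?_)
  rw [SE_mul_left, SE_lin h (fun v => g v ^ 2)]
  ring

theorem step_Q (h : Stp m δ n M) :
    SE (pv m δ n M) (fun f : Fin m → Fin n => Qf δ (n + 1) (attach n M f))
      = (1 + 2 * m / Lt m δ n + m * (m - 1) / Lt m δ n ^ 2) * Qf δ n M + (m + (m + δ) ^ 2) := by
  have h1 : ∀ f : Fin m → Fin n, Qf δ (n + 1) (attach n M f)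
      = (Qf δ n M + (m + δ) ^ 2) + (2 * ∑ l, wt δ n M (f l)
        + ∑ l, ∑ l', if (f l : ℕ) = (f l' : ℕ) then (1:ℝ) else 0) := by
    intro f
    rw [Qf_attach h.good f, sum_cnt_mul]
    have := sum_cnt_sq f (fun _ => (1:ℝ))
    simp only [mul_one] at this
    rw [this]; ring
  rw [SE_congr h1, SE_add, SE_const h.pv_sum, SE_add, SE_mul_left, SE_lin h (wt δ n M), av_wt,
    SE_quad h (fun a b => if a = b then (1:ℝ) else 0)]
  have h2 : av m δ n M (fun a => if a = a then (1:ℝ) else 0) = 1 := by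
    simp only [if_true]
    exact av_const h 1
  have h3 : av2 m δ n M (fun a b => if a = b then (1:ℝ) else 0) = Qf δ n M / Lt m δ n ^ 2 := by
    unfold av2 Qf
    congr 1
    refine sum_congr rfl fun a ha => ?_
    rw [sum_eq_single a]
    · simp; ring
    · intro b _ hb; simp [hb.symm]
    · intro h'; exact absurd ha h'
  rw [h2, h3]
  have := h.L_pos.ne'
  field_simp
  ring

theorem expand_sym (G : ℕ → ℕ → ℝ) (hG : ∀ a b, G a b = G b a) (w X : ℕ → ℝ) :
    ∑ a ∈ range n, ∑ b ∈ range n, G a b * (w a + X a) * (w b + X b)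
      = ∑ a ∈ range n, ∑ b ∈ range n, G a b * w a * w b
        + 2 * ∑ a ∈ range n, X a * (∑ b ∈ range n, G a b * w b)
        + ∑ a ∈ range n, ∑ b ∈ range n, G a b * X a * X b := by
  have e : ∀ a b, G a b * (w a + X a) * (w b + X b)
      = G a b * w a * w b + (X a * (G a b * w b) + X b * (G b a * w a)) + G a b * X a * X b := by
    intro a b; rw [hG b a]; ring
  simp only [e, sum_add_distrib]
  have h2 : ∑ a ∈ range n, ∑ b ∈ range n, X b * (G b a * w a)
      = ∑ a ∈ range n, ∑ b ∈ range n, X a * (G a b * w b) := sum_comm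
  have h3 : ∑ a ∈ range n, X a * (∑ b ∈ range n, G a b * w b)
      = ∑ a ∈ range n, ∑ b ∈ range n, X a * (G a b * w b) := by simp only [mul_sum]
  rw [h2, h3]
  ring

theorem step_S (h : Stp m δ n M) :
    SE (pv m δ n M) (fun f : Fin m → Fin n => Sf δ (n + 1) (attach n M f))
      = (1 + 2 * m / Lt m δ n + m * (m - 1) / Lt m δ n ^ 2) * Sf δ n M
        + 2 * (m + δ) * (m / Lt m δ n + m * (m - 1) / Lt m δ n ^ 2) * Qf δ n M
        + 2 * (m + δ) * m := by
  have h1 : ∀ f : Fin m → Fin n, Sf δ (n + 1) (attach n M f)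
      = Sf δ n M + (2 * ∑ l, Nb δ n M (f l) + (∑ l, ∑ l', (M (f l) (f l') : ℝ)
        + 2 * (m + δ) * (∑ l, wt δ n M (f l)
          + ∑ l, ∑ l', if (f l : ℕ) = (f l' : ℕ) then (1:ℝ) else 0))) := by
    intro f
    have e := edge_attach (δ := δ) h.good f (fun x => (x : ℝ)) Nat.cast_zero
    have e1 : Sf δ (n + 1) (attach n M f) = ∑ a ∈ range (n + 1), ∑ b ∈ range (n + 1),
        ((attach n M f a b : ℕ) : ℝ) * wt δ (n + 1) (attach n M f) a
          * wt δ (n + 1) (attach n M f) b := rfl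
    have e2 := expand_sym (n := n) (fun a b => (M a b : ℝ)) (fun a b => by rw [h.good.symm])
      (wt δ n M) (fun v => (cnt f v : ℝ))
    have e3 : ∑ a ∈ range n, (cnt f a : ℝ) * (∑ b ∈ range n, (M a b : ℝ) * wt δ n M b)
        = ∑ l, Nb δ n M (f l) := sum_cnt_mul f (Nb δ n M)
    have e4 := sum_cnt_mul2 f (fun a b => (M a b : ℝ))
    have e5 : ∑ v ∈ range n, (cnt f v : ℝ) * (wt δ n M v + cnt f v)
        = ∑ l, wt δ n M (f l) + ∑ l, ∑ l', if (f l : ℕ) = (f l' : ℕ) then (1:ℝ) else 0 := by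
      have := sum_cnt_sq f (fun _ => (1:ℝ))
      simp only [mul_one] at this
      rw [← this, ← sum_cnt_mul f (wt δ n M), ← sum_add_distrib]
      exact sum_congr rfl fun v _ => by ring
    have e6 : ∑ a ∈ range n, ∑ b ∈ range n, (M a b : ℝ) * wt δ n M a * wt δ n M b = Sf δ n M := rfl
    rw [e1, e, e2, e3, e4, e5, e6]
    ring
  rw [SE_congr h1, SE_add, SE_const h.pv_sum, SE_add, SE_mul_left, SE_lin h (Nb δ n M), av_Nb,
    SE_add, SE_quad h (fun a b => (M a b : ℝ)), SE_mul_left, SE_add, SE_lin h (wt δ n M), av_wt,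
    SE_quad h (fun a b => if a = b then (1:ℝ) else 0)]
  have h2 : av m δ n M (fun a => if a = a then (1:ℝ) else 0) = 1 := by
    simp only [if_true]
    exact av_const h 1
  have h3 : av2 m δ n M (fun a b => if a = b then (1:ℝ) else 0) = Qf δ n M / Lt m δ n ^ 2 := by
    unfold av2 Qf
    congr 1
    refine sum_congr rfl fun a ha => ?_
    rw [sum_eq_single a]
    · simp; ring
    · intro b _ hb; simp [hb.symm]
    · intro h'; exact absurd ha h'
  have h4 : av m δ n M (fun a => (M a a : ℝ)) = 0 := by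
    have : ∀ a, (M a a : ℝ) = 0 := fun a => by rw [h.good.diag]; simp
    simp only [this]
    unfold av; simp
  have h5 : av2 m δ n M (fun a b => (M a b : ℝ)) = Sf δ n M / Lt m δ n ^ 2 := by
    unfold av2 Sf
    congr 1
    exact sum_congr rfl fun a _ => sum_congr rfl fun b _ => by ring
  rw [h2, h3, h4, h5]
  have := h.L_pos.ne'
  field_simp
  ring

end
end MP751612
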