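import Pool.Agent.Lib.MP_751612_pr.Step

/-! One-step inequalities. -/

open scoped BigOperators

namespace MP751612

open Finset

section
variable {m : ℕ} {δ : ℝ} {n : ℕ} {M : MGraph}

theorem Stp.cnt_le_wt (h : Stp m δ n M) (f : Fin m → Fin n) {v : ℕ} (hv : v < n) :
    (cnt f v : ℝ) ≤ wt δ n M v := by
  have h1 : (cnt f v : ℝ) ≤ m := by exact_mod_cast cnt_le f v
  have := h.wt_ge hv
  have := h.hδ
  linarith

theorem cnt_le_m (f : Fin m → Fin n) (v : ℕ) : (cnt f v : ℝ) ≤ m := by exact_mod_cast cnt_le f v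

theorem cnt_nn (f : Fin m → Fin n) (v : ℕ) : (0:ℝ) ≤ cnt f v := Nat.cast_nonneg _

theorem Stp.Nb_nonneg (h : Stp m δ n M) (v : ℕ) : 0 ≤ Nb δ n M v := by
  unfold Nb
  exact sum_nonneg fun b _ => mul_nonneg (Nat.cast_nonneg _) (h.wt_nonneg b)

theorem Stp.wt_le_Nb (h : Stp m δ n M) {v : ℕ} (hv : v < n) : wt δ n M v ≤ Nb δ n M v := by
  have h1 : (∑ b ∈ range n, (M v b : ℝ) * ((m:ℝ) + δ)) ≤ Nb δ n M v := by
    unfold Nb
    exact sum_le_sum fun b hb => mul_le_mul_of_nonneg_left (h.wt_ge (mem_range.mp hb))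
      (Nat.cast_nonneg _)
  rw [← sum_mul] at h1
  have h2 : ∑ b ∈ range n, (M v b : ℝ) = (deg n M v : ℝ) := by unfold deg; push_cast; rfl
  rw [h2] at h1
  have h3 : (m : ℝ) ≤ deg n M v := by exact_mod_cast h.good.deg_ge v hv
  have h4 := h.m_real
  have h5 := h.hδ
  unfold wt
  have h6 : (1:ℝ) ≤ deg n M v := h4.trans h3
  nlinarith

theorem step_C_le (h : Stp m δ n M) :
    SE (pv m δ n M) (fun f : Fin m → Fin n => Cf δ (n + 1) (attach n M f))
      ≤ (1 + 3 * m / Lt m δ n) * Cf δ n M + 3 * m ^ 2 * Qf δ n M / Lt m δ n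
        + (m ^ 3 + (m + δ) ^ 3) := by
  have h1 : ∀ f : Fin m → Fin n, Cf δ (n + 1) (attach n M f)
      ≤ (Cf δ n M + (m + δ) ^ 3) + (3 * ∑ l, wt δ n M (f l) ^ 2 + (3 * m * ∑ l, wt δ n M (f l)
        + m ^ 2 * ∑ _l : Fin m, (1:ℝ))) := by
    intro f
    rw [Cf_attach h.good f, ← sum_cnt_mul f (wt δ n M), ← sum_cnt_mul f (fun v => wt δ n M v ^ 2)]
    have e1 := sum_cnt_mul f (fun _ => (1:ℝ))
    rw [← e1]
    unfold Cf
    rw [mul_sum, mul_sum, mul_sum]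
    have : ∑ v ∈ range n, (wt δ n M v + cnt f v) ^ 3 ≤ ∑ v ∈ range n, (wt δ n M v ^ 3
        + (3 * ((cnt f v : ℝ) * wt δ n M v ^ 2) + (3 * m * ((cnt f v : ℝ) * wt δ n M v)
          + m ^ 2 * ((cnt f v : ℝ) * 1)))) := by
      refine sum_le_sum fun v hv => ?_
      have hx := cnt_nn f v
      have hx2 := cnt_le_m f v
      have hw := h.wt_nonneg v
      have a1 : (cnt f v : ℝ) ^ 2 ≤ m * cnt f v := by nlinarith
      have a2 : (cnt f v : ℝ) ^ 3 ≤ m ^ 2 * cnt f v := by nlinarith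
      have a3 : wt δ n M v * (cnt f v : ℝ) ^ 2 ≤ wt δ n M v * (m * cnt f v) :=
        mul_le_mul_of_nonneg_left a1 hw
      nlinarith
    rw [sum_add_distrib, sum_add_distrib, sum_add_distrib] at this
    linarith
  refine (SE_mono h.pv_nonneg h1).trans (le_of_eq ?_)
  rw [SE_add, SE_const h.pv_sum, SE_add, SE_mul_left, SE_lin h (fun v => wt δ n M v ^ 2), av_wt2,
    SE_add, SE_mul_left, SE_lin h (wt δ n M), av_wt, SE_mul_left, SE_lin h (fun _ => (1:ℝ)),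
    av_const h]
  have := h.L_pos.ne'
  field_simp
  ring

theorem av2_diag (g : ℕ → ℝ) :
    av2 m δ n M (fun a b => if a = b then g a else 0)
      = (∑ a ∈ range n, wt δ n M a ^ 2 * g a) / Lt m δ n ^ 2 := by
  unfold av2
  congr 1
  refine sum_congr rfl fun a ha => ?_
  rw [sum_eq_single a]
  · simp only [if_true]; ring
  · intro b _ hb; simp [hb.symm]
  · intro h'; exact absurd ha h'

theorem step_U_le (h : Stp m δ n M) :
    SE (pv m δ n M) (fun f : Fin m → Fin n => Uf δ (n + 1) (attach n M f))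
      ≤ (1 + 2 * m / Lt m δ n + m * (m - 1) / Lt m δ n ^ 2) * Uf δ n M
        + 4 * (m + δ) * m * (m - 1) * Cf δ n M / Lt m δ n ^ 2 := by
  set G : ℕ → ℕ → ℝ := fun a b => (M a b : ℝ) * ((M a b : ℝ) - 1) with hG
  set g : ℕ → ℝ := fun a => ∑ b ∈ range n, G a b * wt δ n M b with hg
  have h1 : ∀ f : Fin m → Fin n, Uf δ (n + 1) (attach n M f)
      ≤ Uf δ n M + (2 * ∑ l, g (f l) + (∑ l, ∑ l', G (f l) (f l')
        + 4 * (m + δ) * ((∑ l, ∑ l', if (f l : ℕ) = (f l' : ℕ) then wt δ n M (f l) else 0)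
          - ∑ l, wt δ n M (f l)))) := by
    intro f
    have e := edge_attach (δ := δ) h.good f (fun x => (x : ℝ) * ((x : ℝ) - 1)) (by simp)
    have e1 : Uf δ (n + 1) (attach n M f) = ∑ a ∈ range (n + 1), ∑ b ∈ range (n + 1),
        ((attach n M f a b : ℕ) : ℝ) * (((attach n M f a b : ℕ) : ℝ) - 1)
          * wt δ (n + 1) (attach n M f) a * wt δ (n + 1) (attach n M f) b := rfl
    have e2 := expand_sym (n := n) G (fun a b => by simp only [hG]; rw [h.good.symm])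
      (wt δ n M) (fun v => (cnt f v : ℝ))
    have e3 : ∑ a ∈ range n, (cnt f a : ℝ) * (∑ b ∈ range n, G a b * wt δ n M b)
        = ∑ l, g (f l) := sum_cnt_mul f g
    have e4 := sum_cnt_mul2 f G
    have e5 : ∑ v ∈ range n, (cnt f v : ℝ) * ((cnt f v : ℝ) - 1) * (wt δ n M v + cnt f v)
        ≤ 2 * ((∑ l, ∑ l', if (f l : ℕ) = (f l' : ℕ) then wt δ n M (f l) else 0)
          - ∑ l, wt δ n M (f l)) := by
      rw [← sum_cnt_sq f (wt δ n M), ← sum_cnt_mul f (wt δ n M), ← sum_sub_distrib, mul_sum]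
      refine sum_le_sum fun v hv => ?_
      have b1 := h.cnt_le_wt f (mem_range.mp hv)
      have b2 : 0 ≤ (cnt f v : ℝ) * ((cnt f v : ℝ) - 1) := by
        rcases Nat.eq_zero_or_pos (cnt f v) with h0 | h0
        · rw [h0]; simp
        · have : (1:ℝ) ≤ cnt f v := by exact_mod_cast h0
          exact mul_nonneg (by linarith) (by linarith)
      nlinarith
    have e6 : ∑ a ∈ range n, ∑ b ∈ range n, G a b * wt δ n M a * wt δ n M b = Uf δ n M := rfl
    have e7 : ∑ a ∈ range n, ∑ b ∈ range n, (M a b : ℝ) * ((M a b : ℝ) - 1)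
        * (wt δ n M a + cnt f a) * (wt δ n M b + cnt f b)
        = ∑ a ∈ range n, ∑ b ∈ range n, G a b * (wt δ n M a + cnt f a) * (wt δ n M b + cnt f b) :=
      rfl
    rw [e1, e, e7, e2, e3, e4, e6]
    have hmd : 0 ≤ 2 * ((m:ℝ) + δ) := by have := h.hδ; positivity
    have := mul_le_mul_of_nonneg_left e5 hmd
    linarith
  refine (SE_mono h.pv_nonneg h1).trans (le_of_eq ?_)
  rw [SE_add, SE_const h.pv_sum, SE_add, SE_mul_left, SE_lin h g, SE_add, SE_quad h G,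
    SE_mul_left, SE_sub, SE_quad h (fun a b => if a = b then wt δ n M a else 0),
    SE_lin h (wt δ n M), av_wt, av2_diag]
  have h2 : av m δ n M (fun a => if a = a then wt δ n M a else 0) = Qf δ n M / Lt m δ n := by
    simp only [if_true]
    exact av_wt
  have h4 : av m δ n M (fun a => G a a) = 0 := by
    have : ∀ a, G a a = 0 := fun a => by simp only [hG]; rw [h.good.diag]; simp
    simp only [this]
    unfold av; simp
  have h5 : av2 m δ n M G = Uf δ n M / Lt m δ n ^ 2 := by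
    unfold av2 Uf
    congr 1
    exact sum_congr rfl fun a _ => sum_congr rfl fun b _ => by simp only [hG]; ring
  have h6 : av m δ n M g = Uf δ n M / Lt m δ n := by
    unfold av Uf
    congr 1
    refine sum_congr rfl fun a _ => ?_
    simp only [hg, hG]
    rw [mul_sum]
    exact sum_congr rfl fun b _ => by ring
  have h7 : (∑ a ∈ range n, wt δ n M a ^ 2 * wt δ n M a) = Cf δ n M := by
    unfold Cf
    exact sum_congr rfl fun a _ => by ring
  rw [h2, h4, h5, h6, h7]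
  have := h.L_pos.ne'
  field_simp
  ring


/-- constant in the recursion for `R` -/
noncomputable def KR (m : ℕ) (δ ε : ℝ) : ℝ :=
  (m + δ) ^ 2 * m / ε + 4 * (m + δ) * m ^ 2
    + (2 + 1 / ε) * (2 * m ^ 3 + 2 * (m + δ) ^ 2 * m ^ 2)

theorem step_R_le (h : Stp m δ n M) {ε : ℝ} (hε : 0 < ε) :
    SE (pv m δ n M) (fun f : Fin m → Fin n => Rf δ (n + 1) (attach n M f))
      ≤ (1 + (3 + 2 * ε) * m / Lt m δ n) * Rf δ n M
        + KR m δ ε * ((Cf δ n M + Sf δ n M + Qf δ n M) / Lt m δ n) := by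
  have hδ := h.hδ
  have hm1 := h.m_real
  set g1 : ℕ → ℝ := fun b => ∑ v ∈ range n, wt δ n M v * Nb δ n M v * (M v b : ℝ) with hg1
  set g2 : ℕ → ℝ := fun b => ∑ v ∈ range n, wt δ n M v * (M v b : ℝ) with hg2
  -- pathwise inequality at a single vertex
  have key : ∀ (f : Fin m → Fin n) (v : ℕ), v < n →
      (wt δ n M v + cnt f v)
          * (Nb δ n M v + ∑ b ∈ range n, (M v b : ℝ) * cnt f b + (m + δ) * cnt f v) ^ 2
      ≤ wt δ n M v * Nb δ n M v ^ 2 + (1 + 2 * ε) * ((cnt f v : ℝ) * Nb δ n M v ^ 2)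
        + 2 * (wt δ n M v * Nb δ n M v * ∑ b ∈ range n, (M v b : ℝ) * cnt f b)
        + (m + δ) ^ 2 / ε * ((cnt f v : ℝ) * wt δ n M v ^ 2)
        + (2 + 1 / ε) * (2 * m ^ 2) * (wt δ n M v * ∑ b ∈ range n, (M v b : ℝ) * cnt f b)
        + (2 + 1 / ε) * (2 * (m + δ) ^ 2 * m) * ((cnt f v : ℝ) * wt δ n M v) := by
    intro f v hv
    set X : ℝ := (cnt f v : ℝ) with hX
    set N : ℝ := Nb δ n M v with hN
    set w : ℝ := wt δ n M v with hw
    set Y : ℝ := ∑ b ∈ range n, (M v b : ℝ) * cnt f b with hY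
    have x0 : 0 ≤ X := cnt_nn f v
    have xm : X ≤ m := cnt_le_m f v
    have wm : (m:ℝ) + δ ≤ w := h.wt_ge hv
    have w0 : 0 ≤ w := h.wt_nonneg v
    have N0 : 0 ≤ N := h.Nb_nonneg v
    have Y0 : 0 ≤ Y := sum_nonneg fun b _ => mul_nonneg (Nat.cast_nonneg _) (cnt_nn f b)
    have Ym : Y ≤ m ^ 2 := by
      have : Y ≤ ∑ b ∈ range n, (m:ℝ) * cnt f b := by
        refine sum_le_sum fun b _ => mul_le_mul_of_nonneg_right ?_ (cnt_nn f b)
        exact_mod_cast h.good.le_m v b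
      rw [← mul_sum] at this
      have hc : ∑ b ∈ range n, (cnt f b : ℝ) = m := by exact_mod_cast sum_cnt f
      rw [hc] at this
      nlinarith
    have YY : Y ^ 2 ≤ m ^ 2 * Y := by nlinarith
    have XX : X ^ 2 ≤ m * X := by nlinarith
    set Z : ℝ := Y + (m + δ) * X with hZ
    have Z0 : 0 ≤ Z := by positivity
    have e0 : (w + X) * (N + Y + (m + δ) * X) ^ 2
        = w * N ^ 2 + X * N ^ 2 + 2 * w * N * Y + 2 * (m + δ) * w * N * X + 2 * X * N * Z
          + (w + X) * Z ^ 2 := by rw [hZ]; ring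
    have ie : (1 / ε) * ε = 1 := by field_simp
    have i1 : 2 * X * N * Z ≤ ε * (X * N ^ 2) + (1 / ε) * (w * Z ^ 2) := by
      have a1 : 2 * (N * Z) ≤ ε * N ^ 2 + (1 / ε) * Z ^ 2 := by
        have := mul_nonneg (by positivity : 0 ≤ 1 / ε) (sq_nonneg (ε * N - Z))
        have e : 1 / ε * (ε * N - Z) ^ 2 = (1 / ε * ε) * ε * N ^ 2 - 2 * (1 / ε * ε) * (N * Z)
          + 1 / ε * Z ^ 2 := by ring
        rw [e, ie] at this
        linarith
      have a2 := mul_le_mul_of_nonneg_left a1 x0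
      have a3 : X * ((1 / ε) * Z ^ 2) ≤ w * ((1 / ε) * Z ^ 2) :=
        mul_le_mul_of_nonneg_right (by linarith) (by positivity)
      nlinarith
    have i2 : 2 * (m + δ) * w * N * X ≤ ε * (X * N ^ 2) + (m + δ) ^ 2 / ε * (X * w ^ 2) := by
      have a1 : 2 * (N * ((m + δ) * w)) ≤ ε * N ^ 2 + (1 / ε) * ((m + δ) * w) ^ 2 := by
        have := mul_nonneg (by positivity : 0 ≤ 1 / ε) (sq_nonneg (ε * N - (m + δ) * w))
        have e : 1 / ε * (ε * N - (m + δ) * w) ^ 2 = (1 / ε * ε) * ε * N ^ 2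
          - 2 * (1 / ε * ε) * (N * ((m + δ) * w)) + 1 / ε * ((m + δ) * w) ^ 2 := by ring
        rw [e, ie] at this
        linarith
      have a2 := mul_le_mul_of_nonneg_left a1 x0
      have e : X * (ε * N ^ 2 + (1 / ε) * ((m + δ) * w) ^ 2)
        = ε * (X * N ^ 2) + (m + δ) ^ 2 / ε * (X * w ^ 2) := by ring
      rw [e] at a2
      linarith
    have i3 : (w + X) * Z ^ 2 ≤ 2 * (w * Z ^ 2) := by nlinarith [sq_nonneg Z]
    have i4 : w * Z ^ 2 ≤ 2 * m ^ 2 * (w * Y) + 2 * (m + δ) ^ 2 * m * (X * w) := by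
      have a1 : Z ^ 2 ≤ 2 * Y ^ 2 + 2 * ((m + δ) * X) ^ 2 := by
        rw [hZ]; nlinarith [sq_nonneg (Y - (m + δ) * X)]
      have a2 : Z ^ 2 ≤ 2 * (m ^ 2 * Y) + 2 * (m + δ) ^ 2 * (m * X) := by
        have : (m + δ) ^ 2 * X ^ 2 ≤ (m + δ) ^ 2 * (m * X) :=
          mul_le_mul_of_nonneg_left XX (by positivity)
        nlinarith
      have := mul_le_mul_of_nonneg_left a2 w0
      nlinarith
    have i5 : (1 / ε) * (w * Z ^ 2) + 2 * (w * Z ^ 2)
        ≤ (2 + 1 / ε) * (2 * m ^ 2) * (w * Y) + (2 + 1 / ε) * (2 * (m + δ) ^ 2 * m) * (X * w) := by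
      have := mul_le_mul_of_nonneg_left i4 (by positivity : 0 ≤ 2 + 1 / ε)
      nlinarith
    rw [e0]
    linarith
  have h1 : ∀ f : Fin m → Fin n, Rf δ (n + 1) (attach n M f)
      ≤ Rf δ n M + ((1 + 2 * ε) * ∑ l, Nb δ n M (f l) ^ 2 + (2 * ∑ l, g1 (f l)
        + ((m + δ) ^ 2 / ε * ∑ l, wt δ n M (f l) ^ 2
          + ((2 + 1 / ε) * (2 * m ^ 2) * ∑ l, g2 (f l)
            + ((2 + 1 / ε) * (2 * (m + δ) ^ 2 * m) * ∑ l, wt δ n M (f l)
              + 4 * (m + δ) * (∑ l, wt δ n M (f l)) ^ 2))))) := by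
    intro f
    rw [Rf_attach h.good f]
    have s1 := sum_le_sum (fun v hv => key f v (mem_range.mp hv) : ∀ v ∈ range n, _)
    rw [sum_add_distrib, sum_add_distrib, sum_add_distrib, sum_add_distrib, sum_add_distrib,
      ← mul_sum, ← mul_sum, ← mul_sum, ← mul_sum, ← mul_sum] at s1
    rw [sum_cnt_mul f (fun v => Nb δ n M v ^ 2), sum_cnt_mul f (fun v => wt δ n M v ^ 2),
      sum_cnt_mul f (wt δ n M)] at s1
    have e1 : ∑ v ∈ range n, wt δ n M v * Nb δ n M v * ∑ b ∈ range n, (M v b : ℝ) * cnt f b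
        = ∑ l, g1 (f l) := by
      rw [← sum_cnt_mul f g1]
      simp only [hg1, mul_sum]
      rw [sum_comm]
      exact sum_congr rfl fun b _ => sum_congr rfl fun v _ => by ring
    have e2 : ∑ v ∈ range n, wt δ n M v * ∑ b ∈ range n, (M v b : ℝ) * cnt f b
        = ∑ l, g2 (f l) := by
      rw [← sum_cnt_mul f g2]
      simp only [hg2, mul_sum]
      rw [sum_comm]
      exact sum_congr rfl fun b _ => sum_congr rfl fun v _ => by ring
    rw [e1, e2] at s1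
    have s2 : (∑ v ∈ range n, (cnt f v : ℝ) * (wt δ n M v + cnt f v)) ^ 2
        ≤ 4 * (∑ l, wt δ n M (f l)) ^ 2 := by
      have a1 : ∑ v ∈ range n, (cnt f v : ℝ) * (wt δ n M v + cnt f v)
          ≤ 2 * ∑ l, wt δ n M (f l) := by
        rw [← sum_cnt_mul f (wt δ n M), mul_sum]
        refine sum_le_sum fun v hv => ?_
        have := h.cnt_le_wt f (mem_range.mp hv)
        have := cnt_nn f v
        nlinarith
      have a0 : 0 ≤ ∑ v ∈ range n, (cnt f v : ℝ) * (wt δ n M v + cnt f v) :=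
        sum_nonneg fun v _ => mul_nonneg (cnt_nn f v) (add_nonneg (h.wt_nonneg v) (cnt_nn f v))
      nlinarith
    have s3 := mul_le_mul_of_nonneg_left s2 (by positivity : 0 ≤ (m:ℝ) + δ)
    have e3 : ∑ v ∈ range n, wt δ n M v * Nb δ n M v ^ 2 = Rf δ n M := rfl
    rw [e3] at s1
    linarith
  refine (SE_mono h.pv_nonneg h1).trans ?_
  rw [SE_add, SE_const h.pv_sum, SE_add, SE_mul_left, SE_lin h (fun v => Nb δ n M v ^ 2), av_Nb2,
    SE_add, SE_mul_left, SE_lin h g1, SE_add, SE_mul_left, SE_lin h (fun v => wt δ n M v ^ 2),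
    av_wt2, SE_add, SE_mul_left, SE_lin h g2, SE_add, SE_mul_left, SE_lin h (wt δ n M), av_wt,
    SE_mul_left]
  have s5 := SE_sq_lin_le h (wt δ n M)
  rw [av_wt2] at s5
  have h6 : av m δ n M g1 = Rf δ n M / Lt m δ n := by
    unfold av Rf
    congr 1
    simp only [hg1, mul_sum]
    rw [sum_comm]
    refine sum_congr rfl fun v _ => ?_
    have : Nb δ n M v ^ 2 = Nb δ n M v * ∑ b ∈ range n, (M v b : ℝ) * wt δ n M b := by
      rw [sq]; rfl
    rw [this, mul_sum, mul_sum]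
    exact sum_congr rfl fun b _ => by ring
  have h7 : av m δ n M g2 = Sf δ n M / Lt m δ n := by
    unfold av Sf
    congr 1
    simp only [hg2, mul_sum]
    rw [sum_comm]
    exact sum_congr rfl fun a _ => sum_congr rfl fun b _ => by ring
  rw [h6, h7]
  have L0 := h.L_pos
  have s6 := mul_le_mul_of_nonneg_left s5 (by positivity : 0 ≤ 4 * ((m:ℝ) + δ))
  have Q0 : 0 ≤ Qf δ n M / Lt m δ n := div_nonneg (sum_nonneg fun v _ => sq_nonneg _) L0.le
  have C0 : 0 ≤ Cf δ n M / Lt m δ n :=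
    div_nonneg (sum_nonneg fun v _ => pow_nonneg (h.wt_nonneg v) 3) L0.le
  have S0 : 0 ≤ Sf δ n M / Lt m δ n :=
    div_nonneg (sum_nonneg fun a _ => sum_nonneg fun b _ =>
      mul_nonneg (mul_nonneg (Nat.cast_nonneg _) (h.wt_nonneg a)) (h.wt_nonneg b)) L0.le
  have c1 : 0 ≤ (m + δ) ^ 2 * m / ε := by positivity
  have c2 : 0 ≤ 4 * (m + δ) * m ^ 2 := by positivity
  have c3 : 0 ≤ (2 + 1 / ε) * (2 * (m:ℝ) ^ 3) := by positivity
  have c4 : 0 ≤ (2 + 1 / ε) * (2 * (m + δ) ^ 2 * (m:ℝ) ^ 2) := by positivity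
  have e8 : (1 + (3 + 2 * ε) * m / Lt m δ n) * Rf δ n M
        + KR m δ ε * ((Cf δ n M + Sf δ n M + Qf δ n M) / Lt m δ n)
      = Rf δ n M + (3 + 2 * ε) * m * (Rf δ n M / Lt m δ n)
        + KR m δ ε * (Cf δ n M / Lt m δ n) + KR m δ ε * (Sf δ n M / Lt m δ n)
        + KR m δ ε * (Qf δ n M / Lt m δ n) := by ring
  rw [e8]
  have k1 : (m + δ) ^ 2 * m / ε * (Cf δ n M / Lt m δ n) + 4 * (m + δ) * m ^ 2 * (Cf δ n M / Lt m δ n)
      ≤ KR m δ ε * (Cf δ n M / Lt m δ n) := by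
    rw [← add_mul]
    apply mul_le_mul_of_nonneg_right _ C0
    unfold KR
    nlinarith
  have k2 : (2 + 1 / ε) * (2 * (m:ℝ) ^ 3) * (Sf δ n M / Lt m δ n)
      ≤ KR m δ ε * (Sf δ n M / Lt m δ n) := by
    apply mul_le_mul_of_nonneg_right _ S0
    unfold KR
    nlinarith
  have k3 : (2 + 1 / ε) * (2 * (m + δ) ^ 2 * (m:ℝ) ^ 2) * (Qf δ n M / Lt m δ n)
      ≤ KR m δ ε * (Qf δ n M / Lt m δ n) := by
    apply mul_le_mul_of_nonneg_right _ Q0
    unfold KR
    nlinarith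
  have e9 : (m + δ) ^ 2 / ε * (m * (Cf δ n M / Lt m δ n))
      = (m + δ) ^ 2 * m / ε * (Cf δ n M / Lt m δ n) := by ring
  nlinarith

theorem var_Q_le (h : Stp m δ n M) :
    SE (pv m δ n M) (fun f : Fin m → Fin n => (Qf δ (n + 1) (attach n M f)
        - SE (pv m δ n M) (fun f : Fin m → Fin n => Qf δ (n + 1) (attach n M f))) ^ 2)
      ≤ 9 * m ^ 2 * (Cf δ n M / Lt m δ n) := by
  refine (SE_var_le h _ (Qf δ n M + (m + δ) ^ 2)).trans ?_
  have h1 : ∀ f : Fin m → Fin n, (Qf δ (n + 1) (attach n M f) - (Qf δ n M + (m + δ) ^ 2)) ^ 2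
      ≤ 9 * (∑ l, wt δ n M (f l)) ^ 2 := by
    intro f
    rw [Qf_attach h.good f, ← sum_cnt_mul f (wt δ n M)]
    have a1 : ∑ v ∈ range n, (cnt f v : ℝ) ^ 2 ≤ ∑ v ∈ range n, (cnt f v : ℝ) * wt δ n M v := by
      refine sum_le_sum fun v hv => ?_
      have := h.cnt_le_wt f (mem_range.mp hv)
      have := cnt_nn f v
      nlinarith
    have a0 : 0 ≤ ∑ v ∈ range n, (cnt f v : ℝ) ^ 2 := sum_nonneg fun v _ => sq_nonneg _
    have e : Qf δ n M + 2 * ∑ v ∈ range n, (cnt f v : ℝ) * wt δ n M v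
      + ∑ v ∈ range n, (cnt f v : ℝ) ^ 2 + (m + δ) ^ 2 - (Qf δ n M + (m + δ) ^ 2)
      = 2 * ∑ v ∈ range n, (cnt f v : ℝ) * wt δ n M v + ∑ v ∈ range n, (cnt f v : ℝ) ^ 2 := by ring
    rw [e]
    nlinarith
  refine (SE_mono h.pv_nonneg h1).trans ?_
  rw [SE_mul_left]
  have := SE_sq_lin_le h (wt δ n M)
  rw [av_wt2] at this
  nlinarith

theorem var_S_le (h : Stp m δ n M) :
    SE (pv m δ n M) (fun f : Fin m → Fin n => (Sf δ (n + 1) (attach n M f)
        - SE (pv m δ n M) (fun f : Fin m → Fin n => Sf δ (n + 1) (attach n M f))) ^ 2)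
      ≤ (3 + 4 * (m + δ)) ^ 2 * m ^ 2 * (Rf δ n M / Lt m δ n) := by
  have hδ := h.hδ
  refine (SE_var_le h _ (Sf δ n M)).trans ?_
  have h1 : ∀ f : Fin m → Fin n, (Sf δ (n + 1) (attach n M f) - Sf δ n M) ^ 2
      ≤ (3 + 4 * (m + δ)) ^ 2 * (∑ l, Nb δ n M (f l)) ^ 2 := by
    intro f
    have e := edge_attach (δ := δ) h.good f (fun x => (x : ℝ)) Nat.cast_zero
    have e1 : Sf δ (n + 1) (attach n M f) = ∑ a ∈ range (n + 1), ∑ b ∈ range (n + 1),
        ((attach n M f a b : ℕ) : ℝ) * wt δ (n + 1) (attach n M f) a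
          * wt δ (n + 1) (attach n M f) b := rfl
    have e2 := expand_sym (n := n) (fun a b => (M a b : ℝ)) (fun a b => by rw [h.good.symm])
      (wt δ n M) (fun v => (cnt f v : ℝ))
    have e3 : ∑ a ∈ range n, (cnt f a : ℝ) * (∑ b ∈ range n, (M a b : ℝ) * wt δ n M b)
        = ∑ l, Nb δ n M (f l) := sum_cnt_mul f (Nb δ n M)
    have e6 : ∑ a ∈ range n, ∑ b ∈ range n, (M a b : ℝ) * wt δ n M a * wt δ n M b = Sf δ n M := rfl
    rw [e1, e, e2, e3, e6]
    have a0 : 0 ≤ ∑ l, Nb δ n M (f l) := sum_nonneg fun l _ => h.Nb_nonneg _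
    have a1 : ∑ a ∈ range n, ∑ b ∈ range n, (M a b : ℝ) * (cnt f a : ℝ) * cnt f b
        ≤ ∑ l, Nb δ n M (f l) := by
      rw [← e3]
      refine sum_le_sum fun a _ => ?_
      rw [mul_sum]
      refine sum_le_sum fun b hb => ?_
      have t1 := h.cnt_le_wt f (mem_range.mp hb)
      have t2 : (0:ℝ) ≤ (M a b : ℝ) * cnt f a := mul_nonneg (Nat.cast_nonneg _) (cnt_nn f a)
      calc (M a b : ℝ) * (cnt f a : ℝ) * cnt f b ≤ (M a b : ℝ) * (cnt f a : ℝ) * wt δ n M b :=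
            mul_le_mul_of_nonneg_left t1 t2
        _ = _ := by ring
    have a2 : ∑ v ∈ range n, (cnt f v : ℝ) * (wt δ n M v + cnt f v)
        ≤ 2 * ∑ l, Nb δ n M (f l) := by
      rw [← sum_cnt_mul f (Nb δ n M), mul_sum]
      refine sum_le_sum fun v hv => ?_
      have t1 := h.cnt_le_wt f (mem_range.mp hv)
      have t2 := h.wt_le_Nb (mem_range.mp hv)
      have t3 := cnt_nn f v
      nlinarith
    have b1 : 0 ≤ ∑ a ∈ range n, ∑ b ∈ range n, (M a b : ℝ) * (cnt f a : ℝ) * cnt f b :=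
      sum_nonneg fun a _ => sum_nonneg fun b _ =>
        mul_nonneg (mul_nonneg (Nat.cast_nonneg _) (cnt_nn f a)) (cnt_nn f b)
    have b2 : 0 ≤ ∑ v ∈ range n, (cnt f v : ℝ) * (wt δ n M v + cnt f v) :=
      sum_nonneg fun v _ => mul_nonneg (cnt_nn f v) (add_nonneg (h.wt_nonneg v) (cnt_nn f v))
    set A := ∑ l, Nb δ n M (f l)
    set B := ∑ a ∈ range n, ∑ b ∈ range n, (M a b : ℝ) * (cnt f a : ℝ) * cnt f b
    set D := ∑ v ∈ range n, (cnt f v : ℝ) * (wt δ n M v + cnt f v)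
    have e7 : Sf δ n M + 2 * A + B + 2 * (m + δ) * D - Sf δ n M = 2 * A + B + 2 * (m + δ) * D := by
      ring
    rw [e7]
    have b3 : 2 * ((m:ℝ) + δ) * D ≤ 2 * (m + δ) * (2 * A) :=
      mul_le_mul_of_nonneg_left a2 (by positivity)
    have b4 : 0 ≤ 2 * ((m:ℝ) + δ) * D := by positivity
    rw [← mul_pow]
    apply pow_le_pow_left₀ (by positivity)
    nlinarith
  refine (SE_mono h.pv_nonneg h1).trans ?_
  rw [SE_mul_left]
  have := SE_sq_lin_le h (Nb δ n M)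
  rw [av_Nb2] at this
  have c : 0 ≤ (3 + 4 * ((m:ℝ) + δ)) ^ 2 := sq_nonneg _
  calc _ ≤ (3 + 4 * ((m:ℝ) + δ)) ^ 2 * (m ^ 2 * (Rf δ n M / Lt m δ n)) :=
        mul_le_mul_of_nonneg_left this c
    _ = _ := by ring

end
end MP751612
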