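import Pool.Agent.Lib.MP_751612_pr.Bounds
import Pool.Agent.Lib.MP_751612_pr.Poi

/-! Telescoping comparison of `T_n` with a Poisson variable, and the variance of `T_n`. -/

open MeasureTheory ProbabilityTheory Filter Topology
open scoped ENNReal NNReal BigOperators

namespace MP751612

variable {m : ℕ} {δ : ℝ}

/-- conditional mean of the number of new triangles -/
noncomputable def lamF (m : ℕ) (δ : ℝ) (n : ℕ) (M : MGraph) : ℝ :=
  m * (m - 1) / 2 * Sf δ n M / Lt m δ n ^ 2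

/-- `E[ΔT]` -/
noncomputable def cc (m : ℕ) {δ : ℝ} (hδ : 0 < δ) (k : ℕ) : ℝ := EG m hδ k (lamF m δ)

/-- conditional second factorial moment of the number of new triangles -/
noncomputable def phF (m : ℕ) (δ : ℝ) (n : ℕ) (M : MGraph) : ℝ :=
  SE (pv m δ n M) (fun f : Fin m → Fin n => (newTri n M f : ℝ) * ((newTri n M f : ℝ) - 1))

noncomputable def ph (m : ℕ) {δ : ℝ} (hδ : 0 < δ) (k : ℕ) : ℝ := EG m hδ k (phF m δ)

noncomputable def rr (m : ℕ) {δ : ℝ} (hδ : 0 < δ) (k : ℕ) : ℝ := √(VG m hδ k (lamF m δ))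

noncomputable def ak (m : ℕ) (δ : ℝ) (k : ℕ) : ℝ := m * (m - 1) / 2 / Ls m δ k ^ 2

theorem lamF_eq (k : ℕ) (M : MGraph) :
    lamF m δ (k + 2) M = ak m δ k * Sf δ (k + 2) M := by
  unfold lamF ak Ls; ring

theorem cc_eq (hδ : 0 < δ) (k : ℕ) : cc m hδ k = ak m δ k * EG m hδ k (Sf δ) := by
  unfold cc EG
  rw [Ex_congr m hδ k fun ω => lamF_eq k (graph m k ω), Ex_mul_left]

theorem VG_lam (hδ : 0 < δ) (k : ℕ) :
    VG m hδ k (lamF m δ) = ak m δ k ^ 2 * VG m hδ k (Sf δ) := by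
  have h := cc_eq (m := m) hδ k
  unfold cc at h
  unfold VG
  rw [h, ← Ex_mul_left]
  refine Ex_congr m hδ k fun ω => ?_
  rw [lamF_eq]; ring

theorem ak_nn (hm : 1 ≤ m) (k : ℕ) : 0 ≤ ak m δ k := by
  have hm1 : (1:ℝ) ≤ m := by exact_mod_cast hm
  unfold ak
  exact div_nonneg (div_nonneg (mul_nonneg (by positivity) (by linarith)) (by norm_num))
    (sq_nonneg _)

theorem ak_le (hm : 1 ≤ m) (hδ : 0 < δ) (k : ℕ) :
    ak m δ k ≤ (m * (m - 1) / 2 / δ ^ 2) * P (-2) k := by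
  have hm1 : (1:ℝ) ≤ m := by exact_mod_cast hm
  have h0 : (0:ℝ) ≤ m * (m - 1) / 2 :=
    div_nonneg (mul_nonneg (by positivity) (by linarith)) (by norm_num)
  have h2 : (δ * ((k:ℝ) + 2)) ^ 2 ≤ Ls m δ k ^ 2 :=
    pow_le_pow_left₀ (mul_pos hδ (nk_pos k)).le (Ls_ge k) 2
  have np := nk_pos k
  unfold ak
  refine (div_le_div_of_nonneg_left h0 (by positivity) h2).trans (le_of_eq ?_)
  have e : P (-2) k = 1 / (((k:ℝ) + 2) * ((k:ℝ) + 2)) := by
    rw [← P_zero k, ← div_div, P_div, P_div]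
    norm_num
  rw [e]
  have := np.ne'
  field_simp

/-- exponent -/
noncomputable def eta (m : ℕ) (δ : ℝ) : ℝ := kap m δ / 4

theorem rr_bd (hm : 1 ≤ m) (hδ : 0 < δ) :
    ∃ K : ℝ, 0 ≤ K ∧ ∀ k, rr m hδ k ≤ K * P (-1 - eta m δ) k := by
  obtain ⟨Kv, hKv, hv⟩ := vS_bd hm hδ
  have hm1 : (1:ℝ) ≤ m := by exact_mod_cast hm
  have h0 : (0:ℝ) ≤ m * (m - 1) / 2 / δ ^ 2 :=
    div_nonneg (div_nonneg (mul_nonneg (by positivity) (by linarith)) (by norm_num)) (by positivity)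
  refine ⟨(m * (m - 1) / 2 / δ ^ 2) * √Kv, by positivity, fun k => ?_⟩
  unfold rr
  rw [VG_lam, Real.sqrt_mul (sq_nonneg _), Real.sqrt_sq (ak_nn hm k)]
  have h1 : √(VG m hδ k (Sf δ)) ≤ √Kv * P (1 - eta m δ) k := by
    apply Real.sqrt_le_iff.mpr
    refine ⟨mul_nonneg (Real.sqrt_nonneg _) (P_nonneg _ _), ?_⟩
    rw [mul_pow, Real.sq_sqrt hKv, sq (P _ _), ← P_add]
    have e : (1 - eta m δ) + (1 - eta m δ) = 2 - kap m δ / 2 := by unfold eta; ring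
    rw [e]
    exact hv k
  have h2 := mul_le_mul (ak_le hm hδ k) h1 (Real.sqrt_nonneg _)
    (mul_nonneg h0 (P_nonneg _ _))
  refine h2.trans (le_of_eq ?_)
  have e : P (-1 - eta m δ) k = P (-2) k * P (1 - eta m δ) k := by
    rw [← P_add]; congr 1; ring
  rw [e]; ring

theorem cc_nn (hm : 1 ≤ m) (hδ : 0 < δ) (k : ℕ) : 0 ≤ cc m hδ k := by
  rw [cc_eq]; exact mul_nonneg (ak_nn hm k) (s_nn hm hδ k)

theorem cc_bd (hm : 1 ≤ m) (hδ : 0 < δ) :
    ∃ K : ℝ, 0 ≤ K ∧ ∀ k, cc m hδ k ≤ K * P (-1) k := by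
  obtain ⟨Ks, hKs, hs⟩ := s_bd hm hδ
  have hm1 : (1:ℝ) ≤ m := by exact_mod_cast hm
  have h0 : (0:ℝ) ≤ m * (m - 1) / 2 / δ ^ 2 :=
    div_nonneg (div_nonneg (mul_nonneg (by positivity) (by linarith)) (by norm_num)) (by positivity)
  refine ⟨(m * (m - 1) / 2 / δ ^ 2) * Ks, by positivity, fun k => ?_⟩
  rw [cc_eq]
  have h2 := mul_le_mul (ak_le hm hδ k) (hs k) (s_nn hm hδ k) (mul_nonneg h0 (P_nonneg _ _))
  refine h2.trans (le_of_eq ?_)
  have e : P (-1) k = P (-2) k * P 1 k := by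
    rw [← P_add]; congr 1; ring
  rw [e]; ring

theorem eta_pos (hδ : 0 < δ) : 0 < eta m δ := div_pos (kap_pos hδ) (by norm_num)
theorem eta_lt (hm : 1 ≤ m) (hδ : 0 < δ) : eta m δ < 1 / 4 := by
  unfold eta; have := kap_lt_one hm hδ; linarith

theorem cc2_bd (hm : 1 ≤ m) (hδ : 0 < δ) :
    ∃ K : ℝ, 0 ≤ K ∧ ∀ k, cc m hδ k ^ 2 ≤ K * P (-1 - eta m δ) k := by
  obtain ⟨Kc, hKc, hc⟩ := cc_bd hm hδ
  refine ⟨Kc ^ 2, by positivity, fun k => ?_⟩
  have h1 := pow_le_pow_left₀ (cc_nn hm hδ k) (hc k) 2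
  refine h1.trans ?_
  rw [mul_pow, sq (P _ _), ← P_add]
  apply mul_le_mul_of_nonneg_left _ (by positivity)
  apply P_mono
  have := eta_lt hm hδ
  linarith

theorem ph_nn (hm : 1 ≤ m) (hδ : 0 < δ) (k : ℕ) : 0 ≤ ph m hδ k :=
  EG_nonneg hδ k fun ω => SE_nonneg (stp_graph hm hδ k ω).pv_nonneg fun f => newTri_fact_nonneg f

theorem ph_bd (hm : 1 ≤ m) (hδ : 0 < δ) :
    ∃ K : ℝ, 0 ≤ K ∧ ∀ k, ph m hδ k ≤ K * P (-1 - eta m δ) k := by
  obtain ⟨Ku, hKu, hu⟩ := u_bd hm hδ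
  obtain ⟨Kr, hKr, hr⟩ := r_bd hm hδ
  obtain ⟨Ks, hKs, hs⟩ := s_bd hm hδ
  obtain ⟨Kv, hKv, hv⟩ := vS_bd hm hδ
  have et := eta_lt hm hδ
  have ep := eta_pos (m := m) hδ
  refine ⟨m ^ 2 * (Ku / δ ^ 2) + m ^ 4 * (Kr / δ ^ 3 + (Kv + Ks ^ 2) / δ ^ 4), by positivity,
    fun k => ?_⟩
  have np := nk_pos k
  have Lp := Ls_pos (m := m) hδ k
  have step1 : ph m hδ k ≤ m ^ 2 * (EG m hδ k (Uf δ) / Ls m δ k ^ 2)
      + m ^ 4 * (EG m hδ k (Rf δ) / Ls m δ k ^ 3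
        + Ex m hδ k (fun ω => Sf δ (k + 2) (graph m k ω) ^ 2) / Ls m δ k ^ 4) := by
    unfold ph
    refine (Ex_mono m hδ k fun ω => newTri_fact (stp_graph hm hδ k ω)).trans (le_of_eq ?_)
    have e : ∀ ω : Hist m k, (m:ℝ) ^ 2 * (Uf δ (k + 2) (graph m k ω) / Lt m δ (k + 2) ^ 2)
        + m ^ 4 * (Rf δ (k + 2) (graph m k ω) / Lt m δ (k + 2) ^ 3
          + (Sf δ (k + 2) (graph m k ω) / Lt m δ (k + 2) ^ 2) ^ 2)
        = (m ^ 2 / Lt m δ (k + 2) ^ 2) * Uf δ (k + 2) (graph m k ω)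
          + ((m ^ 4 / Lt m δ (k + 2) ^ 3) * Rf δ (k + 2) (graph m k ω)
            + (m ^ 4 / Lt m δ (k + 2) ^ 4) * Sf δ (k + 2) (graph m k ω) ^ 2) := by
      intro ω
      have : Lt m δ (k + 2) ≠ 0 := Lp.ne'
      field_simp
    rw [Ex_congr m hδ k e, Ex_add, Ex_mul_left, Ex_add, Ex_mul_left, Ex_mul_left]
    unfold EG Ls
    ring
  have hS2 : Ex m hδ k (fun ω => Sf δ (k + 2) (graph m k ω) ^ 2)
      = VG m hδ k (Sf δ) + EG m hδ k (Sf δ) ^ 2 := by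
    have e : ∀ ω : Hist m k, Sf δ (k + 2) (graph m k ω) ^ 2
        = (Sf δ (k + 2) (graph m k ω) - EG m hδ k (Sf δ)) ^ 2
          + ((2 * EG m hδ k (Sf δ)) * Sf δ (k + 2) (graph m k ω)
            - EG m hδ k (Sf δ) ^ 2) := fun ω => by ring
    rw [Ex_congr m hδ k e, Ex_add, Ex_sub, Ex_mul_left, Ex_const]
    change VG m hδ k (Sf δ) + (2 * EG m hδ k (Sf δ) * EG m hδ k (Sf δ) - _) = _
    ring
  rw [hS2] at step1
  have d : ∀ j : ℕ, (δ * ((k:ℝ) + 2)) ^ j ≤ Ls m δ k ^ j := fun j =>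
    pow_le_pow_left₀ (mul_pos hδ np).le (Ls_ge k) j
  have q : ∀ (j : ℕ) (x y : ℝ), 0 ≤ x → x ≤ y → x / Ls m δ k ^ j ≤ y / (δ * ((k:ℝ) + 2)) ^ j := by
    intro j x y hx hxy
    exact (div_le_div_of_nonneg_left hx (by positivity) (d j)).trans
      (div_le_div_of_nonneg_right hxy (by positivity))
  have b1 := q 2 _ _ (u_nn hm hδ k) (hu k)
  have b2 := q 3 _ _ (r_nn hm hδ k) (hr k)
  have b3' : VG m hδ k (Sf δ) + EG m hδ k (Sf δ) ^ 2 ≤ (Kv + Ks ^ 2) * P 2 k := by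
    have t1 := hv k
    have t2 := pow_le_pow_left₀ (s_nn hm hδ k) (hs k) 2
    rw [mul_pow, sq (P _ _), ← P_add] at t2
    have t3 : P (2 - kap m δ / 2) k ≤ P 2 k := P_mono (by unfold eta at ep; linarith) k
    have t4 := mul_le_mul_of_nonneg_left t3 hKv
    have e : (1:ℝ) + 1 = 2 := by norm_num
    rw [e] at t2
    linarith
  have b3 := q 4 _ _ (add_nonneg (VG_nonneg hδ k _) (sq_nonneg _)) b3'
  -- rewrite powers
  have pw : ∀ (j : ℕ) (θ : ℝ), P θ k / ((k:ℝ) + 2) ^ j = P (θ - j) k := by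
    intro j θ
    unfold P
    rw [Real.rpow_sub np, Real.rpow_natCast]
  have c1 : Ku * P (1 - kap m δ / 4) k / (δ * ((k:ℝ) + 2)) ^ 2
      ≤ Ku / δ ^ 2 * P (-1 - eta m δ) k := by
    have e : Ku * P (1 - kap m δ / 4) k / (δ * ((k:ℝ) + 2)) ^ 2
        = Ku / δ ^ 2 * (P (1 - kap m δ / 4) k / ((k:ℝ) + 2) ^ 2) := by
      rw [mul_pow]; field_simp
    rw [e, pw]
    apply mul_le_mul_of_nonneg_left (P_mono _ k) (by positivity)
    unfold eta; push_cast; linarith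
  have c2 : Kr * P (3/2) k / (δ * ((k:ℝ) + 2)) ^ 3 ≤ Kr / δ ^ 3 * P (-1 - eta m δ) k := by
    have e : Kr * P (3/2) k / (δ * ((k:ℝ) + 2)) ^ 3
        = Kr / δ ^ 3 * (P (3/2) k / ((k:ℝ) + 2) ^ 3) := by
      rw [mul_pow]; field_simp
    rw [e, pw]
    apply mul_le_mul_of_nonneg_left (P_mono _ k) (by positivity)
    push_cast; linarith
  have c3 : (Kv + Ks ^ 2) * P 2 k / (δ * ((k:ℝ) + 2)) ^ 4
      ≤ (Kv + Ks ^ 2) / δ ^ 4 * P (-1 - eta m δ) k := by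
    have e : (Kv + Ks ^ 2) * P 2 k / (δ * ((k:ℝ) + 2)) ^ 4
        = (Kv + Ks ^ 2) / δ ^ 4 * (P 2 k / ((k:ℝ) + 2) ^ 4) := by
      rw [mul_pow]; field_simp
    rw [e, pw]
    apply mul_le_mul_of_nonneg_left (P_mono _ k) (by positivity)
    push_cast; linarith
  have m2 : (0:ℝ) ≤ m ^ 2 := by positivity
  have m4 : (0:ℝ) ≤ m ^ 4 := by positivity
  have d1 := mul_le_mul_of_nonneg_left (b1.trans c1) m2
  have d2 := mul_le_mul_of_nonneg_left (add_le_add (b2.trans c2) (b3.trans c3)) m4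
  have d3 := step1.trans (add_le_add d1 d2)
  refine d3.trans (le_of_eq ?_)
  ring

/-! summability -/

theorem summable_P (hδ : 0 < δ) : Summable fun k : ℕ => P (-1 - eta m δ) k := by
  have h1 : Summable fun k : ℕ => ((k:ℝ)) ^ (-1 - eta m δ) :=
    Real.summable_nat_rpow.mpr (by have := eta_pos (m := m) hδ; linarith)
  have h2 := (summable_nat_add_iff 2).mpr h1
  refine h2.congr fun k => ?_
  unfold P
  push_cast
  rfl

theorem sum_le_of_bd (hδ : 0 < δ) {x : ℕ → ℝ} {K : ℝ} (hK : 0 ≤ K)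
    (hx : ∀ k, x k ≤ K * P (-1 - eta m δ) k) :
    ∀ N, ∑ k ∈ Finset.range N, x k ≤ K * ∑' k, P (-1 - eta m δ) k := by
  intro N
  refine (Finset.sum_le_sum fun k _ => hx k).trans ?_
  rw [← Finset.mul_sum]
  apply mul_le_mul_of_nonneg_left _ hK
  exact (summable_P hδ).sum_le_tsum _ fun k _ => P_nonneg _ _

/-! one step comparison -/

theorem SE_expand {n : ℕ} {M : MGraph} (h : Stp m δ n M) {a : ℝ} (ha : 0 ≤ a) {g : ℕ → ℝ}
    (hg : Lip a g) (x : ℕ) :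
    |SE (pv m δ n M) (fun f : Fin m → Fin n => g (x + newTri n M f)) - g x
        - (g (x + 1) - g x) * lamF m δ n M| ≤ 2 * a * phF m δ n M := by
  have e1 : lamF m δ n M = SE (pv m δ n M) (fun f : Fin m → Fin n => (newTri n M f : ℝ)) := by
    rw [newTri_mean h]; rfl
  have e : SE (pv m δ n M) (fun f : Fin m → Fin n => g (x + newTri n M f)) - g x
        - (g (x + 1) - g x) * lamF m δ n M
      = SE (pv m δ n M) (fun f : Fin m → Fin n => g (x + newTri n M f) - g x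
          - (g (x + 1) - g x) * (newTri n M f : ℝ)) := by
    rw [SE_sub, SE_sub, SE_const h.pv_sum, SE_mul_left, e1]
  rw [e]
  refine (SE_abs_le h.pv_nonneg _).trans ?_
  unfold phF
  rw [← SE_mul_left]
  apply SE_mono h.pv_nonneg
  intro f
  generalize newTri n M f = j
  rcases Nat.lt_or_ge j 2 with hj | hj
  · interval_cases j <;> simp
  · have h1 := hg (x + j) x
    have h2 := hg (x + 1) x
    have e1 : |((x + j : ℕ) : ℝ) - x| = j := by
      push_cast; rw [add_sub_cancel_left]; exact abs_of_nonneg (Nat.cast_nonneg _)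
    have e2 : |((x + 1 : ℕ) : ℝ) - x| = 1 := by
      push_cast; rw [add_sub_cancel_left]; exact abs_one
    rw [e1] at h1
    rw [e2, mul_one] at h2
    have hj' : (2:ℝ) ≤ j := by exact_mod_cast hj
    have h3 : |g (x + j) - g x - (g (x + 1) - g x) * (j:ℝ)|
        ≤ |g (x + j) - g x| + |(g (x + 1) - g x) * (j:ℝ)| := abs_sub _ _
    rw [abs_mul, abs_of_nonneg (Nat.cast_nonneg j : (0:ℝ) ≤ j)] at h3
    have h4 : |g (x + 1) - g x| * (j:ℝ) ≤ a * j :=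
      mul_le_mul_of_nonneg_right h2 (Nat.cast_nonneg j)
    have h5 : (j:ℝ) ≤ j * (j - 1) := by nlinarith
    nlinarith [mul_le_mul_of_nonneg_left h5 ha]

theorem one_step {n : ℕ} {M : MGraph} (h : Stp m δ n M) {a : ℝ} (ha : 0 ≤ a) {g : ℕ → ℝ}
    (hg : Lip a g) (x : ℕ) (c : ℝ≥0) :
    |SE (pv m δ n M) (fun f : Fin m → Fin n => g (x + newTri n M f)) - PoS c g x|
      ≤ a * (|lamF m δ n M - c| + (2 * phF m δ n M + 2 * (c:ℝ) ^ 2)) := by
  have h1 := SE_expand h ha hg x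
  have h2 := PoS_expand ha hg c x
  have h3 : |(g (x + 1) - g x) * (lamF m δ n M - c)| ≤ a * |lamF m δ n M - c| := by
    rw [abs_mul]
    apply mul_le_mul_of_nonneg_right _ (abs_nonneg _)
    have h2 := hg (x + 1) x
    have e2 : |((x + 1 : ℕ) : ℝ) - x| = 1 := by
      push_cast; rw [add_sub_cancel_left]; exact abs_one
    rw [e2, mul_one] at h2
    exact h2
  have e : SE (pv m δ n M) (fun f : Fin m → Fin n => g (x + newTri n M f)) - PoS c g x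
      = (SE (pv m δ n M) (fun f : Fin m → Fin n => g (x + newTri n M f)) - g x
        - (g (x + 1) - g x) * lamF m δ n M)
        + (-(PoS c g x - g x - (g (x + 1) - g x) * c))
        + (g (x + 1) - g x) * (lamF m δ n M - c) := by ring
  rw [e]
  refine (abs_add_three _ _ _).trans ?_
  rw [abs_neg]
  nlinarith

end MP751612
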