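import Pool.Agent.Lib.MP_751612_pr.Tele

/-! Telescoping comparison of `T_n` with a Poisson variable, and the variance of `T_n`. -/

open MeasureTheory ProbabilityTheory Filter Topology
open scoped ENNReal NNReal BigOperators

namespace MP751612

variable {m : ℕ} {δ : ℝ}

/-- the triangle count as a function of the history -/
def TT (m k : ℕ) (ω : Hist m k) : ℕ := triangles (k + 2) (graph m k ω)

/-- `E T` -/
noncomputable def mu (m : ℕ) {δ : ℝ} (hδ : 0 < δ) (k : ℕ) : ℝ :=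
  Ex m hδ k (fun ω => (TT m k ω : ℝ))

theorem TT_succ (k : ℕ) (ω : Hist m k) (f : Fin m → Fin (k + 2)) :
    TT m (k + 1) (ω, f) = TT m k ω + newTri (k + 2) (graph m k ω) f :=
  triangles_attach (goodG_graph m k ω) f

theorem Ex_TT_succ (hδ : 0 < δ) (k : ℕ) (F : ℕ → ℝ) :
    Ex m hδ (k + 1) (fun ω => F (TT m (k + 1) ω))
      = Ex m hδ k (fun ω => SE (pv m δ (k + 2) (graph m k ω))
          (fun f : Fin m → Fin (k + 2) => F (TT m k ω + newTri (k + 2) (graph m k ω) f))) := by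
  rw [Ex_succ]
  refine Ex_congr m hδ k fun ω => ?_
  rw [pp_eq]
  exact SE_congr fun f => by rw [TT_succ]

theorem TT_zero (ω : Hist m 0) : TT m 0 ω = 0 := by
  unfold TT triangles
  apply Finset.sum_eq_zero
  intro c hc
  apply Finset.sum_eq_zero
  intro b hb
  apply Finset.sum_eq_zero
  intro a ha
  have h1 := Finset.mem_range.mp hc
  have h2 := Finset.mem_range.mp hb
  have h3 := Finset.mem_range.mp ha
  omega

theorem mu_succ (hm : 1 ≤ m) (hδ : 0 < δ) (k : ℕ) : mu m hδ (k + 1) = mu m hδ k + cc m hδ k := by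
  unfold mu cc EG
  rw [Ex_TT_succ hδ k (fun t => (t:ℝ)), ← Ex_add]
  refine Ex_congr m hδ k fun ω => ?_
  have h := stp_graph hm hδ k ω
  push_cast
  rw [SE_add, SE_const h.pv_sum, newTri_mean h]
  rfl

theorem mu_zero (hδ : 0 < δ) : mu m hδ 0 = 0 := by
  unfold mu
  rw [Ex_zero, TT_zero]; simp

theorem mu_eq_sum (hm : 1 ≤ m) (hδ : 0 < δ) (k : ℕ) :
    mu m hδ k = ∑ j ∈ Finset.range k, cc m hδ j := by
  induction k with
  | zero => rw [mu_zero]; simp
  | succ k ih => rw [mu_succ hm hδ, ih, Finset.sum_range_succ]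

noncomputable def cN (hm : 1 ≤ m) (hδ : 0 < δ) (k : ℕ) : ℝ≥0 := ⟨cc m hδ k, cc_nn hm hδ k⟩

noncomputable def muN (hm : 1 ≤ m) (hδ : 0 < δ) (K : ℕ) : ℝ≥0 :=
  ∑ j ∈ Finset.range K, cN hm hδ j

theorem muN_coe (hm : 1 ≤ m) (hδ : 0 < δ) (K : ℕ) : ((muN hm hδ K : ℝ≥0) : ℝ) = mu m hδ K := by
  unfold muN
  rw [mu_eq_sum hm hδ]
  push_cast
  rfl

/-- the error in one step -/
noncomputable def er (m : ℕ) {δ : ℝ} (hδ : 0 < δ) (k : ℕ) : ℝ :=
  rr m hδ k + (2 * ph m hδ k + 2 * cc m hδ k ^ 2)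

theorem tele_step (hm : 1 ≤ m) (hδ : 0 < δ) {a : ℝ} (ha : 0 ≤ a) {h : ℕ → ℝ} (hh : Lip a h)
    (k : ℕ) (s : ℝ≥0) :
    |Ex m hδ (k + 1) (fun ω => PoS s h (TT m (k + 1) ω))
        - Ex m hδ k (fun ω => PoS (cN hm hδ k + s) h (TT m k ω))| ≤ a * er m hδ k := by
  rw [Ex_TT_succ hδ k (PoS s h), ← Ex_sub]
  have hs := PoS_lip ha hh s
  have key : ∀ ω : Hist m k,
      |SE (pv m δ (k + 2) (graph m k ω))
          (fun f : Fin m → Fin (k + 2) => PoS s h (TT m k ω + newTri (k + 2) (graph m k ω) f))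
        - PoS (cN hm hδ k + s) h (TT m k ω)|
      ≤ a * (|lamF m δ (k + 2) (graph m k ω) - cc m hδ k|
          + (2 * phF m δ (k + 2) (graph m k ω) + 2 * cc m hδ k ^ 2)) := by
    intro ω
    rw [← PoS_comp ha hh]
    exact one_step (stp_graph hm hδ k ω) ha hs (TT m k ω) (cN hm hδ k)
  refine (Ex_abs_le m hδ k _).trans ((Ex_mono m hδ k key).trans ?_)
  rw [Ex_mul_left]
  apply mul_le_mul_of_nonneg_left _ ha
  rw [Ex_add, Ex_add, Ex_const, Ex_mul_left]
  unfold er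
  apply add_le_add
  · exact Ex_abs_le_sqrt m hδ k (fun ω => lamF m δ (k + 2) (graph m k ω) - cc m hδ k)
  · exact le_rfl

theorem tele (hm : 1 ≤ m) (hδ : 0 < δ) {a : ℝ} (ha : 0 ≤ a) {h : ℕ → ℝ} (hh : Lip a h) (K : ℕ) :
    |Ex m hδ K (fun ω => h (TT m K ω)) - PoS (muN hm hδ K) h 0|
      ≤ a * ∑ k ∈ Finset.range K, er m hδ k := by
  -- generalise over the remaining time
  have gen : ∀ (k : ℕ) (s : ℝ≥0),
      |Ex m hδ k (fun ω => PoS s h (TT m k ω)) - PoS (muN hm hδ k + s) h 0|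
        ≤ a * ∑ j ∈ Finset.range k, er m hδ j := by
    intro k
    induction k with
    | zero =>
      intro s
      rw [Ex_zero, TT_zero]
      simp [muN]
    | succ k ih =>
      intro s
      have h1 := tele_step hm hδ ha hh k s
      have h2 := ih (cN hm hδ k + s)
      have e : muN hm hδ (k + 1) + s = muN hm hδ k + (cN hm hδ k + s) := by
        unfold muN
        rw [Finset.sum_range_succ, add_assoc]
      rw [e, Finset.sum_range_succ, mul_add]
      have := abs_sub_le (Ex m hδ (k + 1) (fun ω => PoS s h (TT m (k + 1) ω)))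
        (Ex m hδ k (fun ω => PoS (cN hm hδ k + s) h (TT m k ω)))
        (PoS (muN hm hδ k + (cN hm hδ k + s)) h 0)
      linarith
  have := gen K 0
  rw [add_zero] at this
  simpa only [PoS_zero] using this

/-- `Var T` -/
noncomputable def vT (m : ℕ) {δ : ℝ} (hδ : 0 < δ) (k : ℕ) : ℝ :=
  Ex m hδ k (fun ω => ((TT m k ω : ℝ) - mu m hδ k) ^ 2)

theorem vT_nn (hδ : 0 < δ) (k : ℕ) : 0 ≤ vT m hδ k := Ex_nonneg m hδ k fun _ => sq_nonneg _

theorem vT_succ (hm : 1 ≤ m) (hδ : 0 < δ) (k : ℕ) :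
    vT m hδ (k + 1) = vT m hδ k + cc m hδ k + (ph m hδ k - cc m hδ k ^ 2)
      + 2 * Ex m hδ k (fun ω => ((TT m k ω : ℝ) - mu m hδ k)
          * (lamF m δ (k + 2) (graph m k ω) - cc m hδ k)) := by
  unfold vT
  rw [Ex_TT_succ hδ k (fun t => ((t:ℝ) - mu m hδ (k + 1)) ^ 2)]
  have key : ∀ ω : Hist m k, SE (pv m δ (k + 2) (graph m k ω)) (fun f : Fin m → Fin (k + 2) =>
        (((TT m k ω + newTri (k + 2) (graph m k ω) f : ℕ) : ℝ) - mu m hδ (k + 1)) ^ 2)
      = ((TT m k ω : ℝ) - mu m hδ k) ^ 2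
        + (2 * (((TT m k ω : ℝ) - mu m hδ k) * (lamF m δ (k + 2) (graph m k ω) - cc m hδ k))
          + (phF m δ (k + 2) (graph m k ω) + ((1 - 2 * cc m hδ k) * lamF m δ (k + 2) (graph m k ω)
            + cc m hδ k ^ 2))) := by
    intro ω
    have h := stp_graph hm hδ k ω
    have e : ∀ f : Fin m → Fin (k + 2),
        (((TT m k ω + newTri (k + 2) (graph m k ω) f : ℕ) : ℝ) - mu m hδ (k + 1)) ^ 2
        = ((TT m k ω : ℝ) - mu m hδ k - cc m hδ k) ^ 2
          + ((newTri (k + 2) (graph m k ω) f : ℝ) * ((newTri (k + 2) (graph m k ω) f : ℝ) - 1)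
            + (1 + 2 * ((TT m k ω : ℝ) - mu m hδ k - cc m hδ k))
              * (newTri (k + 2) (graph m k ω) f : ℝ)) := by
      intro f
      rw [mu_succ hm hδ]
      push_cast
      ring
    have e1 : SE (pv m δ (k + 2) (graph m k ω))
        (fun f : Fin m → Fin (k + 2) => (newTri (k + 2) (graph m k ω) f : ℝ))
        = lamF m δ (k + 2) (graph m k ω) := newTri_mean h
    rw [SE_congr e, SE_add, SE_const h.pv_sum, SE_add, SE_mul_left, e1]
    change _ + (phF m δ (k + 2) (graph m k ω) + _) = _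
    ring
  rw [Ex_congr m hδ k key, Ex_add, Ex_add, Ex_mul_left, Ex_add, Ex_add, Ex_mul_left, Ex_const]
  change _ + (_ + (ph m hδ k + ((1 - 2 * cc m hδ k) * cc m hδ k + _))) = _
  ring

theorem cov_le (hδ : 0 < δ) (k : ℕ) :
    |Ex m hδ k (fun ω => ((TT m k ω : ℝ) - mu m hδ k)
          * (lamF m δ (k + 2) (graph m k ω) - cc m hδ k))| ≤ √(vT m hδ k) * rr m hδ k := by
  have h := Ex_mul_sq_le m hδ k (fun ω => (TT m k ω : ℝ) - mu m hδ k)
    (fun ω => lamF m δ (k + 2) (graph m k ω) - cc m hδ k)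
  have h2 := Real.abs_le_sqrt h
  refine h2.trans (le_of_eq ?_)
  exact Real.sqrt_mul (vT_nn (m := m) hδ k) _

theorem rr_nn (hδ : 0 < δ) (k : ℕ) : 0 ≤ rr m hδ k := Real.sqrt_nonneg _

theorem vT_diff (hm : 1 ≤ m) (hδ : 0 < δ) (k : ℕ) :
    |vT m hδ (k + 1) - vT m hδ k - cc m hδ k|
      ≤ ph m hδ k + cc m hδ k ^ 2 + 2 * (√(vT m hδ k) * rr m hδ k) := by
  have h1 := vT_succ hm hδ k
  have h2 := cov_le (m := m) hδ k
  have h3 := ph_nn hm hδ k
  have h4 := sq_nonneg (cc m hδ k)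
  have e : vT m hδ (k + 1) - vT m hδ k - cc m hδ k = (ph m hδ k - cc m hδ k ^ 2)
      + 2 * Ex m hδ k (fun ω => ((TT m k ω : ℝ) - mu m hδ k)
          * (lamF m δ (k + 2) (graph m k ω) - cc m hδ k)) := by rw [h1]; ring
  rw [e]
  refine (abs_add_le _ _).trans ?_
  rw [abs_mul 2, abs_of_pos (by norm_num : (0:ℝ) < 2)]
  have h5 : |ph m hδ k - cc m hδ k ^ 2| ≤ ph m hδ k + cc m hδ k ^ 2 := by
    rw [abs_le]; constructor <;> linarith
  linarith

theorem vT_upper (hm : 1 ≤ m) (hδ : 0 < δ) :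
    ∃ A : ℝ, 0 ≤ A ∧ ∀ k, vT m hδ k ≤ A * (mu m hδ k + 1) := by
  obtain ⟨Kr, hKr, hr⟩ := rr_bd hm hδ
  obtain ⟨Kp, hKp, hp⟩ := ph_bd hm hδ
  obtain ⟨Kc, hKc, hc⟩ := cc2_bd hm hδ
  set S := ∑' k, P (-1 - eta m δ) k with hS
  have hS0 : 0 ≤ S := tsum_nonneg fun k => P_nonneg _ _
  have sr := sum_le_of_bd hδ hKr hr
  have sp := sum_le_of_bd hδ hKp hp
  have sc := sum_le_of_bd hδ hKc hc
  have main : ∀ k, vT m hδ k + 1 ≤ Real.exp (∑ j ∈ Finset.range k, rr m hδ j)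
      * (1 + ∑ j ∈ Finset.range k, (cc m hδ j + (ph m hδ j + cc m hδ j ^ 2))) := by
    intro k
    induction k with
    | zero =>
      have : vT m hδ 0 = 0 := by
        unfold vT
        rw [Ex_zero, TT_zero, mu_zero]; simp
      rw [this]; simp
    | succ k ih =>
      have h1 := vT_diff hm hδ k
      have h2 := (abs_le.mp h1).2
      have hv := vT_nn (m := m) hδ k
      have hr0 := rr_nn (m := m) hδ k
      have h3 : 2 * √(vT m hδ k) ≤ 1 + vT m hδ k := by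
        have := sq_nonneg (√(vT m hδ k) - 1)
        rw [sub_sq, Real.sq_sqrt hv] at this
        linarith
      have h4 : 2 * (√(vT m hδ k) * rr m hδ k) ≤ (vT m hδ k + 1) * rr m hδ k := by
        nlinarith
      set b := cc m hδ k + (ph m hδ k + cc m hδ k ^ 2) with hb
      have hb0 : 0 ≤ b := add_nonneg (cc_nn hm hδ k) (add_nonneg (ph_nn hm hδ k) (sq_nonneg _))
      have h5 : vT m hδ (k + 1) + 1 ≤ (vT m hδ k + 1) * (1 + rr m hδ k) + b := by
        rw [hb]; linarith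
      rw [Finset.sum_range_succ, Finset.sum_range_succ, Real.exp_add]
      set R := ∑ j ∈ Finset.range k, rr m hδ j with hR
      set B := ∑ j ∈ Finset.range k, (cc m hδ j + (ph m hδ j + cc m hδ j ^ 2)) with hB
      have hR0 : 0 ≤ R := Finset.sum_nonneg fun j _ => rr_nn hδ j
      have hB0 : 0 ≤ B := Finset.sum_nonneg fun j _ =>
        add_nonneg (cc_nn hm hδ j) (add_nonneg (ph_nn hm hδ j) (sq_nonneg _))
      have e1 : 1 + rr m hδ k ≤ Real.exp (rr m hδ k) := by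
        linarith [Real.add_one_le_exp (rr m hδ k)]
      have e2 : 1 ≤ Real.exp R := Real.one_le_exp hR0
      have e3 : 1 ≤ Real.exp (rr m hδ k) := Real.one_le_exp hr0
      have e4 : (vT m hδ k + 1) * (1 + rr m hδ k)
          ≤ (Real.exp R * (1 + B)) * Real.exp (rr m hδ k) :=
        mul_le_mul ih e1 (by linarith) (by positivity)
      have e5 : b ≤ Real.exp R * Real.exp (rr m hδ k) * b := by
        have : 1 ≤ Real.exp R * Real.exp (rr m hδ k) := by nlinarith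
        nlinarith
      have e6 : Real.exp R * Real.exp (rr m hδ k) * (1 + (B + b))
          = (Real.exp R * (1 + B)) * Real.exp (rr m hδ k)
            + Real.exp R * Real.exp (rr m hδ k) * b := by ring
      rw [e6]
      linarith
  refine ⟨Real.exp (Kr * S) * (1 + (Kp * S + Kc * S)), by positivity, fun k => ?_⟩
  have h1 := main k
  have h2 : Real.exp (∑ j ∈ Finset.range k, rr m hδ j) ≤ Real.exp (Kr * S) :=
    Real.exp_le_exp.mpr (sr k)
  have h3 : (1 + ∑ j ∈ Finset.range k, (cc m hδ j + (ph m hδ j + cc m hδ j ^ 2)))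
      ≤ (1 + (Kp * S + Kc * S)) * (mu m hδ k + 1) := by
    rw [Finset.sum_add_distrib, Finset.sum_add_distrib, ← mu_eq_sum hm hδ]
    have hmu : 0 ≤ mu m hδ k := Ex_nonneg m hδ k fun _ => Nat.cast_nonneg _
    have := sp k
    have := sc k
    have t1 : 0 ≤ Kp * S := mul_nonneg hKp hS0
    have t2 : 0 ≤ Kc * S := mul_nonneg hKc hS0
    nlinarith [mul_nonneg t1 hmu, mul_nonneg t2 hmu]
  have h4 := mul_le_mul h2 h3 (by
    have : 0 ≤ ∑ j ∈ Finset.range k, (cc m hδ j + (ph m hδ j + cc m hδ j ^ 2)) :=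
      Finset.sum_nonneg fun j _ =>
        add_nonneg (cc_nn hm hδ j) (add_nonneg (ph_nn hm hδ j) (sq_nonneg _))
    linarith) (Real.exp_pos _).le
  have h5 : vT m hδ k ≤ vT m hδ k + 1 := by linarith
  refine (h5.trans (h1.trans h4)).trans (le_of_eq ?_)
  ring

theorem mu_nn (hδ : 0 < δ) (k : ℕ) : 0 ≤ mu m hδ k := Ex_nonneg m hδ k fun _ => Nat.cast_nonneg _

theorem mu_mono (hm : 1 ≤ m) (hδ : 0 < δ) : Monotone (mu m hδ) :=
  monotone_nat_of_le_succ fun k => by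
    rw [mu_succ hm hδ]; have := cc_nn hm hδ k; linarith

theorem vT_mu (hm : 1 ≤ m) (hδ : 0 < δ) :
    ∃ B : ℝ, 0 ≤ B ∧ ∀ k, |vT m hδ k - mu m hδ k| ≤ B * √(mu m hδ k + 1) := by
  obtain ⟨A, hA, hv⟩ := vT_upper hm hδ
  obtain ⟨Kr, hKr, hr⟩ := rr_bd hm hδ
  obtain ⟨Kp, hKp, hp⟩ := ph_bd hm hδ
  obtain ⟨Kc, hKc, hc⟩ := cc2_bd hm hδ
  set S := ∑' k, P (-1 - eta m δ) k with hS
  have hS0 : 0 ≤ S := tsum_nonneg fun k => P_nonneg _ _
  have sr := sum_le_of_bd hδ hKr hr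
  have sp := sum_le_of_bd hδ hKp hp
  have sc := sum_le_of_bd hδ hKc hc
  have main : ∀ K k, k ≤ K → |vT m hδ k - mu m hδ k|
      ≤ ∑ j ∈ Finset.range k, ((ph m hδ j + cc m hδ j ^ 2)
        + 2 * (√(A * (mu m hδ K + 1)) * rr m hδ j)) := by
    intro K k
    induction k with
    | zero =>
      intro _
      have : vT m hδ 0 = 0 := by
        unfold vT
        rw [Ex_zero, TT_zero, mu_zero]; simp
      rw [this, mu_zero]; simp
    | succ k ih =>
      intro hk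
      have h1 := ih (by omega)
      have h2 := vT_diff hm hδ k
      have h3 : √(vT m hδ k) ≤ √(A * (mu m hδ K + 1)) := by
        apply Real.sqrt_le_sqrt
        refine (hv k).trans (mul_le_mul_of_nonneg_left ?_ hA)
        have := mu_mono hm hδ (by omega : k ≤ K)
        linarith
      have h4 := mul_le_mul_of_nonneg_right h3 (rr_nn (m := m) hδ k)
      rw [Finset.sum_range_succ, mu_succ hm hδ]
      have e : vT m hδ (k + 1) - (mu m hδ k + cc m hδ k)
          = (vT m hδ k - mu m hδ k) + (vT m hδ (k + 1) - vT m hδ k - cc m hδ k) := by ring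
      rw [e]
      refine (abs_add_le _ _).trans ?_
      linarith
  refine ⟨Kp * S + Kc * S + 2 * (√A * (Kr * S)), by positivity, fun k => ?_⟩
  refine (main k k le_rfl).trans ?_
  rw [Finset.sum_add_distrib, Finset.sum_add_distrib, ← Finset.mul_sum, ← Finset.mul_sum]
  have h1 : 1 ≤ √(mu m hδ k + 1) := by
    rw [Real.one_le_sqrt]
    have := mu_nn (m := m) hδ k
    linarith
  have h2 : √(A * (mu m hδ k + 1)) = √A * √(mu m hδ k + 1) := Real.sqrt_mul hA _
  rw [h2]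
  have := sp k
  have := sc k
  have h3 := mul_le_mul_of_nonneg_left (sr k)
    (mul_nonneg (Real.sqrt_nonneg A) (Real.sqrt_nonneg (mu m hδ k + 1)))
  have t1 : 0 ≤ Kp * S := mul_nonneg hKp hS0
  have t2 : 0 ≤ Kc * S := mul_nonneg hKc hS0
  nlinarith [mul_le_mul_of_nonneg_left h1 t1, mul_le_mul_of_nonneg_left h1 t2]

/-! growth of the mean -/

theorem Sf_ge (hm : 1 ≤ m) (hδ : 0 < δ) (k : ℕ) (ω : Hist m k) :
    Ls m δ k ≤ Sf δ (k + 2) (graph m k ω) := by
  have h := stp_graph hm hδ k ω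
  rw [← sum_wt_Nb]
  unfold Ls
  rw [← h.tot]
  refine Finset.sum_le_sum fun v hv => ?_
  have h1 := h.wt_one (Finset.mem_range.mp hv)
  have h2 := h.wt_le_Nb (Finset.mem_range.mp hv)
  nlinarith

theorem cc_ge (hm : 1 ≤ m) (hδ : 0 < δ) (k : ℕ) :
    (m * (m - 1) / 2 / (2 * m + δ)) / ((k:ℝ) + 2) ≤ cc m hδ k := by
  rw [cc_eq]
  have hm1 : (1:ℝ) ≤ m := by exact_mod_cast hm
  have h0 : (0:ℝ) ≤ m * (m - 1) / 2 :=
    div_nonneg (mul_nonneg (by positivity) (by linarith)) (by norm_num)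
  have h1 : Ls m δ k ≤ EG m hδ k (Sf δ) := by
    rw [← Ex_const m hδ k (Ls m δ k)]
    exact Ex_mono m hδ k fun ω => Sf_ge hm hδ k ω
  have Lp := Ls_pos (m := m) hδ k
  have h2 := mul_le_mul_of_nonneg_left h1 (ak_nn (δ := δ) hm k)
  refine le_trans ?_ h2
  have e : ak m δ k * Ls m δ k = (m * (m - 1) / 2) / Ls m δ k := by
    unfold ak; field_simp
  rw [e, div_div]
  exact div_le_div_of_nonneg_left h0 Lp (Ls_le hδ k)

theorem harmonic_ge (K : ℕ) :
    Real.log ((K:ℝ) + 2) - Real.log 2 ≤ ∑ k ∈ Finset.range K, 1 / ((k:ℝ) + 2) := by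
  induction K with
  | zero => simp
  | succ K ih =>
    rw [Finset.sum_range_succ]
    have hp := nk_pos K
    have h1 : Real.log (((K + 1 : ℕ) : ℝ) + 2) - Real.log ((K:ℝ) + 2) ≤ 1 / ((K:ℝ) + 2) := by
      rw [← Real.log_div (by positivity) hp.ne']
      have e : (((K + 1 : ℕ) : ℝ) + 2) / ((K:ℝ) + 2) = 1 + 1 / ((K:ℝ) + 2) := by
        push_cast; field_simp; ring
      rw [e]
      have := Real.log_le_sub_one_of_pos (by positivity : 0 < 1 + 1 / ((K:ℝ) + 2))
      linarith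
    linarith

theorem mu_ge (hm : 1 ≤ m) (hδ : 0 < δ) (k : ℕ) :
    (m * (m - 1) / 2 / (2 * m + δ)) * (Real.log ((k:ℝ) + 2) - Real.log 2) ≤ mu m hδ k := by
  have hm1 : (1:ℝ) ≤ m := by exact_mod_cast hm
  have h0 : (0:ℝ) ≤ m * (m - 1) / 2 / (2 * m + δ) :=
    div_nonneg (div_nonneg (mul_nonneg (by positivity) (by linarith)) (by norm_num)) (by positivity)
  rw [mu_eq_sum hm hδ]
  refine (mul_le_mul_of_nonneg_left (harmonic_ge k) h0).trans ?_
  rw [Finset.mul_sum]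
  refine Finset.sum_le_sum fun j _ => ?_
  refine le_trans (le_of_eq ?_) (cc_ge hm hδ j)
  ring

end MP751612
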